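import Pool.Agent.Helper73.SC.Stm
import Pool.Agent.Helper73.BL.F4

set_option autoImplicit false

/-!
# Subconvexity for Barnes zeta functions: the integral of the Fourier transform
-/

namespace Pool.Agent.Helper73.SC

open MeasureTheory Metric Finset

lemma DN_nonneg {N y : ℝ} (hN : 0 < N) : 0 ≤ DN N y := by
  unfold DN
  have : 0 < max N⁻¹ (nd y) := lt_of_lt_of_le (by positivity) (le_max_left _ _)
  positivity

lemma two_rpow_le {ε : ℝ} (hε2 : ε ≤ 1 / 2) : (2 : ℝ) ^ ε ≤ 3 / 2 := by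
  calc (2 : ℝ) ^ ε ≤ 2 ^ (1 / 2 : ℝ) := Real.rpow_le_rpow_of_exponent_le (by norm_num) hε2
    _ = Real.sqrt 2 := (Real.sqrt_eq_rpow 2).symm
    _ ≤ 3 / 2 := by
        rw [Real.sqrt_le_left (by norm_num)]
        norm_num

/-- the integral of the kernel against a function with two bounds -/
lemma U_int {d : ℕ} {v : Fin d → ℝ} {C₁ ε M Y K₁ K₂ : ℝ} {g : ℝ → ℂ}
    (hAE : ∀ X N : ℝ, 1 ≤ X → 1 ≤ N →
      ∫⁻ ξ in Set.Icc (-X) X, ENNReal.ofReal (∏ j, DN N (v j * ξ)) ≤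
        ENNReal.ofReal (C₁ * (X * N) ^ ε * (X + N ^ (d - 1))))
    (hC₁ : 0 ≤ C₁) (hε : 0 < ε) (hε2 : ε ≤ 1 / 2) (hM : 1 ≤ M) (hY : 1 ≤ Y) (hK₁ : 0 ≤ K₁)
    (hK₂ : 0 ≤ K₂) (h1 : ∀ ξ, ‖g ξ‖ ≤ K₁) (h2 : ∀ ξ, Y ≤ |ξ| → ‖g ξ‖ ≤ K₂ / ξ ^ 2) :
    ∫⁻ ξ, ENNReal.ofReal (‖g ξ‖ * ∏ j, DN M (v j * ξ)) ≤
      ENNReal.ofReal ((K₁ + 12 * K₂ / Y ^ 2) * (C₁ * (Y * M) ^ ε * (Y + M ^ (d - 1)))) := by
  have hM0 : 0 < M := by linarith
  have hY0 : 0 < Y := by linarith
  set W : ℝ := C₁ * (Y * M) ^ ε * (Y + M ^ (d - 1)) with hW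
  have hW0 : 0 ≤ W := by positivity
  set F : ℝ → ℝ := fun ξ => ∏ j, DN M (v j * ξ) with hF
  have hF0 : ∀ ξ, 0 ≤ F ξ := fun ξ => Finset.prod_nonneg fun j _ => DN_nonneg hM0
  set A : ℕ → Set ℝ := fun n => {ξ | 2 ^ n * Y ≤ |ξ| ∧ |ξ| ≤ 2 ^ (n + 1) * Y} with hA
  have hcover : (Set.univ : Set ℝ) ⊆ Set.Icc (-Y) Y ∪ ⋃ n, A n := by
    intro ξ _
    by_cases h : |ξ| ≤ Y
    · left
      rw [Set.mem_Icc]
      exact abs_le.1 h
    · right
      have h3 : Y < |ξ| := lt_of_not_ge h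
      have h4 : 1 ≤ |ξ| / Y := by
        rw [le_div_iff₀ hY0]
        linarith
      obtain ⟨n, hn1, hn2⟩ := exists_nat_pow_near h4 (show (1 : ℝ) < 2 by norm_num)
      rw [Set.mem_iUnion]
      refine ⟨n, ?_, ?_⟩
      · rwa [le_div_iff₀ hY0] at hn1
      · rw [div_lt_iff₀ hY0] at hn2
        exact hn2.le
  have hmain : ∫⁻ ξ in Set.Icc (-Y) Y, ENNReal.ofReal (‖g ξ‖ * F ξ) ≤ ENNReal.ofReal (K₁ * W) := by
    calc ∫⁻ ξ in Set.Icc (-Y) Y, ENNReal.ofReal (‖g ξ‖ * F ξ)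
        ≤ ∫⁻ ξ in Set.Icc (-Y) Y, ENNReal.ofReal K₁ * ENNReal.ofReal (F ξ) := by
          apply lintegral_mono
          intro ξ
          simp only
          rw [← ENNReal.ofReal_mul hK₁]
          apply ENNReal.ofReal_le_ofReal
          exact mul_le_mul_of_nonneg_right (h1 ξ) (hF0 ξ)
      _ = ENNReal.ofReal K₁ * ∫⁻ ξ in Set.Icc (-Y) Y, ENNReal.ofReal (F ξ) :=
          lintegral_const_mul' _ _ ENNReal.ofReal_ne_top
      _ ≤ ENNReal.ofReal K₁ * ENNReal.ofReal W := by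
          gcongr
          exact hAE Y M hY hM
      _ = _ := by rw [← ENNReal.ofReal_mul hK₁]
  have hpiece : ∀ n, ∫⁻ ξ in A n, ENNReal.ofReal (‖g ξ‖ * F ξ) ≤
      ENNReal.ofReal (3 * (K₂ / Y ^ 2 * W) * (3 / 4) ^ n) := by
    intro n
    have hX1 : 1 ≤ (2 : ℝ) ^ (n + 1) * Y := one_le_mul_of_one_le_of_one_le
      (one_le_pow₀ (by norm_num)) hY
    have hsub : A n ⊆ Set.Icc (-((2 : ℝ) ^ (n + 1) * Y)) ((2 : ℝ) ^ (n + 1) * Y) := by
      intro ξ hξ
      rw [Set.mem_Icc]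
      exact abs_le.1 hξ.2
    have hAm : MeasurableSet (A n) := by
      apply MeasurableSet.inter
      · exact measurableSet_le measurable_const measurable_id.abs
      · exact measurableSet_le measurable_id.abs measurable_const
    have hc0 : 0 ≤ K₂ / ((2 : ℝ) ^ n * Y) ^ 2 := by positivity
    calc ∫⁻ ξ in A n, ENNReal.ofReal (‖g ξ‖ * F ξ)
        ≤ ∫⁻ ξ in A n, ENNReal.ofReal (K₂ / ((2 : ℝ) ^ n * Y) ^ 2) * ENNReal.ofReal (F ξ) := by
          apply setLIntegral_mono' hAm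
          intro ξ hξ
          rw [← ENNReal.ofReal_mul hc0]
          apply ENNReal.ofReal_le_ofReal
          apply mul_le_mul_of_nonneg_right _ (hF0 ξ)
          have h3 : Y ≤ |ξ| := by
            refine le_trans ?_ hξ.1
            have : (1 : ℝ) ≤ 2 ^ n := one_le_pow₀ (by norm_num)
            nlinarith
          refine (h2 ξ h3).trans ?_
          apply div_le_div_of_nonneg_left hK₂ (by positivity)
          rw [← sq_abs ξ]
          exact pow_le_pow_left₀ (by positivity) hξ.1 2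
      _ = ENNReal.ofReal (K₂ / ((2 : ℝ) ^ n * Y) ^ 2) * ∫⁻ ξ in A n, ENNReal.ofReal (F ξ) :=
          lintegral_const_mul' _ _ ENNReal.ofReal_ne_top
      _ ≤ ENNReal.ofReal (K₂ / ((2 : ℝ) ^ n * Y) ^ 2) *
          ENNReal.ofReal (C₁ * (((2 : ℝ) ^ (n + 1) * Y) * M) ^ ε *
            (((2 : ℝ) ^ (n + 1) * Y) + M ^ (d - 1))) := by
          gcongr
          exact (lintegral_mono_set hsub).trans (hAE _ M hX1 hM)
      _ ≤ _ := by
          rw [← ENNReal.ofReal_mul hc0]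
          apply ENNReal.ofReal_le_ofReal
          have e1 : (((2 : ℝ) ^ (n + 1) * Y) * M) ^ ε ≤ (3 / 2) ^ (n + 1) * (Y * M) ^ ε := by
            rw [mul_assoc, Real.mul_rpow (by positivity) (by positivity)]
            apply mul_le_mul_of_nonneg_right _ (by positivity)
            rw [← Real.rpow_natCast, ← Real.rpow_mul (by norm_num), mul_comm ((n + 1 : ℕ) : ℝ) ε,
              Real.rpow_mul (by norm_num), Real.rpow_natCast]
            exact pow_le_pow_left₀ (by positivity) (two_rpow_le hε2) _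
          have e2 : ((2 : ℝ) ^ (n + 1) * Y) + M ^ (d - 1) ≤ 2 ^ (n + 1) * (Y + M ^ (d - 1)) := by
            have : (1 : ℝ) ≤ 2 ^ (n + 1) := one_le_pow₀ (by norm_num)
            have h5 : 0 ≤ M ^ (d - 1) := by positivity
            nlinarith
          calc K₂ / ((2 : ℝ) ^ n * Y) ^ 2 * (C₁ * (((2 : ℝ) ^ (n + 1) * Y) * M) ^ ε *
                (((2 : ℝ) ^ (n + 1) * Y) + M ^ (d - 1)))
              ≤ K₂ / ((2 : ℝ) ^ n * Y) ^ 2 * (C₁ * ((3 / 2) ^ (n + 1) * (Y * M) ^ ε) *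
                (2 ^ (n + 1) * (Y + M ^ (d - 1)))) := by gcongr
            _ = 3 * (K₂ / Y ^ 2 * W) * (((3 / 2) * 2 / 4) ^ n) := by
                have q1 : (3 / 2 : ℝ) ^ (n + 1) * 2 ^ (n + 1) = 3 * 3 ^ n := by
                  rw [← mul_pow]
                  norm_num
                  ring
                have q2 : ((2 : ℝ) ^ n * Y) ^ 2 = 4 ^ n * Y ^ 2 := by
                  rw [mul_pow, ← pow_mul, mul_comm n 2, pow_mul]
                  norm_num
                have q3 : ((3 / 2 : ℝ) * 2 / 4) ^ n = 3 ^ n / 4 ^ n := by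
                  rw [← div_pow]
                  norm_num
                rw [hW, q2, q3]
                calc K₂ / (4 ^ n * Y ^ 2) * (C₁ * ((3 / 2) ^ (n + 1) * (Y * M) ^ ε) *
                      (2 ^ (n + 1) * (Y + M ^ (d - 1))))
                    = K₂ / (4 ^ n * Y ^ 2) * (C₁ * (Y * M) ^ ε * (Y + M ^ (d - 1))) *
                      ((3 / 2) ^ (n + 1) * 2 ^ (n + 1)) := by ring
                  _ = _ := by
                    rw [q1]
                    field_simp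
            _ = _ := by norm_num
  have hsum : ∑' n, ENNReal.ofReal (3 * (K₂ / Y ^ 2 * W) * (3 / 4) ^ n) =
      ENNReal.ofReal (12 * K₂ / Y ^ 2 * W) := by
    have hs : Summable fun n : ℕ => 3 * (K₂ / Y ^ 2 * W) * (3 / 4 : ℝ) ^ n :=
      (summable_geometric_of_lt_one (by norm_num) (by norm_num)).mul_left _
    rw [← ENNReal.ofReal_tsum_of_nonneg (fun n => by positivity) hs, tsum_mul_left,
      tsum_geometric_of_lt_one (by norm_num) (by norm_num)]
    congr 1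
    ring
  calc ∫⁻ ξ, ENNReal.ofReal (‖g ξ‖ * ∏ j, DN M (v j * ξ))
      = ∫⁻ ξ in Set.univ, ENNReal.ofReal (‖g ξ‖ * F ξ) := by rw [setLIntegral_univ]
    _ ≤ ∫⁻ ξ in Set.Icc (-Y) Y ∪ ⋃ n, A n, ENNReal.ofReal (‖g ξ‖ * F ξ) :=
        lintegral_mono_set hcover
    _ ≤ _ := lintegral_union_le _ _ _
    _ ≤ ENNReal.ofReal (K₁ * W) + ∑' n, ∫⁻ ξ in A n, ENNReal.ofReal (‖g ξ‖ * F ξ) := by
        gcongr
        exact lintegral_iUnion_le _ _
    _ ≤ ENNReal.ofReal (K₁ * W) + ∑' n, ENNReal.ofReal (3 * (K₂ / Y ^ 2 * W) * (3 / 4) ^ n) := by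
        gcongr with n
        exact hpiece n
    _ = _ := by
        rw [hsum, ← ENNReal.ofReal_add (by positivity) (by positivity)]
        congr 1
        ring

end Pool.Agent.Helper73.SC
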