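import Pool.Agent.Helper73.SC.A1

set_option autoImplicit false

/-!
# Subconvexity for Barnes zeta functions: the differenced sums
-/

namespace Pool.Agent.Helper73.SC

open MeasureTheory Metric Finset

/-- the linear form at an integral vector -/
noncomputable def lz {r : ℕ} (a : ℝ) (w : Fin r → ℝ) (m : Fin r → ℤ) : ℝ :=
  a + ∑ j, (m j : ℝ) * w j

/-- the normalised term -/
noncomputable def fz {r : ℕ} (s : ℂ) (a : ℝ) (w : Fin r → ℝ) (M : ℕ) (m : Fin r → ℤ) : ℂ :=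
  ((lz a w m / M : ℝ) : ℂ) ^ (-s)

lemma ext_sum {r d : ℕ} {τ : Fin d → Fin r} {v : Fin d → ℝ} {w : Fin r → ℝ}
    (hwτ : ∀ i, w (τ i) = v i) (h : Fin d → ℤ) :
    ∑ j, (ext τ h j : ℝ) * w j = ∑ i, (h i : ℝ) * v i := by
  unfold ext
  push_cast
  simp only [Finset.sum_mul]
  rw [Finset.sum_comm]
  refine Finset.sum_congr rfl fun i _ => ?_
  rw [Finset.sum_eq_single (τ i)]
  · rw [if_pos rfl, hwτ]
  · intro j _ hj
    rw [if_neg (fun h => hj h.symm)]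
    simp
  · intro h
    exact absurd (Finset.mem_univ _) h

lemma lz_add {r d : ℕ} {τ : Fin d → Fin r} {v : Fin d → ℝ} {w : Fin r → ℝ}
    (hwτ : ∀ i, w (τ i) = v i) (a : ℝ) (m : Fin r → ℤ) (h : Fin d → ℤ) :
    lz a w (m + ext τ h) = lz a w m + ∑ i, (h i : ℝ) * v i := by
  unfold lz
  rw [← ext_sum hwτ h, add_assoc, ← Finset.sum_add_distrib]
  congr 1
  refine Finset.sum_congr rfl fun j _ => ?_
  rw [Pi.add_apply]
  push_cast
  ring

lemma fz_conj {r : ℕ} {s : ℂ} {a : ℝ} {w : Fin r → ℝ} {M : ℕ} {m : Fin r → ℤ}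
    (h : 0 ≤ lz a w m / M) :
    (starRingEnd ℂ) (fz s a w M m) = ((lz a w m / M : ℝ) : ℂ) ^ (-(starRingEnd ℂ) s) := by
  unfold fz
  have h1 : ((lz a w m / M : ℝ) : ℂ).arg ≠ Real.pi := by
    rw [Complex.arg_ofReal_of_nonneg h]
    exact Real.pi_ne_zero.symm
  have h2 := Complex.cpow_conj ((lz a w m / M : ℝ) : ℂ) (-s) h1
  rw [Complex.conj_ofReal] at h2
  rw [← map_neg, h2]

/-- the numerical part -/
lemma num_bound {d : ℕ} {C₁ ε M Y CF c₁ t b : ℝ} (hd : 1 ≤ d) (hC₁ : 0 ≤ C₁) (hε : 0 < ε)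
    (hε2 : ε ≤ 1 / 2) (hM : 1 ≤ M) (hMt : M ≤ t) (hCF : 1 ≤ CF) (hc₁ : 0 < c₁) (hb0 : 0 < b)
    (hb : b ≤ c₁ * M / 2) (hY : Y = max 1 (CF * (t * b / M) / M)) :
    (CF * M * (t * b / M) ^ (-(1 / 2) : ℝ) + 12 * (CF / M) / Y ^ 2) *
      (C₁ * (Y * M) ^ ε * (Y + M ^ (d - 1))) ≤
    13 * CF * C₁ * (1 + CF * c₁) * (2 + CF) * t ^ ε *
      (M ^ d * (t * b / M) ^ (-(1 / 2) : ℝ) + (t * b / M) ^ (1 / 2 : ℝ)) := by
  have hM0 : 0 < M := by linarith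
  have ht0 : 0 < t := by linarith
  set t' : ℝ := t * b / M with ht'
  have ht'0 : 0 < t' := by positivity
  set q : ℝ := t' ^ (-(1 / 2) : ℝ) with hq
  set p : ℝ := t' ^ (1 / 2 : ℝ) with hp
  have hq0 : 0 < q := Real.rpow_pos_of_pos ht'0 _
  have hp0 : 0 < p := Real.rpow_pos_of_pos ht'0 _
  have hpq : p * q = 1 := by
    rw [hp, hq, ← Real.rpow_add ht'0]
    norm_num
  have hpp : p ^ 2 = t' := by
    rw [hp, ← Real.rpow_natCast, ← Real.rpow_mul ht'0.le]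
    norm_num
  have htq : t' * q = p := by
    rw [← hpp, sq, mul_assoc, hpq, mul_one]
  have hY1 : 1 ≤ Y := by rw [hY]; exact le_max_left _ _
  have hY0 : 0 < Y := by linarith
  have hY2 : CF * t' / M ≤ Y := by rw [hY]; exact le_max_right _ _
  have hY3 : Y ≤ 1 + CF * t' / M := by
    rw [hY]
    apply max_le
    · have : 0 ≤ CF * t' / M := by positivity
      linarith
    · linarith
  have hMY : 1 ≤ M * Y := one_le_mul_of_one_le_of_one_le hM hY1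
  have ht'MY : t' ≤ M * Y := by
    rw [div_le_iff₀ hM0] at hY2
    nlinarith
  have hpMY : p ≤ M * Y := by
    have h1 : p ^ 2 ≤ (M * Y) ^ 2 := by
      rw [hpp]
      calc t' ≤ M * Y := ht'MY
        _ = (M * Y) ^ 1 := (pow_one _).symm
        _ ≤ _ := pow_le_pow_right₀ hMY (by norm_num)
    exact (pow_le_pow_iff_left₀ hp0.le (by positivity) (by norm_num)).1 h1
  have hi : CF / M / Y ^ 2 ≤ CF * M * q := by
    have h1 : 1 ≤ q * (M * Y) := by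
      calc 1 = p * q := hpq.symm
        _ ≤ (M * Y) * q := by gcongr
        _ = _ := by ring
    rw [div_div, div_le_iff₀ (by positivity)]
    have h2 : (1 : ℝ) ≤ (M * q) * (M * Y ^ 2) := by
      calc (1 : ℝ) ≤ q * (M * Y) := h1
        _ ≤ q * (M * Y) * (M * Y) := le_mul_of_one_le_right (by positivity) hMY
        _ = _ := by ring
    calc CF = CF * 1 := (mul_one _).symm
      _ ≤ CF * ((M * q) * (M * Y ^ 2)) := by gcongr
      _ = _ := by ring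
  have hMd : M * M ^ (d - 1) = M ^ d := by
    rw [← pow_succ']
    congr 1
    omega
  have hMd1 : M ≤ M ^ d := by
    calc M = M ^ 1 := (pow_one _).symm
      _ ≤ _ := pow_le_pow_right₀ hM hd
  have hii : M * q * (Y + M ^ (d - 1)) ≤ (2 + CF) * (M ^ d * q + p) := by
    have h1 : M * q * Y ≤ M * q + CF * p := by
      calc M * q * Y ≤ M * q * (1 + CF * t' / M) := by gcongr
        _ = M * q + CF * (t' * q) := by field_simp
        _ = _ := by rw [htq]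
    have h2 : M * q * M ^ (d - 1) = M ^ d * q := by rw [← hMd]; ring
    have h3 : M * q ≤ M ^ d * q := by gcongr
    have h4 : 0 ≤ M ^ d * q := by positivity
    nlinarith [mul_nonneg (by linarith : (0 : ℝ) ≤ CF) h4]
  have hiii : (Y * M) ^ ε ≤ (1 + CF * c₁) * t ^ ε := by
    have h1 : Y * M ≤ (1 + CF * c₁) * t := by
      have h2 : t' ≤ t * c₁ := by
        rw [ht', div_le_iff₀ hM0]
        nlinarith
      have h3 : Y * M ≤ M + CF * t' := by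
        calc Y * M ≤ (1 + CF * t' / M) * M := by gcongr
          _ = _ := by field_simp
      nlinarith
    have h4 : 1 ≤ 1 + CF * c₁ := by
      have : 0 ≤ CF * c₁ := by positivity
      linarith
    calc (Y * M) ^ ε ≤ ((1 + CF * c₁) * t) ^ ε := Real.rpow_le_rpow (by positivity) h1 hε.le
      _ = (1 + CF * c₁) ^ ε * t ^ ε := Real.mul_rpow (by positivity) ht0.le
      _ ≤ (1 + CF * c₁) ^ (1 : ℝ) * t ^ ε := by
          apply mul_le_mul_of_nonneg_right _ (by positivity)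
          exact Real.rpow_le_rpow_of_exponent_le h4 (by linarith)
      _ = _ := by rw [Real.rpow_one]
  have hCF0 : 0 < CF := by linarith
  calc (CF * M * q + 12 * (CF / M) / Y ^ 2) * (C₁ * (Y * M) ^ ε * (Y + M ^ (d - 1)))
      = (CF * M * q + 12 * (CF / M / Y ^ 2)) * (C₁ * (Y * M) ^ ε * (Y + M ^ (d - 1))) := by ring
    _ ≤ (CF * M * q + 12 * (CF * M * q)) *
        (C₁ * ((1 + CF * c₁) * t ^ ε) * (Y + M ^ (d - 1))) := by gcongr
    _ = 13 * CF * C₁ * (1 + CF * c₁) * t ^ ε * (M * q * (Y + M ^ (d - 1))) := by ring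
    _ ≤ 13 * CF * C₁ * (1 + CF * c₁) * t ^ ε * ((2 + CF) * (M ^ d * q + p)) := by gcongr
    _ = _ := by ring

/-- the sum over the intersection of a box with a shifted box -/
lemma U_bound (hBOX : S_BOX) {r d : ℕ} {τ : Fin d → Fin r} (hτ : Function.Injective τ) (hd : 1 ≤ d)
    {v : Fin d → ℝ} {w : Fin r → ℝ} (hwτ : ∀ i, w (τ i) = v i) {a C₁ ε c₁ c₂ CF H₀ : ℝ}
    (hAE : ∀ X N : ℝ, 1 ≤ X → 1 ≤ N →
      ∫⁻ ξ in Set.Icc (-X) X, ENNReal.ofReal (∏ j, DN N (v j * ξ)) ≤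
        ENNReal.ofReal (C₁ * (X * N) ^ ε * (X + N ^ (d - 1))))
    (hC₁ : 0 ≤ C₁) (hε : 0 < ε) (hε2 : ε ≤ 1 / 2) (hc₁ : 0 < c₁) (hCF : 1 ≤ CF)
    (hFT : ∀ (N b : ℝ) (s : ℂ), 1 ≤ N →
      b ≠ 0 → |b| ≤ c₁ * N / 2 → |s.re| ≤ H₀ → 1 ≤ s.im → ∃ g : ℝ → ℂ, Integrable g ∧ Continuous g ∧
      (∀ x, c₁ * N ≤ x → x ≤ c₂ * N →
        (((x + b) / N : ℝ) : ℂ) ^ (-s) * ((x / N : ℝ) : ℂ) ^ (-(starRingEnd ℂ) s) =
          ∫ ξ, g ξ * ex (x * ξ)) ∧
      (∀ ξ, ‖g ξ‖ ≤ CF * N * (s.im * |b| / N) ^ (-(1 / 2) : ℝ)) ∧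
      (∀ ξ, CF * (s.im * |b| / N) ≤ N * |ξ| → 1 ≤ N * |ξ| → ‖g ξ‖ ≤ CF / (N * ξ ^ 2)))
    {A : Fin r → ℤ} {M : ℕ} {h : Fin d → ℤ} {s : ℂ} (hM : 1 ≤ M) (hs : |s.re| ≤ H₀)
    (ht : 1 ≤ s.im) (hMt : (M : ℝ) ≤ s.im)
    (hlam : ∀ m ∈ box A M, c₁ * M ≤ lz a w m ∧ lz a w m ≤ c₂ * M)
    (hb0 : ∑ i, (h i : ℝ) * v i ≠ 0) (hb : |∑ i, (h i : ℝ) * v i| ≤ c₁ * M / 2) :
    ‖∑ m ∈ (box A M).filter (fun m => m + ext τ h ∈ box A M),
      fz s a w M (m + ext τ h) * (starRingEnd ℂ) (fz s a w M m)‖ ≤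
    (M : ℝ) ^ (r - d) * (13 * CF * C₁ * (1 + CF * c₁) * (2 + CF) * s.im ^ ε *
      ((M : ℝ) ^ d * (s.im * |∑ i, (h i : ℝ) * v i| / M) ^ (-(1 / 2) : ℝ) +
        (s.im * |∑ i, (h i : ℝ) * v i| / M) ^ (1 / 2 : ℝ))) := by
  set b : ℝ := ∑ i, (h i : ℝ) * v i with hbdef
  have hM1 : (1 : ℝ) ≤ M := by exact_mod_cast hM
  have hM0 : (0 : ℝ) < M := by linarith
  have hbpos : 0 < |b| := abs_pos.2 hb0
  obtain ⟨g, hgi, hgc, hg, hg1, hg2⟩ := hFT M b s hM1 hb0 hb hs ht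
  have hsum : ∑ m ∈ (box A M).filter (fun m => m + ext τ h ∈ box A M),
      fz s a w M (m + ext τ h) * (starRingEnd ℂ) (fz s a w M m) =
      ∑ m ∈ (box A M).filter (fun m => m + ext τ h ∈ box A M),
        ∫ ξ, g ξ * ex ((a + ∑ j, (m j : ℝ) * w j) * ξ) := by
    refine Finset.sum_congr rfl fun m hm => ?_
    rw [Finset.mem_filter] at hm
    obtain ⟨h1, h2⟩ := hlam m hm.1
    have h3 : 0 ≤ lz a w m / M := by
      have : 0 ≤ lz a w m := le_trans (by positivity) h1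
      positivity
    rw [fz_conj h3]
    have h4 := hg (lz a w m) h1 h2
    unfold fz
    rw [lz_add hwτ]
    exact h4
  rw [hsum]
  refine (hBOX r d τ hτ A M h a w g hM hgi hgc).trans ?_
  apply mul_le_mul_of_nonneg_left _ (by positivity)
  set t := s.im with htdef
  set Y : ℝ := max 1 (CF * (t * |b| / M) / M) with hY
  have hY1 : 1 ≤ Y := le_max_left _ _
  have hint := U_int (g := g) (K₁ := CF * M * (t * |b| / M) ^ (-(1 / 2) : ℝ)) (K₂ := CF / M)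
    hAE hC₁ hε hε2 hM1 hY1 (by positivity) (by positivity) hg1 (by
      intro ξ hξ
      have h1 : 1 ≤ |ξ| := hY1.trans hξ
      have h2 := hg2 ξ (by
        have h3 : CF * (t * |b| / M) / M ≤ |ξ| := (le_max_right _ _).trans hξ
        rw [div_le_iff₀ hM0] at h3
        linarith) (one_le_mul_of_one_le_of_one_le hM1 h1)
      rwa [← div_div] at h2)
  have hnum := num_bound (b := |b|) (t := t) hd hC₁ hε hε2 hM1 hMt hCF hc₁ hbpos hb hY
  have hle : ∫⁻ ξ, ENNReal.ofReal ‖‖g ξ‖ * ∏ i, DN M (w (τ i) * ξ)‖ ≤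
      ENNReal.ofReal (13 * CF * C₁ * (1 + CF * c₁) * (2 + CF) * t ^ ε *
      ((M : ℝ) ^ d * (t * |b| / M) ^ (-(1 / 2) : ℝ) + (t * |b| / M) ^ (1 / 2 : ℝ))) := by
    refine le_trans (le_of_eq ?_) (hint.trans (ENNReal.ofReal_le_ofReal hnum))
    apply lintegral_congr
    intro ξ
    congr 1
    simp only [hwτ]
    rw [Real.norm_of_nonneg]
    exact mul_nonneg (norm_nonneg _) (Finset.prod_nonneg fun j _ => DN_nonneg hM0)
  have ht0 : 0 < t := by linarith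
  calc ∫ ξ, ‖g ξ‖ * ∏ i, DN M (w (τ i) * ξ) ≤ ‖∫ ξ, ‖g ξ‖ * ∏ i, DN M (w (τ i) * ξ)‖ :=
        Real.le_norm_self _
    _ ≤ ENNReal.toReal (∫⁻ ξ, ENNReal.ofReal ‖‖g ξ‖ * ∏ i, DN M (w (τ i) * ξ)‖) :=
        norm_integral_le_lintegral_norm _
    _ ≤ _ := ENNReal.toReal_le_of_le_ofReal (by positivity) hle

end Pool.Agent.Helper73.SC
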