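import Pool.Agent.Helper73.SC.A2

set_option autoImplicit false

/-!
# Subconvexity for Barnes zeta functions: the sum over a box
-/

namespace Pool.Agent.Helper73.SC

open MeasureTheory Metric Finset

lemma card_box {r : ℕ} (A : Fin r → ℤ) (M : ℕ) : (box A M).card = M ^ r := by
  unfold box
  rw [Fintype.card_piFinset]
  simp

/-- the trivial bound for a term -/
lemma fz_le {r : ℕ} {s : ℂ} {a c₁ c₂ H₀ : ℝ} {w : Fin r → ℝ} {M : ℕ} {m : Fin r → ℤ} (hM : 1 ≤ M)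
    (hc₁ : 0 < c₁) (hs : |s.re| ≤ H₀) (h1 : c₁ * M ≤ lz a w m) (h2 : lz a w m ≤ c₂ * M) :
    ‖fz s a w M m‖ ≤ (max 1 c₂) ^ H₀ * (max 1 c₁⁻¹) ^ H₀ := by
  have hM0 : (0 : ℝ) < M := by exact_mod_cast hM
  have h3 : c₁ ≤ lz a w m / M := by rwa [le_div_iff₀ hM0]
  have h4 : lz a w m / M ≤ c₂ := by rwa [div_le_iff₀ hM0]
  unfold fz
  rw [Complex.norm_cpow_eq_rpow_re_of_pos (by linarith), Complex.neg_re]
  exact BL.rpow_le_of_mem hc₁ h3 h4 hs

/-- the sum over a box -/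
lemma box_bound (hBOX : S_BOX) (hW : S_WEYL) {r d : ℕ} {τ : Fin d → Fin r}
    (hτ : Function.Injective τ) (hd : 1 ≤ d)
    {v : Fin d → ℝ} {w : Fin r → ℝ} (hwτ : ∀ i, w (τ i) = v i) (hv : ∀ i, 0 < v i)
    {a C₁ C₄ ε c₁ c₂ CF H₀ : ℝ}
    (hAE : ∀ X N : ℝ, 1 ≤ X → 1 ≤ N →
      ∫⁻ ξ in Set.Icc (-X) X, ENNReal.ofReal (∏ j, DN N (v j * ξ)) ≤
        ENNReal.ofReal (C₁ * (X * N) ^ ε * (X + N ^ (d - 1))))
    (hC₁ : 0 ≤ C₁) (hε : 0 < ε) (hε2 : ε ≤ 1 / 2) (hc₁ : 0 < c₁) (hCF : 1 ≤ CF)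
    (hFT : ∀ (N b : ℝ) (s : ℂ), 1 ≤ N →
      b ≠ 0 → |b| ≤ c₁ * N / 2 → |s.re| ≤ H₀ → 1 ≤ s.im → ∃ g : ℝ → ℂ, Integrable g ∧ Continuous g ∧
      (∀ x, c₁ * N ≤ x → x ≤ c₂ * N →
        (((x + b) / N : ℝ) : ℂ) ^ (-s) * ((x / N : ℝ) : ℂ) ^ (-(starRingEnd ℂ) s) =
          ∫ ξ, g ξ * ex (x * ξ)) ∧
      (∀ ξ, ‖g ξ‖ ≤ CF * N * (s.im * |b| / N) ^ (-(1 / 2) : ℝ)) ∧
      (∀ ξ, CF * (s.im * |b| / N) ≤ N * |ξ| → 1 ≤ N * |ξ| → ‖g ξ‖ ≤ CF / (N * ξ ^ 2)))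
    (hnz : ∀ h : Fin d → ℤ, h ≠ 0 → ∑ j, (h j : ℝ) * v j ≠ 0) (hC₄ : 0 ≤ C₄)
    (hAE2 : ∀ H : ℕ, 1 ≤ H → ∑ h ∈ Fintype.piFinset (fun _ : Fin d => Finset.Ioo (-(H : ℤ)) H),
        |∑ j, (h j : ℝ) * v j| ^ (-(1 / 2) : ℝ) ≤ C₄ * (H : ℝ) ^ ((d : ℝ) - 1 / 2 + ε)) :
    ∃ C : ℝ, 0 ≤ C ∧ ∀ (A : Fin r → ℤ) (M : ℕ) (s : ℂ), 1 ≤ M → |s.re| ≤ H₀ → 1 ≤ s.im →
      (M : ℝ) ≤ s.im ^ (2 / (2 * (d : ℝ) + 1)) →
      (∀ m ∈ box A M, c₁ * M ≤ lz a w m ∧ lz a w m ≤ c₂ * M) →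
      ‖∑ m ∈ box A M, fz s a w M m‖ ≤
        C * (M : ℝ) ^ ((r : ℝ) - d / 2) * s.im ^ ((d : ℝ) / (2 * (2 * d + 1)) + ε) := by
  classical
  have hdr : d ≤ r := by simpa using Fintype.card_le_of_injective τ hτ
  have hd0 : (0 : ℝ) < d := by exact_mod_cast hd
  have hd21 : (0 : ℝ) < 2 * (d : ℝ) + 1 := by positivity
  set B : ℝ := (max 1 c₂) ^ H₀ * (max 1 c₁⁻¹) ^ H₀ with hB
  have hB0 : 0 ≤ B := by positivity
  set c₃ : ℝ := ∑ i, v i with hc₃
  have hc₃0 : 0 ≤ c₃ := Finset.sum_nonneg fun i _ => (hv i).le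
  set K : ℝ := max 1 (2 * c₃ / c₁) with hK
  have hK1 : 1 ≤ K := le_max_left _ _
  have hK0 : 0 < K := by linarith
  have hK2 : 2 * c₃ ≤ K * c₁ := by
    have : 2 * c₃ / c₁ ≤ K := le_max_right _ _
    rwa [div_le_iff₀ hc₁] at this
  set C₆ : ℝ := 13 * CF * C₁ * (1 + CF * c₁) * (2 + CF) with hC₆
  have hCF0 : 0 < CF := by linarith
  have hC₆0 : 0 ≤ C₆ := by positivity
  set R : ℝ := 2 ^ d * ((2 * K) ^ d * B ^ 2 + C₆ * (C₄ * (2 * K) ^ (1 / 2 : ℝ) +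
    2 ^ d * c₃ ^ (1 / 2 : ℝ))) with hR
  have hR0 : 0 ≤ R := by positivity
  refine ⟨K ^ ((d : ℝ) / 2) * B + (R + 1), by positivity, ?_⟩
  intro A M s hM hs ht hMt hlam
  have hM1 : (1 : ℝ) ≤ M := by exact_mod_cast hM
  have hM0 : (0 : ℝ) < M := by linarith
  set t := s.im with htdef
  have ht0 : 0 < t := by linarith
  set T : ℝ := t ^ ((d : ℝ) / (2 * d + 1)) with hT
  have hT1 : 1 ≤ T := Real.one_le_rpow ht (by positivity)
  have hT0 : 0 < T := by linarith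
  set x : ℝ := t ^ (1 / (2 * (d : ℝ) + 1)) with hx
  have hx1 : 1 ≤ x := Real.one_le_rpow ht (by positivity)
  have hx0 : 0 < x := by linarith
  have hxd : x ^ d = T := by
    rw [hx, hT, ← Real.rpow_natCast, ← Real.rpow_mul ht0.le]
    congr 1
    field_simp
  have htx : t = x * T ^ 2 := by
    rw [hx, hT, ← Real.rpow_natCast (t ^ ((d : ℝ) / (2 * d + 1))), ← Real.rpow_mul ht0.le,
      ← Real.rpow_add ht0]
    have : 1 / (2 * (d : ℝ) + 1) + (d : ℝ) / (2 * d + 1) * ((2 : ℕ) : ℝ) = 1 := by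
      push_cast
      field_simp
      ring
    rw [this, Real.rpow_one]
  have hMd : (M : ℝ) ^ d ≤ T ^ 2 := by
    calc (M : ℝ) ^ d ≤ (t ^ (2 / (2 * (d : ℝ) + 1))) ^ d := pow_le_pow_left₀ hM0.le hMt _
      _ = T ^ 2 := by
        rw [hT, ← Real.rpow_natCast, ← Real.rpow_mul ht0.le, ← Real.rpow_natCast (t ^ _),
          ← Real.rpow_mul ht0.le]
        congr 1
        push_cast
        field_simp
  have hMt' : (M : ℝ) ≤ t := by
    refine hMt.trans ?_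
    calc t ^ (2 / (2 * (d : ℝ) + 1)) ≤ t ^ (1 : ℝ) := by
          apply Real.rpow_le_rpow_of_exponent_le ht
          rw [div_le_one hd21]
          have : (1 : ℝ) ≤ d := by exact_mod_cast hd
          linarith
      _ = t := Real.rpow_one t
  have hTβ : T ^ (1 / 2 : ℝ) = t ^ ((d : ℝ) / (2 * (2 * d + 1))) := by
    rw [hT, ← Real.rpow_mul ht0.le]
    congr 1
    field_simp
  have htε1 : 1 ≤ t ^ ε := Real.one_le_rpow ht hε.le
  have htε0 : 0 < t ^ ε := by linarith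
  rw [Real.rpow_add ht0, ← hTβ]
  have hTh0 : 0 < T ^ (1 / 2 : ℝ) := by positivity
  have hMr : (M : ℝ) ^ r = (M : ℝ) ^ ((r : ℝ) - d / 2) * (M : ℝ) ^ ((d : ℝ) / 2) := by
    rw [← Real.rpow_add hM0, ← Real.rpow_natCast]
    congr 1
    ring
  by_cases hcase : (M : ℝ) < K * x
  · -- few terms
    have h1 : ‖∑ m ∈ box A M, fz s a w M m‖ ≤ (M : ℝ) ^ r * B := by
      calc _ ≤ ∑ m ∈ box A M, ‖fz s a w M m‖ := norm_sum_le _ _
        _ ≤ ∑ m ∈ box A M, B := Finset.sum_le_sum fun m hm =>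
            fz_le hM hc₁ hs (hlam m hm).1 (hlam m hm).2
        _ = _ := by
            rw [Finset.sum_const, card_box, nsmul_eq_mul]
            push_cast
            ring
    have h2 : (M : ℝ) ^ ((d : ℝ) / 2) ≤ K ^ ((d : ℝ) / 2) * T ^ (1 / 2 : ℝ) := by
      calc (M : ℝ) ^ ((d : ℝ) / 2) ≤ (K * x) ^ ((d : ℝ) / 2) :=
            Real.rpow_le_rpow hM0.le hcase.le (by positivity)
        _ = K ^ ((d : ℝ) / 2) * x ^ ((d : ℝ) / 2) := Real.mul_rpow hK0.le hx0.le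
        _ = _ := by
            rw [← hxd, ← Real.rpow_natCast x d, ← Real.rpow_mul hx0.le]
            congr 2
            ring
    calc ‖∑ m ∈ box A M, fz s a w M m‖ ≤ (M : ℝ) ^ r * B := h1
      _ = (M : ℝ) ^ ((r : ℝ) - d / 2) * (M : ℝ) ^ ((d : ℝ) / 2) * B := by rw [hMr]
      _ ≤ (M : ℝ) ^ ((r : ℝ) - d / 2) * (K ^ ((d : ℝ) / 2) * T ^ (1 / 2 : ℝ)) * B := by gcongr
      _ = K ^ ((d : ℝ) / 2) * B * (M : ℝ) ^ ((r : ℝ) - d / 2) * (T ^ (1 / 2 : ℝ) * 1) := by ring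
      _ ≤ (K ^ ((d : ℝ) / 2) * B + (R + 1)) * (M : ℝ) ^ ((r : ℝ) - d / 2) *
          (T ^ (1 / 2 : ℝ) * t ^ ε) := by
          have : K ^ ((d : ℝ) / 2) * B ≤ K ^ ((d : ℝ) / 2) * B + (R + 1) := by linarith
          gcongr
  · have hcase' : K * x ≤ M := le_of_not_gt hcase
    set H : ℕ := ⌊(M : ℝ) / (K * x)⌋₊ with hH
    have hq1 : 1 ≤ (M : ℝ) / (K * x) := by
      rw [le_div_iff₀ (by positivity)]
      linarith
    have hH1 : 1 ≤ H := by
      rw [hH]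
      exact Nat.le_floor (by simpa using hq1)
    have hH1r : (1 : ℝ) ≤ H := by exact_mod_cast hH1
    have hH0 : (0 : ℝ) < H := by linarith
    have hHle : (H : ℝ) ≤ (M : ℝ) / (K * x) := Nat.floor_le (by positivity)
    have hHlt : (M : ℝ) / (K * x) < H + 1 := Nat.lt_floor_add_one _
    have hHM : (H : ℝ) * (K * x) ≤ M := by rwa [le_div_iff₀ (by positivity)] at hHle
    have hMH : (M : ℝ) ≤ 2 * K * x * H := by
      rw [div_lt_iff₀ (by positivity)] at hHlt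
      have h1 : (0 : ℝ) < K * x := by positivity
      nlinarith
    have hKx1 : 1 ≤ K * x := one_le_mul_of_one_le_of_one_le hK1 hx1
    have hHM' : (H : ℝ) ≤ M := by nlinarith
    have hHMn : H ≤ M := by exact_mod_cast hHM'
    have hw := hW r d τ hτ A M H (fz s a w M) hH1 hHMn
    set P := Fintype.piFinset (fun _ : Fin d => Finset.Ioo (-(H : ℤ)) H) with hP
    have h0P : (0 : Fin d → ℤ) ∈ P := by
      rw [hP, Fintype.mem_piFinset]
      intro i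
      rw [Finset.mem_Ioo, Pi.zero_apply]
      constructor <;> omega
    have hbh : ∀ h ∈ P, |∑ i, (h i : ℝ) * v i| ≤ c₃ * H := by
      intro h hh
      rw [hP, Fintype.mem_piFinset] at hh
      calc |∑ i, (h i : ℝ) * v i| ≤ ∑ i, |(h i : ℝ) * v i| := Finset.abs_sum_le_sum_abs _ _
        _ ≤ ∑ i, (H : ℝ) * v i := by
            refine Finset.sum_le_sum fun i _ => ?_
            rw [abs_mul, abs_of_pos (hv i)]
            apply mul_le_mul_of_nonneg_right _ (hv i).le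
            have h1 := hh i
            rw [Finset.mem_Ioo] at h1
            rw [abs_le]
            constructor
            · have : -(H : ℤ) ≤ h i := h1.1.le
              exact_mod_cast this
            · have : h i ≤ (H : ℤ) := h1.2.le
              exact_mod_cast this
        _ = c₃ * H := by rw [← Finset.mul_sum, hc₃, mul_comm]
    have hbh2 : ∀ h ∈ P, |∑ i, (h i : ℝ) * v i| ≤ c₁ * M / 2 := by
      intro h hh
      refine (hbh h hh).trans ?_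
      have h1 : 2 * c₃ * H ≤ K * c₁ * H := by gcongr
      have h2 : K * c₁ * H ≤ c₁ * M := by
        have : (H : ℝ) * K ≤ M := by
          refine le_trans ?_ hHM
          have : K ≤ K * x := le_mul_of_one_le_right hK0.le hx1
          gcongr
        nlinarith
      linarith
    -- the terms
    have h0 : ‖∑ m ∈ (box A M).filter (fun m => m + ext τ 0 ∈ box A M),
        fz s a w M (m + ext τ 0) * (starRingEnd ℂ) (fz s a w M m)‖ ≤ (M : ℝ) ^ r * B ^ 2 := by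
      calc _ ≤ ∑ m ∈ (box A M).filter (fun m => m + ext τ 0 ∈ box A M),
            ‖fz s a w M (m + ext τ 0) * (starRingEnd ℂ) (fz s a w M m)‖ := norm_sum_le _ _
        _ ≤ ∑ m ∈ (box A M).filter (fun m => m + ext τ 0 ∈ box A M), B ^ 2 := by
            refine Finset.sum_le_sum fun m hm => ?_
            rw [Finset.mem_filter] at hm
            rw [norm_mul, RCLike.norm_conj, sq]
            exact mul_le_mul (fz_le hM hc₁ hs (hlam _ hm.2).1 (hlam _ hm.2).2)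
              (fz_le hM hc₁ hs (hlam _ hm.1).1 (hlam _ hm.1).2) (norm_nonneg _) hB0
        _ ≤ ∑ m ∈ box A M, B ^ 2 := Finset.sum_le_sum_of_subset_of_nonneg
            (Finset.filter_subset _ _) (fun _ _ _ => by positivity)
        _ = _ := by
            rw [Finset.sum_const, card_box, nsmul_eq_mul]
            push_cast
            ring
    have hne : ∀ h ∈ P.erase 0, ‖∑ m ∈ (box A M).filter (fun m => m + ext τ h ∈ box A M),
        fz s a w M (m + ext τ h) * (starRingEnd ℂ) (fz s a w M m)‖ ≤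
        (M : ℝ) ^ (r - d) * (C₆ * t ^ ε * ((M : ℝ) ^ d * ((t / M) ^ (-(1 / 2) : ℝ) *
          |∑ i, (h i : ℝ) * v i| ^ (-(1 / 2) : ℝ)) + (t / M * (c₃ * H)) ^ (1 / 2 : ℝ))) := by
      intro h hh
      rw [Finset.mem_erase] at hh
      have hb0 := hnz h hh.1
      have h1 := U_bound hBOX hτ hd hwτ hAE hC₁ hε hε2 hc₁ hCF hFT hM hs ht hMt' hlam hb0
        (hbh2 h hh.2)
      refine h1.trans ?_
      have e1 : (t * |∑ i, (h i : ℝ) * v i| / M) ^ (-(1 / 2) : ℝ) =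
          (t / M) ^ (-(1 / 2) : ℝ) * |∑ i, (h i : ℝ) * v i| ^ (-(1 / 2) : ℝ) := by
        rw [← Real.mul_rpow (by positivity) (abs_nonneg _)]
        congr 1
        ring
      have e2 : (t * |∑ i, (h i : ℝ) * v i| / M) ^ (1 / 2 : ℝ) ≤
          (t / M * (c₃ * H)) ^ (1 / 2 : ℝ) := by
        apply Real.rpow_le_rpow (by positivity) _ (by norm_num)
        have := hbh h hh.2
        calc t * |∑ i, (h i : ℝ) * v i| / M = t / M * |∑ i, (h i : ℝ) * v i| := by ring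
          _ ≤ _ := by gcongr
      rw [← hC₆, e1]
      gcongr
    have hsum : ∑ h ∈ P, ‖∑ m ∈ (box A M).filter (fun m => m + ext τ h ∈ box A M),
        fz s a w M (m + ext τ h) * (starRingEnd ℂ) (fz s a w M m)‖ ≤
        (M : ℝ) ^ r * B ^ 2 + (M : ℝ) ^ (r - d) * (C₆ * t ^ ε * ((M : ℝ) ^ d *
          ((t / M) ^ (-(1 / 2) : ℝ) * (C₄ * (H : ℝ) ^ ((d : ℝ) - 1 / 2 + ε))) +
          (2 * (H : ℝ)) ^ d * (t / M * (c₃ * H)) ^ (1 / 2 : ℝ))) := by
      rw [← Finset.add_sum_erase _ _ h0P]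
      apply add_le_add h0
      refine (Finset.sum_le_sum hne).trans ?_
      rw [← Finset.mul_sum, ← Finset.mul_sum, Finset.sum_add_distrib, ← Finset.mul_sum,
        ← Finset.mul_sum, Finset.sum_const, nsmul_eq_mul]
      have hcardP : ((P.erase 0).card : ℝ) ≤ (2 * (H : ℝ)) ^ d := by
        have h1 : (P.erase 0).card ≤ (2 * H) ^ d := by
          refine (Finset.card_le_card (Finset.erase_subset _ _)).trans ?_
          rw [hP, Fintype.card_piFinset]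
          simp only [Int.card_Ioo, Finset.prod_const, Finset.card_univ, Fintype.card_fin]
          apply Nat.pow_le_pow_left
          omega
        exact_mod_cast h1
      have hs2 : ∑ h ∈ P.erase 0, |∑ i, (h i : ℝ) * v i| ^ (-(1 / 2) : ℝ) ≤
          C₄ * (H : ℝ) ^ ((d : ℝ) - 1 / 2 + ε) := by
        refine le_trans ?_ (hAE2 H hH1)
        apply Finset.sum_le_sum_of_subset_of_nonneg (Finset.erase_subset _ _)
        intro _ _ _
        positivity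
      gcongr
    -- the size
    have hr2 : (M : ℝ) ^ r = (M : ℝ) ^ (r - d) * (M : ℝ) ^ d := by
      rw [← pow_add]
      congr 1
      omega
    have hHd : 0 < (H : ℝ) ^ d := by positivity
    have ea : (M : ℝ) ^ d * B ^ 2 / (H : ℝ) ^ d ≤ (2 * K) ^ d * B ^ 2 * (T * t ^ ε) := by
      have h1 : (M : ℝ) ^ d / (H : ℝ) ^ d ≤ (2 * K) ^ d * T := by
        rw [div_le_iff₀ hHd]
        calc (M : ℝ) ^ d ≤ (2 * K * x * H) ^ d := pow_le_pow_left₀ hM0.le hMH _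
          _ = (2 * K) ^ d * T * (H : ℝ) ^ d := by rw [mul_pow, mul_pow, hxd]
      calc (M : ℝ) ^ d * B ^ 2 / (H : ℝ) ^ d = (M : ℝ) ^ d / (H : ℝ) ^ d * B ^ 2 := by ring
        _ ≤ ((2 * K) ^ d * T) * B ^ 2 := by gcongr
        _ = (2 * K) ^ d * B ^ 2 * (T * 1) := by ring
        _ ≤ _ := by gcongr
    have htH : T ^ 2 / (2 * K) ≤ t / M * H := by
      rw [div_le_iff₀ (by positivity)]
      have h1 : T ^ 2 * M ≤ t * H * (2 * K) := by
        calc T ^ 2 * M ≤ T ^ 2 * (2 * K * x * H) := by gcongr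
          _ = (x * T ^ 2) * H * (2 * K) := by ring
          _ = _ := by rw [← htx]
      calc T ^ 2 = T ^ 2 * M / M := by field_simp
        _ ≤ t * H * (2 * K) / M := by gcongr
        _ = _ := by ring
    have eb : (M : ℝ) ^ d * ((t / M) ^ (-(1 / 2) : ℝ) * (C₄ * (H : ℝ) ^ ((d : ℝ) - 1 / 2 + ε))) /
        (H : ℝ) ^ d ≤ C₄ * (2 * K) ^ (1 / 2 : ℝ) * (T * t ^ ε) := by
      have h1 : (H : ℝ) ^ ((d : ℝ) - 1 / 2 + ε) = (H : ℝ) ^ d * (H : ℝ) ^ (-(1 / 2) : ℝ) *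
          (H : ℝ) ^ ε := by
        rw [← Real.rpow_natCast (H : ℝ) d, ← Real.rpow_add hH0, ← Real.rpow_add hH0]
        congr 1
      have h2 : (t / M) ^ (-(1 / 2) : ℝ) * (H : ℝ) ^ (-(1 / 2) : ℝ) ≤
          (2 * K) ^ (1 / 2 : ℝ) / T := by
        rw [← Real.mul_rpow (by positivity) hH0.le]
        calc (t / M * H) ^ (-(1 / 2) : ℝ) ≤ (T ^ 2 / (2 * K)) ^ (-(1 / 2) : ℝ) :=
              Real.rpow_le_rpow_of_nonpos (by positivity) htH (by norm_num)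
          _ = (2 * K) ^ (1 / 2 : ℝ) / T := by
              rw [Real.rpow_neg (by positivity), Real.div_rpow (by positivity) (by positivity),
                inv_div]
              congr 1
              rw [← Real.rpow_natCast, ← Real.rpow_mul hT0.le]
              norm_num
      have h3 : (H : ℝ) ^ ε ≤ t ^ ε := Real.rpow_le_rpow hH0.le (hHM'.trans hMt') hε.le
      calc _ = (M : ℝ) ^ d * C₄ * ((t / M) ^ (-(1 / 2) : ℝ) * (H : ℝ) ^ (-(1 / 2) : ℝ)) *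
            (H : ℝ) ^ ε := by
            rw [h1]
            field_simp
        _ ≤ T ^ 2 * C₄ * ((2 * K) ^ (1 / 2 : ℝ) / T) * t ^ ε := by gcongr
        _ = _ := by field_simp
    have ec : (2 * (H : ℝ)) ^ d * (t / M * (c₃ * H)) ^ (1 / 2 : ℝ) / (H : ℝ) ^ d ≤
        2 ^ d * c₃ ^ (1 / 2 : ℝ) * (T * t ^ ε) := by
      have h1 : (t / M * (c₃ * H)) ^ (1 / 2 : ℝ) ≤ c₃ ^ (1 / 2 : ℝ) * T := by
        have h2 : t / M * (c₃ * H) ≤ c₃ * T ^ 2 := by
          have h3 : t * H ≤ T ^ 2 * M := by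
            calc t * H = T ^ 2 * (H * x) := by rw [htx]; ring
              _ ≤ T ^ 2 * (H * (K * x)) := by
                  gcongr
                  exact le_mul_of_one_le_left hx0.le hK1
              _ ≤ T ^ 2 * M := by gcongr
          calc t / M * (c₃ * H) = c₃ * (t * H / M) := by ring
            _ ≤ c₃ * (T ^ 2 * M / M) := by gcongr
            _ = _ := by field_simp
        calc (t / M * (c₃ * H)) ^ (1 / 2 : ℝ) ≤ (c₃ * T ^ 2) ^ (1 / 2 : ℝ) :=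
              Real.rpow_le_rpow (by positivity) h2 (by norm_num)
          _ = c₃ ^ (1 / 2 : ℝ) * T := by
              rw [Real.mul_rpow hc₃0 (by positivity), ← Real.rpow_natCast, ← Real.rpow_mul hT0.le]
              norm_num
      calc _ = 2 ^ d * (t / M * (c₃ * H)) ^ (1 / 2 : ℝ) := by
            rw [mul_pow]
            field_simp
        _ ≤ 2 ^ d * (c₃ ^ (1 / 2 : ℝ) * T) := by gcongr
        _ = 2 ^ d * c₃ ^ (1 / 2 : ℝ) * (T * 1) := by ring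
        _ ≤ _ := by gcongr
    have hsq : ‖∑ m ∈ box A M, fz s a w M m‖ ^ 2 ≤
        R * ((M : ℝ) ^ r * (M : ℝ) ^ (r - d)) * (T * t ^ ε * t ^ ε) := by
      refine hw.trans ?_
      calc 2 ^ d * (M : ℝ) ^ r / (H : ℝ) ^ d * ∑ h ∈ P, _ ≤ 2 ^ d * (M : ℝ) ^ r / (H : ℝ) ^ d *
            ((M : ℝ) ^ r * B ^ 2 + (M : ℝ) ^ (r - d) * (C₆ * t ^ ε * ((M : ℝ) ^ d *
            ((t / M) ^ (-(1 / 2) : ℝ) * (C₄ * (H : ℝ) ^ ((d : ℝ) - 1 / 2 + ε))) +
            (2 * (H : ℝ)) ^ d * (t / M * (c₃ * H)) ^ (1 / 2 : ℝ)))) := by gcongr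
        _ = 2 ^ d * ((M : ℝ) ^ r * (M : ℝ) ^ (r - d)) * ((M : ℝ) ^ d * B ^ 2 / (H : ℝ) ^ d +
            C₆ * t ^ ε * ((M : ℝ) ^ d * ((t / M) ^ (-(1 / 2) : ℝ) *
              (C₄ * (H : ℝ) ^ ((d : ℝ) - 1 / 2 + ε))) / (H : ℝ) ^ d +
              (2 * (H : ℝ)) ^ d * (t / M * (c₃ * H)) ^ (1 / 2 : ℝ) / (H : ℝ) ^ d)) := by
            nth_rewrite 2 [hr2]
            ring
        _ ≤ 2 ^ d * ((M : ℝ) ^ r * (M : ℝ) ^ (r - d)) * ((2 * K) ^ d * B ^ 2 * (T * t ^ ε) +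
            C₆ * t ^ ε * (C₄ * (2 * K) ^ (1 / 2 : ℝ) * (T * t ^ ε) +
              2 ^ d * c₃ ^ (1 / 2 : ℝ) * (T * t ^ ε))) := by gcongr
        _ ≤ 2 ^ d * ((M : ℝ) ^ r * (M : ℝ) ^ (r - d)) * ((2 * K) ^ d * B ^ 2 * (T * t ^ ε * t ^ ε) +
            C₆ * t ^ ε * (C₄ * (2 * K) ^ (1 / 2 : ℝ) * (T * t ^ ε) +
              2 ^ d * c₃ ^ (1 / 2 : ℝ) * (T * t ^ ε))) := by
            have : T * t ^ ε ≤ T * t ^ ε * t ^ ε := le_mul_of_one_le_right (by positivity) htε1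
            gcongr
        _ = _ := by
            rw [hR]
            ring
    have hfin : ‖∑ m ∈ box A M, fz s a w M m‖ ≤
        (R + 1) * (M : ℝ) ^ ((r : ℝ) - d / 2) * (T ^ (1 / 2 : ℝ) * t ^ ε) := by
      have h1 : ((R + 1) * (M : ℝ) ^ ((r : ℝ) - d / 2) * (T ^ (1 / 2 : ℝ) * t ^ ε)) ^ 2 =
          (R + 1) ^ 2 * ((M : ℝ) ^ r * (M : ℝ) ^ (r - d)) * (T * t ^ ε * t ^ ε) := by
        have h2 : ((M : ℝ) ^ ((r : ℝ) - d / 2)) ^ 2 = (M : ℝ) ^ r * (M : ℝ) ^ (r - d) := by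
          rw [← Real.rpow_natCast, ← Real.rpow_mul hM0.le, ← Real.rpow_natCast (M : ℝ) r,
            ← Real.rpow_natCast (M : ℝ) (r - d), ← Real.rpow_add hM0, Nat.cast_sub hdr]
          congr 1
          push_cast
          ring
        have h3 : (T ^ (1 / 2 : ℝ)) ^ 2 = T := by
          rw [← Real.rpow_natCast, ← Real.rpow_mul hT0.le]
          norm_num
        rw [mul_pow, mul_pow, mul_pow, h2, h3]
        ring
      have h4 : R ≤ (R + 1) ^ 2 := by nlinarith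
      have h5 : ‖∑ m ∈ box A M, fz s a w M m‖ ^ 2 ≤
          ((R + 1) * (M : ℝ) ^ ((r : ℝ) - d / 2) * (T ^ (1 / 2 : ℝ) * t ^ ε)) ^ 2 := by
        rw [h1]
        refine hsq.trans ?_
        gcongr
      exact (pow_le_pow_iff_left₀ (norm_nonneg _) (by positivity) (by norm_num)).1 h5
    refine hfin.trans ?_
    have : R + 1 ≤ K ^ ((d : ℝ) / 2) * B + (R + 1) := by
      have : 0 ≤ K ^ ((d : ℝ) / 2) * B := by positivity
      linarith
    gcongr

end Pool.Agent.Helper73.SC
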