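import Pool.Agent.Helper73.SC.A3

set_option autoImplicit false

/-!
# Subconvexity for Barnes zeta functions: the box sums for almost every vector
-/

namespace Pool.Agent.Helper73.SC

open MeasureTheory Metric Finset

lemma boxSum_int {r : ℕ} {a : ℝ} {w : Fin r → ℝ} (i : ℕ) (s : ℂ) :
    BL.boxSum r a w i s = ∑ m ∈ box (0 : Fin r → ℤ) (2 ^ i), ((lz a w m : ℝ) : ℂ) ^ (-s) := by
  unfold BL.boxSum box lz
  refine Finset.sum_bij' (fun m _ j => (m j : ℤ)) (fun m _ j => (m j).toNat) ?_ ?_ ?_ ?_ ?_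
  · intro m hm
    rw [Fintype.mem_piFinset] at hm ⊢
    intro j
    have := hm j
    rw [Finset.mem_range] at this
    rw [Finset.mem_Ico, Pi.zero_apply]
    constructor
    · positivity
    · push_cast
      have h2 : ((m j : ℕ) : ℤ) < ((2 ^ i : ℕ) : ℤ) := by exact_mod_cast this
      push_cast at h2
      linarith
  · intro m hm
    rw [Fintype.mem_piFinset] at hm ⊢
    intro j
    have := hm j
    rw [Finset.mem_Ico, Pi.zero_apply] at this
    rw [Finset.mem_range]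
    omega
  · intro m _
    funext j
    simp
  · intro m hm
    rw [Fintype.mem_piFinset] at hm
    funext j
    have := hm j
    rw [Finset.mem_Ico, Pi.zero_apply] at this
    simp only
    omega
  · intro m _
    congr 2

/-- the corners -/
def corners (r : ℕ) : Finset (Fin r → ℤ) := Fintype.piFinset fun _ => ({0, 1} : Finset ℤ)

lemma box_split {r : ℕ} (M : ℕ) (F : (Fin r → ℤ) → ℂ) :
    ∑ m ∈ box (0 : Fin r → ℤ) (2 * M), F m =
      ∑ e ∈ corners r, ∑ m ∈ box (fun j => e j * (M : ℤ)) M, F m := by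
  classical
  let g : (Fin r → ℤ) → (Fin r → ℤ) := fun m j => if m j < M then 0 else 1
  have hmaps : ∀ m ∈ box (0 : Fin r → ℤ) (2 * M), g m ∈ corners r := by
    intro m _
    unfold corners
    rw [Fintype.mem_piFinset]
    intro j
    simp only [g]
    split_ifs <;> simp
  rw [← Finset.sum_fiberwise_of_maps_to hmaps]
  refine Finset.sum_congr rfl fun e he => ?_
  congr 1
  ext m
  unfold corners at he
  rw [Fintype.mem_piFinset] at he
  unfold box
  simp only [Finset.mem_filter, Fintype.mem_piFinset, Finset.mem_Ico, Pi.zero_apply]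
  constructor
  · rintro ⟨h1, h2⟩ j
    have h3 := congrFun h2 j
    simp only [g] at h3
    have h4 := h1 j
    push_cast at h4
    split_ifs at h3 with h5
    · rw [← h3]
      constructor <;> linarith
    · rw [← h3]
      constructor <;> linarith
  · intro h
    refine ⟨fun j => ?_, ?_⟩
    · have h4 := h j
      have h5 := he j
      simp only [Finset.mem_insert, Finset.mem_singleton] at h5
      push_cast
      rcases h5 with h5 | h5 <;> rw [h5] at h4 <;> constructor <;> linarith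
    · funext j
      have h4 := h j
      have h5 := he j
      simp only [Finset.mem_insert, Finset.mem_singleton] at h5
      simp only [g]
      rcases h5 with h5 | h5
      · rw [h5] at h4 ⊢
        rw [if_pos (by linarith)]
      · rw [h5] at h4 ⊢
        rw [if_neg (by linarith)]

lemma card_corners (r : ℕ) : (corners r).card = 2 ^ r := by
  unfold corners
  rw [Fintype.card_piFinset]
  simp

lemma shell_boxes {r : ℕ} {a : ℝ} {w : Fin r → ℝ} (l : ℕ) (s : ℂ) :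
    BL.boxSum r a w (l + 1) s - BL.boxSum r a w l s =
      ∑ e ∈ (corners r).erase 0, ∑ m ∈ box (fun j => e j * ((2 ^ l : ℕ) : ℤ)) (2 ^ l),
        ((lz a w m : ℝ) : ℂ) ^ (-s) := by
  have h0 : (0 : Fin r → ℤ) ∈ corners r := by
    unfold corners
    rw [Fintype.mem_piFinset]
    intro j
    simp
  rw [boxSum_int, boxSum_int, pow_succ, mul_comm, box_split, ← Finset.add_sum_erase _ _ h0]
  have : (fun j => (0 : Fin r → ℤ) j * ((2 ^ l : ℕ) : ℤ)) = (0 : Fin r → ℤ) := by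
    funext j
    simp
  rw [this]
  ring

lemma lz_range {r : ℕ} {a c₁ : ℝ} {w : Fin r → ℝ} (ha : 0 < a) (hc₁ : 0 < c₁) (hw : ∀ j, c₁ ≤ w j)
    {M : ℕ} (hM : 1 ≤ M) {e : Fin r → ℤ} (he : e ∈ (corners r).erase 0) {m : Fin r → ℤ}
    (hm : m ∈ box (fun j => e j * (M : ℤ)) M) :
    c₁ * M ≤ lz a w m ∧ lz a w m ≤ (a + 2 * (∑ j, w j) + 1) * M := by
  have hM1 : (1 : ℝ) ≤ M := by exact_mod_cast hM
  rw [Finset.mem_erase] at he
  obtain ⟨hne, hmem⟩ := he
  unfold corners at hmem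
  rw [Fintype.mem_piFinset] at hmem
  unfold box at hm
  rw [Fintype.mem_piFinset] at hm
  have hb : ∀ j, (e j : ℝ) * M ≤ m j ∧ (m j : ℝ) ≤ 2 * M := by
    intro j
    have h1 := hm j
    rw [Finset.mem_Ico] at h1
    simp only at h1
    have h5 := hmem j
    simp only [Finset.mem_insert, Finset.mem_singleton] at h5
    constructor
    · exact_mod_cast h1.1
    · have h6 : m j ≤ 2 * (M : ℤ) := by
        rcases h5 with h5 | h5 <;> rw [h5] at h1 <;> linarith [h1.2]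
      exact_mod_cast h6
  have he0 : ∀ j, (0 : ℝ) ≤ e j := by
    intro j
    have h5 := hmem j
    simp only [Finset.mem_insert, Finset.mem_singleton] at h5
    rcases h5 with h5 | h5 <;> rw [h5] <;> norm_num
  have hm0 : ∀ j, (0 : ℝ) ≤ m j := fun j => le_trans (mul_nonneg (he0 j) (by linarith)) (hb j).1
  have hw0 : ∀ j, 0 < w j := fun j => hc₁.trans_le (hw j)
  unfold lz
  constructor
  · obtain ⟨j, hj⟩ : ∃ j, e j ≠ 0 := by
      by_contra hcon
      push Not at hcon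
      exact hne (funext hcon)
    have h5 := hmem j
    simp only [Finset.mem_insert, Finset.mem_singleton] at h5
    have hej : e j = 1 := by tauto
    have h6 := (hb j).1
    rw [hej] at h6
    have h7 : (m j : ℝ) * w j ≤ ∑ j, (m j : ℝ) * w j :=
      Finset.single_le_sum (f := fun j => (m j : ℝ) * w j)
        (fun j _ => mul_nonneg (hm0 j) (hw0 j).le) (Finset.mem_univ j)
    have h8 : c₁ * M ≤ (m j : ℝ) * w j := by
      rw [mul_comm]
      push_cast at h6
      apply mul_le_mul (by linarith) (hw j) hc₁.le (hm0 j)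
    linarith
  · have h1 : ∑ j, (m j : ℝ) * w j ≤ ∑ j, (2 * (M : ℝ)) * w j :=
      Finset.sum_le_sum fun j _ => mul_le_mul_of_nonneg_right (hb j).2 (hw0 j).le
    rw [← Finset.mul_sum] at h1
    nlinarith

/-- one shell -/
lemma shell_le {r : ℕ} {a c₁ D : ℝ} {w : Fin r → ℝ} (ha : 0 < a) (hc₁ : 0 < c₁)
    (hw : ∀ j, c₁ ≤ w j) (l : ℕ) {s : ℂ}
    (h : ∀ e ∈ (corners r).erase 0, ‖∑ m ∈ box (fun j => e j * ((2 ^ l : ℕ) : ℤ)) (2 ^ l),
      fz s a w (2 ^ l) m‖ ≤ D) (hD : 0 ≤ D) :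
    ‖BL.boxSum r a w (l + 1) s - BL.boxSum r a w l s‖ ≤
      2 ^ r * (((2 : ℝ) ^ l) ^ (-s.re) * D) := by
  have hM : 1 ≤ 2 ^ l := Nat.one_le_two_pow
  have h2l : (0 : ℝ) < 2 ^ l := by positivity
  rw [shell_boxes]
  have hterm : ∀ e ∈ (corners r).erase 0,
      ‖∑ m ∈ box (fun j => e j * ((2 ^ l : ℕ) : ℤ)) (2 ^ l), ((lz a w m : ℝ) : ℂ) ^ (-s)‖ ≤
        ((2 : ℝ) ^ l) ^ (-s.re) * D := by
    intro e he
    have h1 : ∑ m ∈ box (fun j => e j * ((2 ^ l : ℕ) : ℤ)) (2 ^ l), ((lz a w m : ℝ) : ℂ) ^ (-s) =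
        (((2 : ℝ) ^ l : ℝ) : ℂ) ^ (-s) *
          ∑ m ∈ box (fun j => e j * ((2 ^ l : ℕ) : ℤ)) (2 ^ l), fz s a w (2 ^ l) m := by
      rw [Finset.mul_sum]
      refine Finset.sum_congr rfl fun m hm => ?_
      obtain ⟨h3, -⟩ := lz_range ha hc₁ hw hM he hm
      have h4 : 0 ≤ lz a w m := le_trans (by positivity) h3
      unfold fz
      rw [← Complex.mul_cpow_ofReal_nonneg (by positivity) (by positivity), ← Complex.ofReal_mul]
      congr 2
      push_cast
      field_simp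
    rw [h1, norm_mul, Complex.norm_cpow_eq_rpow_re_of_pos h2l, Complex.neg_re]
    exact mul_le_mul_of_nonneg_left (h e he) (by positivity)
  calc _ ≤ ∑ e ∈ (corners r).erase 0,
        ‖∑ m ∈ box (fun j => e j * ((2 ^ l : ℕ) : ℤ)) (2 ^ l), ((lz a w m : ℝ) : ℂ) ^ (-s)‖ :=
        norm_sum_le _ _
    _ ≤ ∑ e ∈ (corners r).erase 0, ((2 : ℝ) ^ l) ^ (-s.re) * D := Finset.sum_le_sum hterm
    _ ≤ ∑ e ∈ corners r, ((2 : ℝ) ^ l) ^ (-s.re) * D := by
        apply Finset.sum_le_sum_of_subset_of_nonneg (Finset.erase_subset _ _)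
        intro _ _ _
        positivity
    _ = _ := by
        rw [Finset.sum_const, card_corners, nsmul_eq_mul]
        push_cast
        ring

theorem s_sc (hAE : S_AE) (hAE2 : S_AE2) (hFT : S_FT) (hW : S_WEYL) (hBOX : S_BOX) : S_SC := by
  intro d hd
  filter_upwards [hAE d hd, hAE2 d hd] with v h1 h2
  intro hv r τ w a hτ ha hw hwτ η hη
  have hdr : d ≤ r := by simpa using Fintype.card_le_of_injective τ hτ
  have hd0 : (0 : ℝ) < d := by exact_mod_cast hd
  have hd1 : (1 : ℝ) ≤ d := by exact_mod_cast hd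
  have : Nonempty (Fin r) := ⟨⟨0, by omega⟩⟩
  set β : ℝ := (d : ℝ) / (2 * (2 * d + 1)) with hβ
  have hβ0 : 0 < β := by positivity
  set ε : ℝ := min (1 / 2) ((η - β) / 2) with hε
  have hε0 : 0 < ε := lt_min (by norm_num) (by linarith)
  have hε2 : ε ≤ 1 / 2 := min_le_left _ _
  have hεη : β + ε < η := by
    have : ε ≤ (η - β) / 2 := min_le_right _ _
    linarith
  obtain ⟨C₁, hC₁, h1'⟩ := h1 hv ε hε0
  obtain ⟨C₄, hC₄, h2'⟩ := h2.2 ε hε0
  obtain ⟨i₀, hi₀⟩ := Finite.exists_min w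
  set c₁ : ℝ := w i₀ with hc₁def
  have hc₁ : 0 < c₁ := hw i₀
  set c₂ : ℝ := a + 2 * (∑ j, w j) + 1 with hc₂def
  have hc₁₂ : c₁ < c₂ := by
    have h3 : w i₀ ≤ ∑ j, w j := Finset.single_le_sum (fun j _ => (hw j).le) (Finset.mem_univ i₀)
    have h4 := hw i₀
    rw [hc₂def]
    linarith
  obtain ⟨CF, hCF, hFT'⟩ := hFT c₁ c₂ (r + 1) hc₁ hc₁₂ (by positivity)
  obtain ⟨C, hC, hbox⟩ := box_bound hBOX hW hτ hd hwτ hv h1' hC₁ hε0 hε2 hc₁ hCF hFT' h2.1 hC₄ h2'
  set A₀ : ℝ := max 1 (a ^ (-((r : ℝ) + 1))) with hA₀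
  have hA₀0 : 0 ≤ A₀ := le_trans (by norm_num) (le_max_left _ _)
  set e : ℝ := η - (β + ε) with he
  have he0 : 0 < e := by rw [he]; linarith
  have hlog2 : 0 < Real.log 2 := Real.log_pos (by norm_num)
  set C₈ : ℝ := 1 / (e * Real.log 2) * (2 ^ r * C) with hC₈
  have hC₈0 : 0 ≤ C₈ := by positivity
  refine ⟨A₀ + C₈, by positivity, ?_⟩
  intro i σ t hi hσ0 hσ1 ht1
  set s : ℂ := (σ : ℂ) + t * Complex.I with hs
  have hsre : s.re = σ := by simp [hs]
  have hsim : s.im = t := by simp [hs]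
  have ht0 : 0 < t := by linarith
  have hη0 : 0 < η := by linarith
  have hi1 : (1 : ℝ) ≤ (2 : ℝ) ^ i := one_le_pow₀ (by norm_num)
  set x : ℝ := (r : ℝ) - d / 2 - σ with hx
  have hmx : 1 ≤ ((2 : ℝ) ^ i) ^ (max 0 x) := Real.one_le_rpow hi1 (le_max_left _ _)
  have htη : 1 ≤ t ^ η := Real.one_le_rpow ht1 hη0.le
  have hθ1 : 2 / (2 * (d : ℝ) + 1) ≤ 1 := by
    rw [div_le_one (by positivity)]
    linarith
  have htθ : t ^ (2 / (2 * (d : ℝ) + 1)) ≤ t := by
    calc t ^ (2 / (2 * (d : ℝ) + 1)) ≤ t ^ (1 : ℝ) := Real.rpow_le_rpow_of_exponent_le ht1 hθ1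
      _ = t := Real.rpow_one t
  set D : ℝ := 2 ^ r * C * ((2 : ℝ) ^ i) ^ (max 0 x) * t ^ (β + ε) with hD
  have hD0 : 0 ≤ D := by positivity
  have hsh : ∀ l < i, ‖BL.boxSum r a w (l + 1) s - BL.boxSum r a w l s‖ ≤ D := by
    intro l hl
    have h2l : (0 : ℝ) < 2 ^ l := by positivity
    have h2l1 : (1 : ℝ) ≤ 2 ^ l := one_le_pow₀ (by norm_num)
    have hli : (2 : ℝ) ^ l ≤ 2 ^ i := pow_le_pow_right₀ (by norm_num) hl.le
    have h3 := shell_le (s := s) (D := C * ((2 : ℝ) ^ l) ^ ((r : ℝ) - d / 2) * t ^ (β + ε)) ha hc₁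
      hi₀ l (by
      intro e he
      have h4 := hbox (fun j => e j * ((2 ^ l : ℕ) : ℤ)) (2 ^ l) s Nat.one_le_two_pow (by
        rw [hsre, abs_of_nonneg hσ0]
        exact hσ1) (by rw [hsim]; exact ht1) (by
        rw [hsim]
        push_cast
        exact hli.trans hi) (fun m hm => lz_range ha hc₁ hi₀ Nat.one_le_two_pow he hm)
      rw [hsim] at h4
      push_cast at h4
      exact h4) (by positivity)
    refine h3.trans ?_
    rw [hsre, hD]
    have h5 : ((2 : ℝ) ^ l) ^ (-σ) * ((2 : ℝ) ^ l) ^ ((r : ℝ) - d / 2) ≤ ((2 : ℝ) ^ i) ^ (max 0 x) := by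
      rw [← Real.rpow_add h2l]
      calc ((2 : ℝ) ^ l) ^ (-σ + ((r : ℝ) - d / 2)) ≤ ((2 : ℝ) ^ l) ^ (max 0 x) := by
            apply Real.rpow_le_rpow_of_exponent_le h2l1
            have : x ≤ max 0 x := le_max_right _ _
            rw [hx] at this ⊢
            linarith
        _ ≤ _ := Real.rpow_le_rpow h2l.le hli (le_max_left _ _)
    calc 2 ^ r * (((2 : ℝ) ^ l) ^ (-σ) * (C * ((2 : ℝ) ^ l) ^ ((r : ℝ) - d / 2) * t ^ (β + ε)))
        = 2 ^ r * C * (((2 : ℝ) ^ l) ^ (-σ) * ((2 : ℝ) ^ l) ^ ((r : ℝ) - d / 2)) * t ^ (β + ε) := by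
          ring
      _ ≤ _ := by gcongr
  have hmain := BL.boxSum_tel i hsh
  have hzero := BL.boxSum_zero (H := r + 1) ha hw (s := s) (by rw [hsre]; exact hσ0)
    (by rw [hsre]; exact hσ1)
  have hilog : (i : ℝ) ≤ t ^ e / (e * Real.log 2) := by
    have h3 : (i : ℝ) * Real.log 2 ≤ Real.log t := by
      rw [← Real.log_pow]
      exact Real.log_le_log (by positivity) (hi.trans htθ)
    have h4 := Real.log_le_rpow_div ht0.le he0
    rw [le_div_iff₀ (by positivity)]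
    rw [le_div_iff₀ he0] at h4
    calc (i : ℝ) * (e * Real.log 2) = (i * Real.log 2) * e := by ring
      _ ≤ Real.log t * e := by gcongr
      _ ≤ t ^ e := h4
  have hiD : (i : ℝ) * D ≤ C₈ * (t ^ η * ((2 : ℝ) ^ i) ^ (max 0 x)) := by
    calc (i : ℝ) * D ≤ t ^ e / (e * Real.log 2) * D := by gcongr
      _ = C₈ * ((t ^ e * t ^ (β + ε)) * ((2 : ℝ) ^ i) ^ (max 0 x)) := by
          rw [hD, hC₈]
          ring
      _ = _ := by
          rw [← Real.rpow_add ht0, he]
          congr 4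
          ring
  have hone : 1 ≤ t ^ η * ((2 : ℝ) ^ i) ^ (max 0 x) := one_le_mul_of_one_le_of_one_le htη hmx
  calc ‖BL.boxSum r a w i s‖ ≤ A₀ + i * D := by linarith
    _ ≤ A₀ * (t ^ η * ((2 : ℝ) ^ i) ^ (max 0 x)) + C₈ * (t ^ η * ((2 : ℝ) ^ i) ^ (max 0 x)) := by
        have : A₀ * 1 ≤ A₀ * (t ^ η * ((2 : ℝ) ^ i) ^ (max 0 x)) := by gcongr
        linarith
    _ = _ := by ring

end Pool.Agent.Helper73.SC
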