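import Pool.Agent.Helper73.SC.Stm

/-!
# Module AE: the mean of the product of the kernels, for almost every `v`
-/

set_option autoImplicit false

namespace Pool.Agent.Helper73.SC.AE

open MeasureTheory Set
open scoped ENNReal

/-! ### the kernel -/

/-- the kernel `‖y‖ ^ (-s)` -/
noncomputable def hk (s y : ℝ) : ℝ≥0∞ := (ENNReal.ofReal (nd y))⁻¹ ^ s

theorem nd_eq (y : ℝ) : nd y = min (Int.fract y) (1 - Int.fract y) := abs_sub_round_eq_min y

theorem nd_nonneg (y : ℝ) : 0 ≤ nd y := abs_nonneg _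

theorem measurable_nd : Measurable nd := by
  have : nd = fun y => min (Int.fract y) (1 - Int.fract y) := funext nd_eq
  rw [this]
  exact measurable_fract.min (measurable_const.sub measurable_fract)

theorem measurable_hk (s : ℝ) : Measurable (hk s) := by
  unfold hk
  exact (measurable_nd.ennreal_ofReal.inv).pow_const s

theorem hk_add_int (s y : ℝ) (n : ℤ) : hk s (y + n) = hk s y := by
  unfold hk
  rw [nd_eq, nd_eq, Int.fract_add_intCast]

theorem DN_pos {N : ℝ} (hN : 1 ≤ N) (y : ℝ) : 0 < max N⁻¹ (nd y) :=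
  lt_of_lt_of_le (inv_pos.2 (by linarith)) (le_max_left _ _)

theorem DN_nonneg {N : ℝ} (hN : 1 ≤ N) (y : ℝ) : 0 ≤ DN N y := (inv_pos.2 (DN_pos hN y)).le

theorem DN_le {N : ℝ} (hN : 1 ≤ N) (y : ℝ) : DN N y ≤ N := by
  unfold DN
  have h : (max N⁻¹ (nd y))⁻¹ ≤ (N⁻¹)⁻¹ := inv_anti₀ (inv_pos.2 (by linarith)) (le_max_left _ _)
  rwa [inv_inv] at h

theorem DN_bound {N : ℝ} (hN : 1 ≤ N) {ε s : ℝ} (hε : 0 ≤ ε) (hs : 0 ≤ s) (h1 : ε + s = 1)
    (y : ℝ) : ENNReal.ofReal (DN N y) ≤ ENNReal.ofReal N ^ ε * hk s y := by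
  have h2 : ENNReal.ofReal (DN N y) =
      ENNReal.ofReal (DN N y) ^ ε * ENNReal.ofReal (DN N y) ^ s := by
    rw [← ENNReal.rpow_add_of_nonneg _ _ hε hs, h1, ENNReal.rpow_one]
  rw [h2]
  refine mul_le_mul' (ENNReal.rpow_le_rpow (ENNReal.ofReal_le_ofReal (DN_le hN y)) hε) ?_
  refine ENNReal.rpow_le_rpow ?_ hs
  unfold DN
  rw [ENNReal.ofReal_inv_of_pos (DN_pos hN y)]
  exact ENNReal.inv_le_inv.2 (ENNReal.ofReal_le_ofReal (le_max_right _ _))

/-! ### one period -/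

/-- the integral over one period -/
noncomputable def K0 (s : ℝ) : ℝ≥0∞ := ∫⁻ y in Ico (0 : ℝ) 1, hk s y

theorem fin_of_ii {f : ℝ → ℝ} (hf : IntervalIntegrable f volume 0 1) :
    ∫⁻ x in Ico (0 : ℝ) 1, ‖f x‖ₑ < ∞ := by
  have h1 : IntegrableOn f (Ioc 0 1) volume := hf.1
  have h2 : IntegrableOn f (Ico 0 1) volume := by
    rw [integrableOn_Ico_iff_integrableOn_Ioo]
    exact h1.mono_set Ioo_subset_Ioc_self
  exact h2.2

theorem K0_lt (s : ℝ) (_h0 : 0 < s) (h1 : s < 1) : K0 s < ∞ := by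
  have e1 : IntervalIntegrable (fun x : ℝ => x ^ (-s)) volume 0 1 :=
    intervalIntegral.intervalIntegrable_rpow' (by linarith)
  have e2 : IntervalIntegrable (fun x : ℝ => (1 - x) ^ (-s)) volume 0 1 := by
    have := (e1.comp_sub_left 1)
    simp only [sub_zero, sub_self] at this
    exact this.symm
  have f1 := fin_of_ii e1
  have f2 := fin_of_ii e2
  have f3 : ∫⁻ x in Ico (0 : ℝ) 1, (‖x ^ (-s)‖ₑ + ‖(1 - x) ^ (-s)‖ₑ) < ∞ := by
    rw [lintegral_add_left (by fun_prop)]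
    exact ENNReal.add_lt_top.2 ⟨f1, f2⟩
  refine lt_of_le_of_lt ?_ f3
  unfold K0
  refine lintegral_mono_ae ?_
  have hae : ∀ᵐ x ∂(volume.restrict (Ico (0 : ℝ) 1)), x ≠ 0 :=
    Measure.ae_ne _ 0
  filter_upwards [hae, ae_restrict_mem measurableSet_Ico] with x hx0 hx
  have hxp : 0 < x := lt_of_le_of_ne hx.1 (Ne.symm hx0)
  have hx1 : 0 < 1 - x := by linarith [hx.2]
  have hfr : Int.fract x = x := Int.fract_eq_self.2 ⟨hx.1, hx.2⟩
  have key : ∀ z : ℝ, 0 < z → (ENNReal.ofReal z)⁻¹ ^ s = ‖z ^ (-s)‖ₑ := by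
    intro z hz
    rw [← ENNReal.ofReal_inv_of_pos hz, ENNReal.ofReal_rpow_of_pos (inv_pos.2 hz),
      Real.inv_rpow hz.le, ← Real.rpow_neg hz.le, Real.enorm_eq_ofReal (Real.rpow_nonneg hz.le _)]
  unfold hk
  rw [nd_eq, hfr]
  rcases le_total x (1 - x) with h | h
  · rw [min_eq_left h, key x hxp]
    exact le_self_add
  · rw [min_eq_right h, key _ hx1]
    exact le_add_self

theorem period (s : ℝ) (n : ℤ) : ∫⁻ y in Ico (n : ℝ) (n + 1), hk s y = K0 s := by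
  rw [← lintegral_indicator measurableSet_Ico,
    ← lintegral_add_right_eq_self _ (n : ℝ), K0, ← lintegral_indicator measurableSet_Ico]
  refine lintegral_congr fun y => ?_
  by_cases h : y ∈ Ico (0 : ℝ) 1
  · rw [indicator_of_mem h, indicator_of_mem, hk_add_int]
    exact ⟨by linarith [h.1], by linarith [h.2]⟩
  · rw [indicator_of_notMem h, indicator_of_notMem]
    rintro ⟨h1, h2⟩
    exact h ⟨by linarith, by linarith⟩

theorem interval (s a b : ℝ) (hab : a ≤ b) :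
    ∫⁻ y in Icc a b, hk s y ≤ ENNReal.ofReal (b - a + 2) * K0 s := by
  have hsub : Icc a b ⊆ ⋃ n : (Finset.Icc ⌊a⌋ ⌊b⌋), Ico ((n : ℤ) : ℝ) ((n : ℤ) + 1) := by
    intro y hy
    rw [mem_iUnion]
    refine ⟨⟨⌊y⌋, Finset.mem_Icc.2 ⟨Int.floor_le_floor hy.1, Int.floor_le_floor hy.2⟩⟩, ?_⟩
    exact ⟨Int.floor_le y, Int.lt_floor_add_one y⟩
  refine (lintegral_mono_set hsub).trans ((lintegral_iUnion_le _ _).trans ?_)
  rw [tsum_fintype]
  have e : ∀ n : (Finset.Icc ⌊a⌋ ⌊b⌋),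
      ∫⁻ y in Ico ((n : ℤ) : ℝ) ((n : ℤ) + 1), hk s y = K0 s := fun n => period s n
  rw [Finset.sum_congr rfl fun n _ => e n, Finset.sum_const, nsmul_eq_mul]
  refine mul_le_mul' ?_ le_rfl
  have hc : ((Finset.univ : Finset (Finset.Icc ⌊a⌋ ⌊b⌋)).card : ℝ) ≤ b - a + 2 := by
    rw [Finset.card_univ, Fintype.card_coe, Int.card_Icc]
    have h1 : ⌊a⌋ ≤ ⌊b⌋ := Int.floor_le_floor hab
    have h2 : (((⌊b⌋ + 1 - ⌊a⌋).toNat : ℤ) : ℝ) = ⌊b⌋ + 1 - ⌊a⌋ := by
      rw [Int.toNat_of_nonneg (by omega)]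
      push_cast
      ring
    have h3 : (((⌊b⌋ + 1 - ⌊a⌋).toNat : ℕ) : ℝ) = ⌊b⌋ + 1 - ⌊a⌋ := by
      rw [← h2]; norm_cast
    rw [h3]
    linarith [Int.floor_le b, Int.lt_floor_add_one a]
  rw [← ENNReal.ofReal_natCast]
  exact ENNReal.ofReal_le_ofReal hc

/-- scaling -/
theorem scaled (s x B : ℝ) (hx : x ≠ 0) (hB : 0 ≤ B) :
    ∫⁻ u in Icc (-B) B, hk s (x * u) ≤
      ENNReal.ofReal (2 * B + 2 / |x|) * K0 s := by
  have hx' : 0 < |x| := abs_pos.2 hx
  have h1 : ∫⁻ u in Icc (-B) B, hk s (x * u) ≤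
      ∫⁻ u, (Icc (-(|x| * B)) (|x| * B)).indicator (hk s) (x * u) := by
    rw [← lintegral_indicator measurableSet_Icc]
    refine lintegral_mono fun u => ?_
    by_cases hu : u ∈ Icc (-B) B
    · rw [indicator_of_mem hu, indicator_of_mem]
      have : |x * u| ≤ |x| * B := by
        rw [abs_mul]
        exact mul_le_mul_of_nonneg_left (abs_le.2 hu) hx'.le
      exact abs_le.1 this
    · rw [indicator_of_notMem hu]
      exact zero_le
  have h2 : ∫⁻ u, (Icc (-(|x| * B)) (|x| * B)).indicator (hk s) (x * u) =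
      ENNReal.ofReal |x⁻¹| * ∫⁻ y in Icc (-(|x| * B)) (|x| * B), hk s y := by
    have hm : Measurable ((Icc (-(|x| * B)) (|x| * B)).indicator (hk s)) :=
      (measurable_hk s).indicator measurableSet_Icc
    rw [← lintegral_indicator measurableSet_Icc,
      ← lintegral_map (f := (Icc (-(|x| * B)) (|x| * B)).indicator (hk s)) hm
        (measurable_const_mul x), Real.map_volume_mul_left hx, lintegral_smul_measure]
    rfl
  refine h1.trans (h2.le.trans ?_)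
  have h3 := interval s (-(|x| * B)) (|x| * B) (by nlinarith)
  refine (mul_le_mul' le_rfl h3).trans ?_
  rw [← mul_assoc, ← ENNReal.ofReal_mul (abs_nonneg _)]
  refine mul_le_mul' (ENNReal.ofReal_le_ofReal (le_of_eq ?_)) le_rfl
  rw [abs_inv]
  field_simp
  ring

/-! ### the product -/

theorem lintegral_fin_prod {n : ℕ} (μ : Fin n → Measure ℝ)
    [∀ i, SigmaFinite (μ i)] (f : Fin n → ℝ → ENNReal) (hf : ∀ i, Measurable (f i)) :
    ∫⁻ x : Fin n → ℝ, ∏ i, f i (x i) ∂(Measure.pi μ) = ∏ i, ∫⁻ x, f i x ∂(μ i) := by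
  induction n with
  | zero => simp
  | succ n n_ih =>
      calc
        _ = ∫⁻ x : ℝ × (Fin n → ℝ),
            f 0 x.1 * ∏ i : Fin n, f (Fin.succ i) (x.2 i)
            ∂((μ 0).prod (Measure.pi (fun i ↦ μ i.succ))) := by
          rw [← ((measurePreserving_piFinSuccAbove μ 0).symm).lintegral_comp_emb
            (MeasurableEquiv.measurableEmbedding _)]
          simp_rw [MeasurableEquiv.piFinSuccAbove_symm_apply, Fin.insertNthEquiv,
            Fin.prod_univ_succ, Fin.insertNth_zero, Equiv.coe_fn_mk, Fin.cons_succ,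
            Fin.zero_succAbove, cast_eq, Fin.cons_zero]
        _ = (∫⁻ x, f 0 x ∂μ 0)
            * ∏ i : Fin n, ∫⁻ (x : ℝ), f (Fin.succ i) x ∂(μ i.succ) := by
          rw [← n_ih (fun i => μ i.succ) (fun i => f i.succ) (fun i => hf _)]
          exact lintegral_prod_mul (hf 0).aemeasurable (Finset.measurable_prod _ (fun i _ =>
            (hf _).comp (measurable_pi_apply i))).aemeasurable
        _ = ∏ i, ∫⁻ x, f i x ∂(μ i) := by rw [Fin.prod_univ_succ]

/-- the box -/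
def Bx (d : ℕ) (B : ℝ) : Set (Fin d → ℝ) := Set.univ.pi fun _ => Icc (-B) B

theorem measurableSet_Bx (d : ℕ) (B : ℝ) : MeasurableSet (Bx d B) :=
  MeasurableSet.univ_pi fun _ => measurableSet_Icc

theorem box_prod (d : ℕ) (s B ξ : ℝ) (hξ : ξ ≠ 0) (hB : 0 ≤ B) :
    ∫⁻ v in Bx d B, ∏ j, hk s (v j * ξ) ≤ (ENNReal.ofReal (2 * B + 2 / |ξ|) * K0 s) ^ d := by
  unfold Bx
  rw [volume_pi, Measure.restrict_pi_pi,
    lintegral_fin_prod (fun _ : Fin d => (volume : Measure ℝ).restrict (Icc (-B) B))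
      (fun _ u => hk s (u * ξ)) (fun _ => (measurable_hk s).comp (measurable_mul_const ξ)),
    Finset.prod_const, Finset.card_univ, Fintype.card_fin]
  refine pow_le_pow_left' ?_ d
  have := scaled s ξ B hξ hB
  simpa only [mul_comm ξ] using this

/-- the weight -/
noncomputable def wt (ε ξ : ℝ) : ℝ≥0∞ := ENNReal.ofReal ((1 + |ξ|) ^ (-(1 + ε)))

theorem measurable_wt (ε : ℝ) : Measurable (wt ε) := by
  unfold wt
  fun_prop

theorem wt_fin (ε : ℝ) (hε : 0 < ε) : ∫⁻ ξ, wt ε ξ < ∞ := by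
  have h : Integrable (fun x : ℝ => (1 + ‖x‖) ^ (-(1 + ε))) volume :=
    integrable_one_add_norm (by simp [hε])
  have h2 := h.2
  rw [hasFiniteIntegral_iff_ofReal (Filter.Eventually.of_forall fun x => by positivity)] at h2
  exact h2

/-- the mean with weight over `|ξ| ≥ 1` -/
noncomputable def GG (d : ℕ) (s ε : ℝ) (v : Fin d → ℝ) : ℝ≥0∞ :=
  ∫⁻ ξ in {ξ : ℝ | 1 ≤ |ξ|}, wt ε ξ * ∏ j, hk s (v j * ξ)

theorem meas_set : MeasurableSet {ξ : ℝ | 1 ≤ |ξ|} :=
  measurableSet_le measurable_const (by fun_prop)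

theorem meas_uncurry (d : ℕ) (s ε : ℝ) :
    Measurable (Function.uncurry fun (v : Fin d → ℝ) (ξ : ℝ) =>
      wt ε ξ * ∏ j, hk s (v j * ξ)) := by
  have h1 : Measurable fun p : (Fin d → ℝ) × ℝ => wt ε p.2 := (measurable_wt ε).comp measurable_snd
  have h2 : ∀ j : Fin d, Measurable fun p : (Fin d → ℝ) × ℝ => hk s (p.1 j * p.2) := fun j =>
    (measurable_hk s).comp (((measurable_pi_apply j).comp measurable_fst).mul measurable_snd)
  exact h1.mul (Finset.measurable_prod _ fun j _ => h2 j)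

theorem measurable_GG (d : ℕ) (s ε : ℝ) : Measurable (GG d s ε) := by
  unfold GG
  exact Measurable.lintegral_prod_right (meas_uncurry d s ε)

theorem GG_int (d : ℕ) (s ε B : ℝ) (h0 : 0 < s) (h1 : s < 1) (hε : 0 < ε) (hB : 0 ≤ B) :
    ∫⁻ v in Bx d B, GG d s ε v < ∞ := by
  unfold GG
  rw [lintegral_lintegral_swap (meas_uncurry d s ε).aemeasurable]
  set A : ℝ≥0∞ := (ENNReal.ofReal (2 * B + 2) * K0 s) ^ d with hA
  have hAf : A < ∞ := by
    refine ENNReal.pow_lt_top (ENNReal.mul_lt_top ENNReal.ofReal_lt_top (K0_lt s h0 h1))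
  have h2 : ∫⁻ ξ in {ξ : ℝ | 1 ≤ |ξ|}, ∫⁻ v in Bx d B, wt ε ξ * ∏ j, hk s (v j * ξ) ≤
      ∫⁻ ξ in {ξ : ℝ | 1 ≤ |ξ|}, wt ε ξ * A := by
    refine setLIntegral_mono' meas_set fun ξ hξ => ?_
    have hξ' : (1 : ℝ) ≤ |ξ| := hξ
    have hξ0 : ξ ≠ 0 := by
      rintro rfl
      rw [abs_zero] at hξ'
      linarith
    rw [lintegral_const_mul]
    · refine mul_le_mul' le_rfl ((box_prod d s B ξ hξ0 hB).trans ?_)
      refine pow_le_pow_left' (mul_le_mul' (ENNReal.ofReal_le_ofReal ?_) le_rfl) d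
      have : 2 / |ξ| ≤ 2 := by
        rw [div_le_iff₀ (by linarith)]
        linarith
      linarith
    · refine Finset.measurable_prod _ fun j _ => ?_
      have hm : Measurable fun v : Fin d → ℝ => v j * ξ := by fun_prop
      exact (measurable_hk s).comp hm
  refine lt_of_le_of_lt h2 ?_
  rw [lintegral_mul_const _ (measurable_wt ε)]
  refine ENNReal.mul_lt_top (lt_of_le_of_lt ?_ (wt_fin ε hε)) hAf
  exact setLIntegral_le_lintegral _ _

/-! ### the bound -/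

theorem split (d : ℕ) (v : Fin (d + 1) → ℝ) (X N ε s : ℝ) (hX : 1 ≤ X) (hN : 1 ≤ N)
    (hε : 0 < ε) (hs : 0 ≤ s) (h1 : ε + s = 1) (hv : v 0 ≠ 0) :
    ∫⁻ ξ in Icc (-X) X, ENNReal.ofReal (∏ j, DN N (v j * ξ)) ≤
      ENNReal.ofReal N ^ ε * ENNReal.ofReal N ^ d * (ENNReal.ofReal (2 + 2 / |v 0|) * K0 s) +
      (ENNReal.ofReal N ^ ε) ^ (d + 1) * ENNReal.ofReal ((2 * X) ^ (1 + ε)) *
        GG (d + 1) s ε v := by
  have hsub : Icc (-X) X ⊆ Icc (-1) 1 ∪ (Icc (-X) X ∩ {ξ : ℝ | 1 ≤ |ξ|}) := by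
    intro ξ hξ
    rcases le_total |ξ| 1 with h | h
    · exact Or.inl (abs_le.1 h)
    · exact Or.inr ⟨hξ, h⟩
  refine (lintegral_mono_set hsub).trans ((lintegral_union_le _ _ _).trans (add_le_add ?_ ?_))
  · -- near zero
    have hb : ∀ ξ : ℝ, ENNReal.ofReal (∏ j, DN N (v j * ξ)) ≤
        ENNReal.ofReal N ^ ε * ENNReal.ofReal N ^ d * hk s (v 0 * ξ) := by
      intro ξ
      rw [Fin.prod_univ_succ, ENNReal.ofReal_mul (DN_nonneg hN _)]
      have e1 := DN_bound hN hε.le hs h1 (v 0 * ξ)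
      have e2 : ENNReal.ofReal (∏ j : Fin d, DN N (v j.succ * ξ)) ≤ ENNReal.ofReal N ^ d := by
        rw [← ENNReal.ofReal_pow (by linarith)]
        refine ENNReal.ofReal_le_ofReal ?_
        calc ∏ j : Fin d, DN N (v j.succ * ξ) ≤ ∏ _j : Fin d, N :=
              Finset.prod_le_prod (fun j _ => DN_nonneg hN _) fun j _ => DN_le hN _
          _ = N ^ d := by rw [Finset.prod_const, Finset.card_univ, Fintype.card_fin]
      calc ENNReal.ofReal (DN N (v 0 * ξ)) * ENNReal.ofReal (∏ j : Fin d, DN N (v j.succ * ξ))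
          ≤ (ENNReal.ofReal N ^ ε * hk s (v 0 * ξ)) * ENNReal.ofReal N ^ d := mul_le_mul' e1 e2
        _ = _ := by ring
    refine (lintegral_mono fun ξ => hb ξ).trans ?_
    have hm : Measurable fun ξ : ℝ => hk s (v 0 * ξ) :=
      (measurable_hk s).comp (measurable_const_mul (v 0))
    rw [lintegral_const_mul _ hm]
    refine mul_le_mul' le_rfl ?_
    have := scaled s (v 0) 1 hv zero_le_one
    simpa using this
  · -- large
    have hms : MeasurableSet (Icc (-X) X ∩ {ξ : ℝ | 1 ≤ |ξ|}) := measurableSet_Icc.inter meas_set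
    have hb : ∀ ξ ∈ Icc (-X) X ∩ {ξ : ℝ | 1 ≤ |ξ|},
        ENNReal.ofReal (∏ j, DN N (v j * ξ)) ≤
          (ENNReal.ofReal N ^ ε) ^ (d + 1) * ENNReal.ofReal ((2 * X) ^ (1 + ε)) *
          (wt ε ξ * ∏ j, hk s (v j * ξ)) := by
      intro ξ hξ
      have hξX : |ξ| ≤ X := abs_le.2 hξ.1
      have e1 : ENNReal.ofReal (∏ j, DN N (v j * ξ)) ≤
          (ENNReal.ofReal N ^ ε) ^ (d + 1) * ∏ j, hk s (v j * ξ) := by
        rw [ENNReal.ofReal_prod_of_nonneg fun j _ => DN_nonneg hN _]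
        calc ∏ j, ENNReal.ofReal (DN N (v j * ξ))
            ≤ ∏ j, (ENNReal.ofReal N ^ ε * hk s (v j * ξ)) :=
              Finset.prod_le_prod' fun j _ => DN_bound hN hε.le hs h1 _
          _ = _ := by
              rw [Finset.prod_mul_distrib, Finset.prod_const, Finset.card_univ, Fintype.card_fin]
      have e2 : 1 ≤ ENNReal.ofReal ((2 * X) ^ (1 + ε)) * wt ε ξ := by
        unfold wt
        rw [← ENNReal.ofReal_mul (by positivity), ← ENNReal.ofReal_one]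
        refine ENNReal.ofReal_le_ofReal ?_
        have h3 : (0 : ℝ) < 1 + |ξ| := by positivity
        rw [Real.rpow_neg h3.le, ← div_eq_mul_inv, one_le_div (Real.rpow_pos_of_pos h3 _)]
        exact Real.rpow_le_rpow h3.le (by linarith) (by linarith)
      calc ENNReal.ofReal (∏ j, DN N (v j * ξ))
          ≤ (ENNReal.ofReal N ^ ε) ^ (d + 1) * ∏ j, hk s (v j * ξ) := e1
        _ = (ENNReal.ofReal N ^ ε) ^ (d + 1) * (1 * ∏ j, hk s (v j * ξ)) := by rw [one_mul]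
        _ ≤ (ENNReal.ofReal N ^ ε) ^ (d + 1) *
            ((ENNReal.ofReal ((2 * X) ^ (1 + ε)) * wt ε ξ) * ∏ j, hk s (v j * ξ)) :=
              mul_le_mul' le_rfl (mul_le_mul' e2 le_rfl)
        _ = _ := by ring
    refine (setLIntegral_mono' hms hb).trans ?_
    have hmm : Measurable fun ξ : ℝ => wt ε ξ * ∏ j, hk s (v j * ξ) :=
      (measurable_wt ε).mul (Finset.measurable_prod _ fun j _ =>
        (measurable_hk s).comp (measurable_const_mul (v j)))
    rw [lintegral_const_mul _ hmm]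
    refine mul_le_mul' le_rfl ?_
    exact lintegral_mono_set inter_subset_right

theorem final (d : ℕ) (v : Fin (d + 1) → ℝ) (ε s ε' : ℝ) (hε : 0 < ε) (hs : 0 < s)
    (h1 : ε + s = 1) (hv : v 0 ≠ 0) (hd : (d + 1 : ℝ) * ε ≤ ε')
    (hG : GG (d + 1) s ε v < ∞) : ∃ C : ℝ, 0 ≤ C ∧ ∀ X N : ℝ, 1 ≤ X → 1 ≤ N →
      ∫⁻ ξ in Icc (-X) X, ENNReal.ofReal (∏ j, DN N (v j * ξ)) ≤
        ENNReal.ofReal (C * (X * N) ^ ε' * (X + N ^ d)) := by
  have hK : K0 s < ∞ := K0_lt s hs (by linarith)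
  set c1 : ℝ := (2 + 2 / |v 0|) * (K0 s).toReal with hc1
  set c2 : ℝ := (GG (d + 1) s ε v).toReal with hc2
  have hc1' : 0 ≤ c1 := by positivity
  have hc2' : 0 ≤ c2 := ENNReal.toReal_nonneg
  have hd1 : ε ≤ ε' := by
    have : (0 : ℝ) ≤ d := Nat.cast_nonneg d
    nlinarith
  have hε1 : ε ≤ 1 := by linarith
  refine ⟨c1 + 4 * c2, by positivity, ?_⟩
  intro X N hX hN
  have hN0 : (0 : ℝ) < N := by linarith
  have hX0 : (0 : ℝ) < X := by linarith
  refine (split d v X N ε s hX hN hε hs.le h1 hv).trans ?_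
  have e1 : ENNReal.ofReal N ^ ε * ENNReal.ofReal N ^ d *
      (ENNReal.ofReal (2 + 2 / |v 0|) * K0 s) = ENNReal.ofReal (N ^ ε * N ^ d * c1) := by
    rw [hc1, ENNReal.ofReal_mul (by positivity), ENNReal.ofReal_mul (by positivity),
      ENNReal.ofReal_mul (by positivity), ENNReal.ofReal_toReal hK.ne,
      ENNReal.ofReal_rpow_of_pos hN0, ENNReal.ofReal_pow hN0.le]
  have e2 : (ENNReal.ofReal N ^ ε) ^ (d + 1) * ENNReal.ofReal ((2 * X) ^ (1 + ε)) *
      GG (d + 1) s ε v = ENNReal.ofReal ((N ^ ε) ^ (d + 1) * (2 * X) ^ (1 + ε) * c2) := by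
    rw [hc2, ENNReal.ofReal_mul (by positivity), ENNReal.ofReal_mul (by positivity),
      ENNReal.ofReal_toReal hG.ne, ENNReal.ofReal_rpow_of_pos hN0,
      ENNReal.ofReal_pow (by positivity)]
  rw [e1, e2, ← ENNReal.ofReal_add (by positivity) (by positivity)]
  refine ENNReal.ofReal_le_ofReal ?_
  have hXN : 1 ≤ X * N := by nlinarith
  have p1 : N ^ ε ≤ (X * N) ^ ε' := by
    calc N ^ ε ≤ (X * N) ^ ε := Real.rpow_le_rpow hN0.le (by nlinarith) hε.le
      _ ≤ (X * N) ^ ε' := Real.rpow_le_rpow_of_exponent_le hXN hd1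
  have p2 : (N ^ ε) ^ (d + 1) * (2 * X) ^ (1 + ε) ≤ 4 * (X * N) ^ ε' * X := by
    have q1 : (N ^ ε) ^ (d + 1) = N ^ ((d + 1 : ℝ) * ε) := by
      rw [← Real.rpow_natCast, ← Real.rpow_mul hN0.le]
      congr 1
      push_cast
      ring
    have q2 : (2 * X) ^ (1 + ε) = (2 : ℝ) ^ (1 + ε) * (X * X ^ ε) := by
      rw [Real.mul_rpow (by norm_num) hX0.le, Real.rpow_add hX0, Real.rpow_one]
    have q3 : (2 : ℝ) ^ (1 + ε) ≤ 4 := by
      calc (2 : ℝ) ^ (1 + ε) ≤ 2 ^ (2 : ℝ) :=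
            Real.rpow_le_rpow_of_exponent_le (by norm_num) (by linarith)
        _ = 4 := by norm_num
    have q4 : N ^ ((d + 1 : ℝ) * ε) ≤ N ^ ε' := Real.rpow_le_rpow_of_exponent_le hN hd
    have q5 : X ^ ε ≤ X ^ ε' := Real.rpow_le_rpow_of_exponent_le hX hd1
    rw [q1, q2, Real.mul_rpow hX0.le hN0.le]
    have r1 : (0 : ℝ) ≤ N ^ ((d + 1 : ℝ) * ε) := by positivity
    have r2 : (0 : ℝ) ≤ X ^ ε := by positivity
    calc N ^ ((d + 1 : ℝ) * ε) * ((2 : ℝ) ^ (1 + ε) * (X * X ^ ε))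
        ≤ N ^ ε' * (4 * (X * X ^ ε')) := by
          refine mul_le_mul q4 ?_ (by positivity) (by positivity)
          refine mul_le_mul q3 ?_ (by positivity) (by positivity)
          exact mul_le_mul_of_nonneg_left q5 hX0.le
      _ = _ := by ring
  calc N ^ ε * N ^ d * c1 + (N ^ ε) ^ (d + 1) * (2 * X) ^ (1 + ε) * c2
      ≤ (X * N) ^ ε' * N ^ d * c1 + 4 * (X * N) ^ ε' * X * c2 := by
        refine add_le_add ?_ ?_
        · refine mul_le_mul_of_nonneg_right (mul_le_mul_of_nonneg_right p1 (by positivity)) hc1'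
        · exact mul_le_mul_of_nonneg_right p2 hc2'
    _ ≤ (c1 + 4 * c2) * (X * N) ^ ε' * (X + N ^ d) := by
        have t : (0 : ℝ) ≤ (X * N) ^ ε' := by positivity
        have t2 : (0 : ℝ) ≤ N ^ d := by positivity
        have t3 : 0 ≤ (X * N) ^ ε' * X * c1 := by positivity
        have t4 : 0 ≤ 4 * (X * N) ^ ε' * N ^ d * c2 := by positivity
        nlinarith

/-- **Module AE.** -/
theorem s_ae : S_AE := by
  intro d hd
  obtain ⟨d, rfl⟩ : ∃ k, d = k + 1 := ⟨d - 1, by omega⟩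
  have key : ∀ n : ℕ, ∀ᵐ v : Fin (d + 1) → ℝ, v ∈ Bx (d + 1) n →
      GG (d + 1) (1 - 1 / ((n : ℝ) + 2)) (1 / ((n : ℝ) + 2)) v < ∞ := by
    intro n
    have hn : (0 : ℝ) ≤ n := Nat.cast_nonneg n
    have hε : 0 < 1 / ((n : ℝ) + 2) := by positivity
    have hε2 : 1 / ((n : ℝ) + 2) < 1 := by
      rw [div_lt_one (by positivity)]; linarith
    rw [← ae_restrict_iff' (measurableSet_Bx _ _)]
    exact ae_lt_top (measurable_GG _ _ _)
      (GG_int (d + 1) _ _ n (by linarith) (by linarith) hε hn).ne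
  filter_upwards [ae_all_iff.2 key] with v hv hpos ε hε
  obtain ⟨n, hn⟩ := exists_nat_ge ((d + 1 : ℝ) / ε + ∑ j, v j)
  have hsum : ∀ j, v j ≤ ∑ j, v j := fun j =>
    Finset.single_le_sum (fun i _ => (hpos i).le) (Finset.mem_univ j)
  have hde : 0 < (d + 1 : ℝ) / ε := by positivity
  have hmem : v ∈ Bx (d + 1) n := by
    intro j _
    have h1 := hsum j
    have h2 := hpos j
    have h3 : (0 : ℝ) ≤ n := Nat.cast_nonneg n
    exact ⟨by linarith, by linarith⟩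
  have hs0 : 0 ≤ ∑ j, v j := Finset.sum_nonneg fun j _ => (hpos j).le
  have hn0 : (0 : ℝ) ≤ n := Nat.cast_nonneg n
  have hlt : 1 / ((n : ℝ) + 2) < 1 := by
    rw [div_lt_one (by positivity)]; linarith
  obtain ⟨C, hC, h⟩ := final d v (1 / ((n : ℝ) + 2)) (1 - 1 / ((n : ℝ) + 2)) ε (by positivity)
    (by linarith) (by ring) (hpos 0).ne' (by
      rw [mul_one_div, div_le_iff₀ (by positivity)]
      have : (d + 1 : ℝ) / ε ≤ n + 2 := by linarith
      rw [div_le_iff₀ hε] at this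
      linarith) (hv n hmem)
  exact ⟨C, hC, fun X N hX hN => h X N hX hN⟩

end Pool.Agent.Helper73.SC.AE
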