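import Pool.Agent.Helper73.SC.Stm

/-!
# Module AE2: the mean of `|h · v| ^ (-1/2)`, for almost every `v`
-/

set_option autoImplicit false

namespace Pool.Agent.Helper73.SC.AE2

open MeasureTheory Set
open scoped ENNReal

/-- the function `|u| ^ (-1/2)`, infinite at zero -/
noncomputable def ph (u : ℝ) : ℝ≥0∞ := (ENNReal.ofReal |u|)⁻¹ ^ (1 / 2 : ℝ)

theorem measurable_ph : Measurable ph := by
  unfold ph
  have h : Measurable fun u : ℝ => |u| := by fun_prop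
  exact (h.ennreal_ofReal.inv).pow_const _

theorem ph_eq {u : ℝ} (hu : u ≠ 0) : ph u = ENNReal.ofReal (|u| ^ (-(1 / 2) : ℝ)) := by
  have h := abs_pos.2 hu
  unfold ph
  rw [← ENNReal.ofReal_inv_of_pos h, ENNReal.ofReal_rpow_of_pos (inv_pos.2 h),
    Real.inv_rpow h.le, ← Real.rpow_neg h.le]

theorem ph_zero : ph 0 = ⊤ := by
  unfold ph
  rw [abs_zero, ENNReal.ofReal_zero, ENNReal.inv_zero, ENNReal.top_rpow_of_pos (by norm_num)]

theorem ph_mul {x y : ℝ} (hx : x ≠ 0) : ph (x * y) = ph x * ph y := by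
  unfold ph
  rw [abs_mul, ENNReal.ofReal_mul (abs_nonneg _), ENNReal.mul_inv, ENNReal.mul_rpow_of_nonneg]
  · norm_num
  · left
    exact (ENNReal.ofReal_pos.2 (abs_pos.2 hx)).ne'
  · left
    exact ENNReal.ofReal_ne_top

theorem ph_one_lt {u : ℝ} (hu : 1 ≤ |u|) : ph u ≤ 1 := by
  have h0 : u ≠ 0 := by
    rintro rfl
    rw [abs_zero] at hu
    linarith
  rw [ph_eq h0, ← ENNReal.ofReal_one]
  exact ENNReal.ofReal_le_ofReal (Real.rpow_le_one_of_one_le_of_nonpos hu (by norm_num))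

/-- the integral over `[-1, 1]` -/
noncomputable def K1 : ℝ≥0∞ := ∫⁻ u in Icc (-1 : ℝ) 1, ph u

theorem fin_of_ii {f : ℝ → ℝ} (hf : IntervalIntegrable f volume (-1) 1) :
    ∫⁻ x in Icc (-1 : ℝ) 1, ‖f x‖ₑ < ∞ := by
  have h1 : IntegrableOn f (Ioc (-1) 1) volume := hf.1
  have h2 : IntegrableOn f (Icc (-1) 1) volume := by
    rw [integrableOn_Icc_iff_integrableOn_Ioc]
    exact h1
  exact h2.2

theorem K1_lt : K1 < ∞ := by
  have e1 : IntervalIntegrable (fun x : ℝ => x ^ (-(1 / 2) : ℝ)) volume (-1) 1 :=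
    intervalIntegral.intervalIntegrable_rpow' (by norm_num)
  have e2 : IntervalIntegrable (fun x : ℝ => (0 - x) ^ (-(1 / 2) : ℝ)) volume (-1) 1 := by
    have := e1.comp_sub_left 0
    simp only [zero_sub, neg_neg] at this
    have h3 := this.symm
    simpa only [zero_sub] using h3
  have f1 := fin_of_ii e1
  have f2 := fin_of_ii e2
  have f3 : ∫⁻ x in Icc (-1 : ℝ) 1, (‖x ^ (-(1 / 2) : ℝ)‖ₑ + ‖(0 - x) ^ (-(1 / 2) : ℝ)‖ₑ) < ∞ := by
    rw [lintegral_add_left (by fun_prop)]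
    exact ENNReal.add_lt_top.2 ⟨f1, f2⟩
  refine lt_of_le_of_lt ?_ f3
  unfold K1
  refine lintegral_mono_ae ?_
  have hae : ∀ᵐ x ∂(volume.restrict (Icc (-1 : ℝ) 1)), x ≠ 0 := Measure.ae_ne _ 0
  filter_upwards [hae] with x hx0
  rw [ph_eq hx0]
  rcases le_total 0 x with h | h
  · rw [abs_of_nonneg h, ← Real.enorm_eq_ofReal (Real.rpow_nonneg h _)]
    exact le_self_add
  · rw [abs_of_nonpos h, ← zero_sub, ← Real.enorm_eq_ofReal (Real.rpow_nonneg (by linarith) _)]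
    exact le_add_self

theorem line (B x c : ℝ) (hx : x ≠ 0) :
    ∫⁻ u in Icc (-B) B, ph (x * u + c) ≤ ph x * (K1 + ENNReal.ofReal (2 * B)) := by
  have e : ∀ u : ℝ, ph (x * u + c) = ph x * ph (u + c / x) := fun u => by
    rw [← ph_mul hx]
    congr 1
    field_simp
  have hm : Measurable fun u : ℝ => ph (u + c / x) := measurable_ph.comp (measurable_add_const _)
  rw [lintegral_congr e, lintegral_const_mul _ hm]
  refine mul_le_mul' le_rfl ?_
  have h1 : ∀ y : ℝ, ph y ≤ (Icc (-1 : ℝ) 1).indicator ph y + 1 := by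
    intro y
    by_cases h : y ∈ Icc (-1 : ℝ) 1
    · rw [indicator_of_mem h]
      exact le_self_add
    · rw [indicator_of_notMem h, zero_add]
      refine ph_one_lt ?_
      by_contra h2
      push Not at h2
      exact h (abs_le.1 h2.le)
  have hmi : Measurable ((Icc (-1 : ℝ) 1).indicator ph) := measurable_ph.indicator measurableSet_Icc
  calc ∫⁻ u in Icc (-B) B, ph (u + c / x)
      ≤ ∫⁻ u in Icc (-B) B, ((Icc (-1 : ℝ) 1).indicator ph (u + c / x) + 1) :=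
        lintegral_mono fun u => h1 _
    _ = (∫⁻ u in Icc (-B) B, (Icc (-1 : ℝ) 1).indicator ph (u + c / x)) +
        ∫⁻ _u in Icc (-B) B, 1 :=
        lintegral_add_left (hmi.comp (measurable_add_const _)) _
    _ ≤ K1 + ENNReal.ofReal (2 * B) := by
        refine add_le_add ?_ ?_
        · refine (setLIntegral_le_lintegral _ _).trans ?_
          rw [lintegral_add_right_eq_self ((Icc (-1 : ℝ) 1).indicator ph) (c / x),
            lintegral_indicator measurableSet_Icc]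
          exact le_rfl
        · rw [setLIntegral_one, Real.volume_Icc]
          refine ENNReal.ofReal_le_ofReal (le_of_eq ?_)
          ring

/-- the box -/
def Bx (d : ℕ) (B : ℝ) : Set (Fin d → ℝ) := Set.univ.pi fun _ => Icc (-B) B

theorem measurableSet_Bx (d : ℕ) (B : ℝ) : MeasurableSet (Bx d B) :=
  MeasurableSet.univ_pi fun _ => measurableSet_Icc

/-- the constant -/
noncomputable def CB (n : ℕ) (B : ℝ) : ℝ≥0∞ :=
  (K1 + ENNReal.ofReal (2 * B)) * ENNReal.ofReal (2 * B) ^ n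

theorem CB_lt (n : ℕ) (B : ℝ) : CB n B < ∞ := by
  unfold CB
  refine ENNReal.mul_lt_top (ENNReal.add_lt_top.2 ⟨K1_lt, ENNReal.ofReal_lt_top⟩) ?_
  exact ENNReal.pow_lt_top ENNReal.ofReal_lt_top

theorem box (n : ℕ) (B : ℝ) (h : Fin (n + 1) → ℝ) (j : Fin (n + 1)) (hj : h j ≠ 0) :
    ∫⁻ v in Bx (n + 1) B, ph (∑ i, h i * v i) ≤ ph (h j) * CB n B := by
  unfold Bx
  rw [volume_pi, Measure.restrict_pi_pi]
  set μ : Measure ℝ := (volume : Measure ℝ).restrict (Icc (-B) B) with hμ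
  have hF : Measurable fun v : Fin (n + 1) → ℝ => ph (∑ i, h i * v i) :=
    measurable_ph.comp (by fun_prop)
  rw [← ((measurePreserving_piFinSuccAbove (fun _ : Fin (n + 1) => μ) j).symm).lintegral_comp_emb
    (MeasurableEquiv.measurableEmbedding _)]
  have e : ∀ p : ℝ × (Fin n → ℝ),
      ph (∑ i, h i * ((MeasurableEquiv.piFinSuccAbove (fun _ => ℝ) j).symm p) i) =
        ph (h j * p.1 + ∑ i, h (j.succAbove i) * p.2 i) := by
    intro p
    congr 1
    rw [Fin.sum_univ_succAbove _ j]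
    simp only [MeasurableEquiv.piFinSuccAbove_symm_apply, Fin.insertNthEquiv_apply,
      Fin.insertNth_apply_same, Fin.insertNth_apply_succAbove]
  rw [lintegral_congr e, lintegral_prod_symm]
  · calc ∫⁻ w, ∫⁻ x, ph (h j * x + ∑ i, h (j.succAbove i) * w i) ∂μ
          ∂(Measure.pi fun _ : Fin n => μ)
        ≤ ∫⁻ _w, ph (h j) * (K1 + ENNReal.ofReal (2 * B)) ∂(Measure.pi fun _ : Fin n => μ) :=
          lintegral_mono fun w => line B (h j) _ hj
      _ = ph (h j) * CB n B := by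
          rw [lintegral_const, Measure.pi_univ, Finset.prod_const, Finset.card_univ,
            Fintype.card_fin, hμ, Measure.restrict_apply_univ, Real.volume_Icc, CB, mul_assoc]
          congr 4
          ring
  · have : Measurable fun p : ℝ × (Fin n → ℝ) =>
        ph (h j * p.1 + ∑ i, h (j.succAbove i) * p.2 i) := measurable_ph.comp (by fun_prop)
    exact this.aemeasurable

/-! ### the weights -/

theorem tsum_fin_pi (f : ℤ → ℝ≥0∞) : ∀ n : ℕ,
    ∑' h : Fin n → ℤ, ∏ j, f (h j) = (∑' k, f k) ^ n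
  | 0 => by
    rw [tsum_eq_single (fun j => Fin.elim0 j) (fun b hb => absurd (Subsingleton.elim _ _) hb)]
    simp
  | n + 1 => by
    rw [← (Fin.consEquiv fun _ : Fin (n + 1) => ℤ).tsum_eq, ENNReal.tsum_prod']
    have e : ∀ (a : ℤ) (b : Fin n → ℤ),
        ∏ j, f ((Fin.consEquiv fun _ : Fin (n + 1) => ℤ) (a, b) j) = f a * ∏ j, f (b j) := by
      intro a b
      rw [Fin.prod_univ_succ]
      rfl
    simp only [e]
    simp only [ENNReal.tsum_mul_left]
    rw [ENNReal.tsum_mul_right, tsum_fin_pi f n, pow_succ']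

/-- the factor of the weight -/
noncomputable def ff (ε : ℝ) (k : ℤ) : ℝ≥0∞ := ENNReal.ofReal ((1 + |(k : ℝ)|) ^ (-(1 + ε)))

theorem ff_fin (ε : ℝ) (hε : 0 < ε) : ∑' k, ff ε k < ∞ := by
  have h1 : Summable fun k : ℤ => (1 + |(k : ℝ)|) ^ (-(1 + ε)) := by
    have h2 : Summable fun k : ℤ => |(k : ℝ)| ^ (-(1 + ε)) := by
      rw [summable_int_iff_summable_nat_and_neg]
      have h3 : Summable fun k : ℕ => (k : ℝ) ^ (-(1 + ε)) :=
        Real.summable_nat_rpow.2 (by linarith)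
      constructor
      · simpa using h3
      · simpa using h3
    have h4 : Summable fun k : ℤ => |(k : ℝ)| ^ (-(1 + ε)) + (if k = 0 then (1 : ℝ) else 0) :=
      h2.add (summable_of_ne_finset_zero (s := {0}) fun k hk => by
        rw [if_neg (by simpa using hk)])
    refine Summable.of_nonneg_of_le (fun k => by positivity) (fun k => ?_) h4
    by_cases hk : k = 0
    · subst hk
      simp
      positivity
    · rw [if_neg hk, add_zero]
      have hk' : 0 < |(k : ℝ)| := abs_pos.2 (by exact_mod_cast hk)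
      exact Real.rpow_le_rpow_of_nonpos hk' (by linarith) (by linarith)
  unfold ff
  rw [← ENNReal.ofReal_tsum_of_nonneg (fun k => by positivity) h1]
  exact ENNReal.ofReal_lt_top

/-- the sum norm -/
noncomputable def n1 {d : ℕ} (h : Fin d → ℤ) : ℝ := ∑ j, |(h j : ℝ)|

theorem n1_nonneg {d : ℕ} (h : Fin d → ℤ) : 0 ≤ n1 h := Finset.sum_nonneg fun _ _ => abs_nonneg _

/-- the weight -/
noncomputable def wg {d : ℕ} (ε : ℝ) (h : Fin d → ℤ) : ℝ≥0∞ :=
  ENNReal.ofReal (n1 h ^ (1 / 2 : ℝ)) * ∏ j, ff ε (h j)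

/-- the weighted sum -/
noncomputable def TT (d : ℕ) (ε : ℝ) (v : Fin d → ℝ) : ℝ≥0∞ :=
  ∑' h : Fin d → ℤ, wg ε h * ph (∑ j, (h j : ℝ) * v j)

theorem measurable_TT (d : ℕ) (ε : ℝ) : Measurable (TT d ε) := by
  unfold TT
  refine Measurable.ennreal_tsum fun h => ?_
  exact (measurable_ph.comp (by fun_prop)).const_mul _

theorem exists_max {n : ℕ} (h : Fin (n + 1) → ℤ) (hh : h ≠ 0) :
    ∃ j, h j ≠ 0 ∧ ∀ i, |(h i : ℝ)| ≤ |(h j : ℝ)| := by
  obtain ⟨j, hj⟩ := Finite.exists_max fun i => |(h i : ℝ)|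
  refine ⟨j, fun h0 => hh ?_, hj⟩
  ext i
  have h1 := hj i
  rw [h0] at h1
  simp only [Int.cast_zero, abs_zero] at h1
  have h2 : (h i : ℝ) = 0 := abs_eq_zero.1 (le_antisymm h1 (abs_nonneg _))
  exact_mod_cast h2

theorem n1_le {n : ℕ} (h : Fin (n + 1) → ℤ) (j : Fin (n + 1))
    (hj : ∀ i, |(h i : ℝ)| ≤ |(h j : ℝ)|) : n1 h ≤ (n + 1) * |(h j : ℝ)| := by
  unfold n1
  refine (Finset.sum_le_sum fun i _ => hj i).trans ?_
  rw [Finset.sum_const, Finset.card_univ, Fintype.card_fin, nsmul_eq_mul]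
  push_cast
  exact le_rfl

theorem term (n : ℕ) (ε B : ℝ) (h : Fin (n + 1) → ℤ) :
    wg ε h * ∫⁻ v in Bx (n + 1) B, ph (∑ j, (h j : ℝ) * v j) ≤
      (∏ j, ff ε (h j)) * (ENNReal.ofReal ((n + 1 : ℝ) ^ (1 / 2 : ℝ)) * CB n B) := by
  by_cases hh : h = 0
  · have : wg ε h = 0 := by
      unfold wg n1
      rw [hh]
      simp
    rw [this, zero_mul]
    exact zero_le
  · obtain ⟨j, hj0, hj⟩ := exists_max h hh
    have hj0' : (h j : ℝ) ≠ 0 := by exact_mod_cast hj0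
    have h1 := box n B (fun i => (h i : ℝ)) j hj0'
    have h2 := n1_le h j hj
    have hp : 0 < |(h j : ℝ)| := abs_pos.2 hj0'
    have h3 : ENNReal.ofReal (n1 h ^ (1 / 2 : ℝ)) * ph (h j : ℝ) ≤
        ENNReal.ofReal ((n + 1 : ℝ) ^ (1 / 2 : ℝ)) := by
      rw [ph_eq hj0', ← ENNReal.ofReal_mul (Real.rpow_nonneg (n1_nonneg h) _)]
      refine ENNReal.ofReal_le_ofReal ?_
      calc n1 h ^ (1 / 2 : ℝ) * |(h j : ℝ)| ^ (-(1 / 2) : ℝ)
          ≤ ((n + 1) * |(h j : ℝ)|) ^ (1 / 2 : ℝ) * |(h j : ℝ)| ^ (-(1 / 2) : ℝ) :=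
            mul_le_mul_of_nonneg_right (Real.rpow_le_rpow (n1_nonneg h) h2 (by norm_num))
              (Real.rpow_nonneg hp.le _)
        _ = (n + 1 : ℝ) ^ (1 / 2 : ℝ) := by
            rw [Real.mul_rpow (by positivity) hp.le, mul_assoc, ← Real.rpow_add hp]
            norm_num
    calc wg ε h * ∫⁻ v in Bx (n + 1) B, ph (∑ j, (h j : ℝ) * v j)
        ≤ wg ε h * (ph (h j : ℝ) * CB n B) := mul_le_mul' le_rfl h1
      _ = (∏ j, ff ε (h j)) * ((ENNReal.ofReal (n1 h ^ (1 / 2 : ℝ)) * ph (h j : ℝ)) * CB n B) := by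
          unfold wg
          ring
      _ ≤ _ := mul_le_mul' le_rfl (mul_le_mul' h3 le_rfl)

theorem TT_int (n : ℕ) (ε B : ℝ) (hε : 0 < ε) : ∫⁻ v in Bx (n + 1) B, TT (n + 1) ε v < ∞ := by
  unfold TT
  rw [lintegral_tsum]
  · have e : ∀ h : Fin (n + 1) → ℤ,
        ∫⁻ v in Bx (n + 1) B, wg ε h * ph (∑ j, (h j : ℝ) * v j) =
          wg ε h * ∫⁻ v in Bx (n + 1) B, ph (∑ j, (h j : ℝ) * v j) := fun h =>
      lintegral_const_mul _ (measurable_ph.comp (by fun_prop))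
    simp only [e]
    refine lt_of_le_of_lt (ENNReal.tsum_le_tsum fun h => term n ε B h) ?_
    rw [ENNReal.tsum_mul_right, tsum_fin_pi (ff ε) (n + 1)]
    refine ENNReal.mul_lt_top (ENNReal.pow_lt_top (ff_fin ε hε)) ?_
    exact ENNReal.mul_lt_top ENNReal.ofReal_lt_top (CB_lt n B)
  · intro h
    exact ((measurable_ph.comp (by fun_prop)).const_mul _).aemeasurable

/-! ### the bound -/

theorem wg_pos {d : ℕ} (ε : ℝ) (h : Fin d → ℤ) (hh : h ≠ 0) : wg ε h ≠ 0 := by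
  unfold wg
  refine mul_ne_zero ?_ ?_
  · have : 0 < n1 h := by
      obtain ⟨j, hj⟩ := Function.ne_iff.1 hh
      have hj' : 0 < |(h j : ℝ)| := abs_pos.2 (by exact_mod_cast hj)
      exact lt_of_lt_of_le hj' (Finset.single_le_sum (f := fun j => |(h j : ℝ)|)
        (fun i _ => abs_nonneg _) (Finset.mem_univ j))
    exact (ENNReal.ofReal_pos.2 (Real.rpow_pos_of_pos this _)).ne'
  · refine Finset.prod_ne_zero_iff.2 fun j _ => ?_
    unfold ff
    exact (ENNReal.ofReal_pos.2 (by positivity)).ne'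

theorem nonzero {d : ℕ} {ε : ℝ} {v : Fin d → ℝ} (hT : TT d ε v < ∞) (h : Fin d → ℤ)
    (hh : h ≠ 0) : ∑ j, (h j : ℝ) * v j ≠ 0 := by
  intro h0
  have h1 : wg ε h * ph (∑ j, (h j : ℝ) * v j) ≤ TT d ε v :=
    ENNReal.le_tsum (f := fun h : Fin d → ℤ => wg ε h * ph (∑ j, (h j : ℝ) * v j)) h
  rw [h0, ph_zero, ENNReal.mul_top (wg_pos ε h hh)] at h1
  exact absurd (lt_of_le_of_lt h1 hT) (lt_irrefl _)

theorem weight {n : ℕ} (ε : ℝ) (hε : 0 < ε) (H : ℕ) (h : Fin (n + 1) → ℤ) (hh : h ≠ 0)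
    (hH : ∀ j, -(H : ℤ) < h j ∧ h j < H) :
    1 ≤ ENNReal.ofReal (2 * (H : ℝ) ^ ((n + 1 : ℝ) - 1 / 2 + (n + 1) * ε)) * wg ε h := by
  obtain ⟨j, hj0, hj⟩ := exists_max h hh
  have hj1 : 1 ≤ |(h j : ℝ)| := by
    have : (1 : ℤ) ≤ |h j| := Int.one_le_abs hj0
    exact_mod_cast this
  have hHj : 1 + |(h j : ℝ)| ≤ H := by
    have : |h j| < H := abs_lt.2 (hH j)
    have h2 : 1 + |h j| ≤ H := by omega
    exact_mod_cast h2
  set m : ℝ := |(h j : ℝ)| with hm
  have hH0 : (0 : ℝ) < H := by linarith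
  have hmn : m ≤ n1 h := Finset.single_le_sum (f := fun j => |(h j : ℝ)|)
        (fun i _ => abs_nonneg _) (Finset.mem_univ j)
  unfold wg ff
  rw [← ENNReal.ofReal_prod_of_nonneg fun j _ => by positivity,
    ← ENNReal.ofReal_mul (Real.rpow_nonneg (n1_nonneg h) _), ← ENNReal.ofReal_mul (by positivity),
    ← ENNReal.ofReal_one]
  refine ENNReal.ofReal_le_ofReal ?_
  have h1 : (1 + m) ^ (-(((n + 1 : ℕ) : ℝ) * (1 + ε))) ≤ ∏ i, (1 + |(h i : ℝ)|) ^ (-(1 + ε)) := by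
    have h2 : ∏ _i : Fin (n + 1), (1 + m) ^ (-(1 + ε)) ≤ ∏ i, (1 + |(h i : ℝ)|) ^ (-(1 + ε)) := by
      refine Finset.prod_le_prod (fun i _ => by positivity) fun i _ => ?_
      exact Real.rpow_le_rpow_of_nonpos (by positivity) (by linarith [hj i]) (by linarith)
    refine le_trans (le_of_eq ?_) h2
    rw [Finset.prod_const, Finset.card_univ, Fintype.card_fin, ← Real.rpow_natCast,
      ← Real.rpow_mul (by positivity)]
    congr 1
    ring
  have h3 : m ^ (1 / 2 : ℝ) ≤ n1 h ^ (1 / 2 : ℝ) :=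
    Real.rpow_le_rpow (by linarith) hmn (by norm_num)
  have h4 : (1 + m) ^ ((n + 1 : ℝ) - 1 / 2 + (n + 1) * ε) ≤
      (H : ℝ) ^ ((n + 1 : ℝ) - 1 / 2 + (n + 1) * ε) := by
    refine Real.rpow_le_rpow (by linarith) hHj ?_
    have : (0 : ℝ) ≤ n := Nat.cast_nonneg n
    nlinarith
  have hp : (0 : ℝ) < 1 + m := by linarith
  have h5 : (1 + m) ^ (1 / 2 : ℝ) ≤ 2 * m ^ (1 / 2 : ℝ) := by
    calc (1 + m) ^ (1 / 2 : ℝ) ≤ (4 * m) ^ (1 / 2 : ℝ) :=
          Real.rpow_le_rpow hp.le (by linarith) (by norm_num)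
      _ = 2 * m ^ (1 / 2 : ℝ) := by
          rw [Real.mul_rpow (by norm_num) (by linarith)]
          congr 1
          rw [show (4 : ℝ) = 2 ^ (2 : ℝ) by norm_num, ← Real.rpow_mul (by norm_num)]
          norm_num
  calc (1 : ℝ) = (1 + m) ^ ((n + 1 : ℝ) - 1 / 2 + (n + 1) * ε) *
        ((1 + m) ^ (1 / 2 : ℝ) * (1 + m) ^ (-(((n + 1 : ℕ) : ℝ) * (1 + ε)))) := by
        rw [← Real.rpow_add hp, ← Real.rpow_add hp]
        have : (n + 1 : ℝ) - 1 / 2 + (n + 1) * ε +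
          (1 / 2 + -(((n + 1 : ℕ) : ℝ) * (1 + ε))) = 0 := by
          push_cast
          ring
        rw [this, Real.rpow_zero]
    _ ≤ (H : ℝ) ^ ((n + 1 : ℝ) - 1 / 2 + (n + 1) * ε) * ((2 * m ^ (1 / 2 : ℝ)) *
        (1 + m) ^ (-(((n + 1 : ℕ) : ℝ) * (1 + ε)))) := by
        refine mul_le_mul h4 (mul_le_mul_of_nonneg_right h5 (by positivity)) (by positivity)
          (by positivity)
    _ ≤ (H : ℝ) ^ ((n + 1 : ℝ) - 1 / 2 + (n + 1) * ε) * ((2 * n1 h ^ (1 / 2 : ℝ)) *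
        ∏ i, (1 + |(h i : ℝ)|) ^ (-(1 + ε))) := by
        refine mul_le_mul_of_nonneg_left ?_ (by positivity)
        refine mul_le_mul (by linarith) h1 (by positivity) ?_
        have := Real.rpow_nonneg (n1_nonneg h) (1 / 2 : ℝ)
        positivity
    _ = _ := by ring

theorem final {n : ℕ} (ε : ℝ) (hε : 0 < ε) (v : Fin (n + 1) → ℝ) (hT : TT (n + 1) ε v < ∞)
    (H : ℕ) :
    ∑ h ∈ Fintype.piFinset (fun _ : Fin (n + 1) => Finset.Ioo (-(H : ℤ)) H),
        |∑ j, (h j : ℝ) * v j| ^ (-(1 / 2) : ℝ) ≤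
      2 * (TT (n + 1) ε v).toReal * (H : ℝ) ^ ((n + 1 : ℝ) - 1 / 2 + (n + 1) * ε) := by
  have hR : 0 ≤ 2 * (TT (n + 1) ε v).toReal * (H : ℝ) ^ ((n + 1 : ℝ) - 1 / 2 + (n + 1) * ε) :=
    mul_nonneg (mul_nonneg (by norm_num) ENNReal.toReal_nonneg) (by positivity)
  rw [← ENNReal.ofReal_le_ofReal_iff hR,
    ENNReal.ofReal_sum_of_nonneg fun h _ => Real.rpow_nonneg (abs_nonneg _) _]
  have e : ENNReal.ofReal (2 * (TT (n + 1) ε v).toReal *
      (H : ℝ) ^ ((n + 1 : ℝ) - 1 / 2 + (n + 1) * ε)) =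
      ENNReal.ofReal (2 * (H : ℝ) ^ ((n + 1 : ℝ) - 1 / 2 + (n + 1) * ε)) * TT (n + 1) ε v := by
    rw [show 2 * (TT (n + 1) ε v).toReal * (H : ℝ) ^ ((n + 1 : ℝ) - 1 / 2 + (n + 1) * ε) =
      (2 * (H : ℝ) ^ ((n + 1 : ℝ) - 1 / 2 + (n + 1) * ε)) * (TT (n + 1) ε v).toReal by ring,
      ENNReal.ofReal_mul (by positivity), ENNReal.ofReal_toReal hT.ne]
  rw [e]
  refine le_trans (Finset.sum_le_sum (g := fun h : Fin (n + 1) → ℤ =>
    ENNReal.ofReal (2 * (H : ℝ) ^ ((n + 1 : ℝ) - 1 / 2 + (n + 1) * ε)) *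
      (wg ε h * ph (∑ j, (h j : ℝ) * v j))) fun h hh => ?_) ?_
  · by_cases h0 : h = 0
    · subst h0
      simp only [Pi.zero_apply, Int.cast_zero, zero_mul, Finset.sum_const_zero, abs_zero]
      rw [Real.zero_rpow (by norm_num), ENNReal.ofReal_zero]
      exact zero_le
    · have h1 := weight ε hε H h h0 fun j => Finset.mem_Ioo.1 (Fintype.mem_piFinset.1 hh j)
      rw [← ph_eq (nonzero hT h h0), ← mul_assoc]
      calc ph (∑ j, (h j : ℝ) * v j) = 1 * ph (∑ j, (h j : ℝ) * v j) := (one_mul _).symm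
        _ ≤ _ := mul_le_mul' h1 le_rfl
  · rw [← Finset.mul_sum]
    refine mul_le_mul' le_rfl ?_
    exact ENNReal.sum_le_tsum _

/-- **Module AE2.** -/
theorem s_ae2 : S_AE2 := by
  intro d hd
  obtain ⟨n, rfl⟩ : ∃ k, d = k + 1 := ⟨d - 1, by omega⟩
  have key : ∀ m : ℕ, ∀ᵐ v : Fin (n + 1) → ℝ, v ∈ Bx (n + 1) m →
      TT (n + 1) (1 / ((m : ℝ) + 1)) v < ∞ := by
    intro m
    have hm : (0 : ℝ) ≤ m := Nat.cast_nonneg m
    rw [← ae_restrict_iff' (measurableSet_Bx _ _)]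
    exact ae_lt_top (measurable_TT _ _) (TT_int n _ m (by positivity)).ne
  filter_upwards [ae_all_iff.2 key] with v hv
  have hmem : ∀ m : ℕ, ∑ j, |v j| ≤ m → v ∈ Bx (n + 1) m := by
    intro m hm j _
    have h1 : |v j| ≤ ∑ j, |v j| :=
      Finset.single_le_sum (f := fun j => |v j|) (fun i _ => abs_nonneg _) (Finset.mem_univ j)
    exact abs_le.1 (h1.trans hm)
  constructor
  · intro h hh
    obtain ⟨m, hm⟩ := exists_nat_ge (∑ j, |v j|)
    exact nonzero (hv m (hmem m hm)) h hh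
  · intro ε hε
    obtain ⟨m, hm⟩ := exists_nat_ge (∑ j, |v j| + (n + 1 : ℝ) / ε)
    have h0 : 0 < (n + 1 : ℝ) / ε := by positivity
    have hs : 0 ≤ ∑ j, |v j| := Finset.sum_nonneg fun j _ => abs_nonneg _
    have hT := hv m (hmem m (by linarith))
    have hm0 : (0 : ℝ) ≤ m := Nat.cast_nonneg m
    refine ⟨2 * (TT (n + 1) (1 / ((m : ℝ) + 1)) v).toReal,
      mul_nonneg (by norm_num) ENNReal.toReal_nonneg, fun H hH => ?_⟩
    refine (final (1 / ((m : ℝ) + 1)) (by positivity) v hT H).trans ?_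
    refine mul_le_mul_of_nonneg_left ?_ (mul_nonneg (by norm_num) ENNReal.toReal_nonneg)
    have hH' : (1 : ℝ) ≤ H := by exact_mod_cast hH
    refine Real.rpow_le_rpow_of_exponent_le hH' ?_
    have h5 : (n + 1 : ℝ) * (1 / ((m : ℝ) + 1)) ≤ ε := by
      rw [mul_one_div, div_le_iff₀ (by positivity)]
      have h6 : (n + 1 : ℝ) / ε ≤ m + 1 := by linarith
      rw [div_le_iff₀ hε] at h6
      linarith
    push_cast
    linarith

end Pool.Agent.Helper73.SC.AE2
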