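import Pool.Agent.Helper73.SC.Stm

set_option autoImplicit false

/-!
# Module BOX of project SC: a sum over a box through the Fourier integral (helper80)
-/

namespace Pool.Agent.Helper73.SC.BOX

open MeasureTheory Finset

theorem nd_nonneg (y : ℝ) : 0 ≤ nd y := abs_nonneg _

theorem measurable_nd : Measurable nd := by
  have : nd = fun y => min (Int.fract y) (1 - Int.fract y) :=
    funext fun y => abs_sub_round_eq_min y
  rw [this]
  exact measurable_fract.min (measurable_const.sub measurable_fract)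

theorem DN_pos {N : ℝ} (hN : 1 ≤ N) (y : ℝ) : 0 < max N⁻¹ (nd y) :=
  lt_of_lt_of_le (inv_pos.2 (by linarith)) (le_max_left _ _)

theorem DN_nonneg {N : ℝ} (hN : 1 ≤ N) (y : ℝ) : 0 ≤ DN N y := (inv_pos.2 (DN_pos hN y)).le

theorem DN_le {N : ℝ} (hN : 1 ≤ N) (y : ℝ) : DN N y ≤ N := by
  unfold DN
  have h : (max N⁻¹ (nd y))⁻¹ ≤ (N⁻¹)⁻¹ := inv_anti₀ (inv_pos.2 (by linarith)) (le_max_left _ _)
  rwa [inv_inv] at h

theorem measurable_DN (N : ℝ) : Measurable (DN N) := by
  unfold DN
  exact (measurable_const.max measurable_nd).inv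

/-! ### the exponential -/

theorem ex_add (x y : ℝ) : ex (x + y) = ex x * ex y := by
  unfold ex
  rw [← Complex.exp_add]
  congr 1
  push_cast
  ring

theorem ex_zero : ex 0 = 1 := by
  unfold ex
  simp

theorem norm_ex (x : ℝ) : ‖ex x‖ = 1 := by
  unfold ex
  have e : (2 * Real.pi * Complex.I * x : ℂ) = ((2 * Real.pi * x : ℝ) : ℂ) * Complex.I := by
    push_cast
    ring
  rw [e, Complex.norm_exp_ofReal_mul_I]

theorem continuous_ex : Continuous ex := by
  unfold ex
  fun_prop

theorem ex_int (n : ℤ) : ex n = 1 := by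
  unfold ex
  have e : (2 * Real.pi * Complex.I * ((n : ℝ) : ℂ) : ℂ) = n * (2 * Real.pi * Complex.I) := by
    push_cast
    ring
  rw [e]
  exact Complex.exp_int_mul_two_pi_mul_I n

theorem ex_sum {ι : Type} (s : Finset ι) (f : ι → ℝ) : ex (∑ i ∈ s, f i) = ∏ i ∈ s, ex (f i) := by
  classical
  induction s using Finset.induction_on with
  | empty => simp [ex_zero]
  | insert a s ha ih => rw [sum_insert ha, prod_insert ha, ex_add, ih]

/-- `4 ‖y‖ ≤ |e(y) - 1|` -/
theorem four_nd_le (y : ℝ) : 4 * nd y ≤ ‖ex y - 1‖ := by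
  have h1 : ex y = ex (y - round y) := by
    have e : y = (y - round y) + ((round y : ℤ) : ℝ) := by ring
    conv_lhs => rw [e]
    rw [ex_add, ex_int, mul_one]
  set z := y - round y with hz
  have hz2 : |z| ≤ 1 / 2 := abs_sub_round y
  have h2 : ‖ex z - 1‖ = 2 * |Real.sin (Real.pi * z)| := by
    unfold ex
    have e : (2 * Real.pi * Complex.I * z : ℂ) = Complex.I * ((2 * Real.pi * z : ℝ) : ℂ) := by
      push_cast
      ring
    rw [e, Complex.norm_exp_I_mul_ofReal_sub_one]
    have e2 : 2 * Real.pi * z / 2 = Real.pi * z := by ring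
    rw [e2, norm_mul]
    simp
  rw [h1, h2]
  have h3 : 2 * |z| ≤ |Real.sin (Real.pi * z)| := by
    have h4 : |Real.sin (Real.pi * z)| = Real.sin (Real.pi * |z|) := by
      rcases le_total 0 z with h | h
      · rw [abs_of_nonneg h, abs_of_nonneg]
        apply Real.sin_nonneg_of_nonneg_of_le_pi
        · positivity
        · rw [abs_of_nonneg h] at hz2
          nlinarith [Real.pi_pos]
      · rw [abs_of_nonpos h, abs_of_nonpos, mul_neg, Real.sin_neg]
        rw [abs_of_nonpos h] at hz2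
        apply Real.sin_nonpos_of_nonpos_of_neg_pi_le
        · nlinarith [Real.pi_pos]
        · nlinarith [Real.pi_pos]
    rw [h4]
    have h5 := Real.mul_le_sin (x := Real.pi * |z|) (by positivity) (by nlinarith [Real.pi_pos])
    have e : 2 / Real.pi * (Real.pi * |z|) = 2 * |z| := by
      field_simp
    rwa [e] at h5
  show 4 * |z| ≤ _
  linarith

/-- a geometric sum -/
theorem geom (a b : ℤ) (y : ℝ) :
    ‖∑ m ∈ Finset.Ico a b, ex ((m : ℝ) * y)‖ * ‖ex y - 1‖ ≤ 2 := by
  rcases le_total b a with h | h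
  · rw [Finset.Ico_eq_empty (by omega)]
    simp
  · have h1 : ∀ n : ℕ, (∑ m ∈ Finset.Ico a (a + n), ex ((m : ℝ) * y)) * (ex y - 1) =
        ex (((a + n : ℤ) : ℝ) * y) - ex ((a : ℝ) * y) := by
      intro n
      induction n with
      | zero => simp
      | succ n ih =>
        have e : Finset.Ico a (a + (n + 1 : ℕ)) = insert (a + (n : ℤ)) (Finset.Ico a (a + n)) := by
          ext x
          simp only [mem_Ico, mem_insert]
          push_cast
          omega
        rw [e, sum_insert (by simp), add_mul, ih, mul_sub, mul_one, ← ex_add]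
        have e2 : ((a + n : ℤ) : ℝ) * y + y = ((a + (n + 1 : ℕ) : ℤ) : ℝ) * y := by
          push_cast
          ring
        rw [e2]
        ring
    have h2 := h1 (b - a).toNat
    have e : a + ((b - a).toNat : ℤ) = b := by omega
    rw [e] at h2
    rw [← norm_mul, h2]
    refine (norm_sub_le _ _).trans ?_
    rw [norm_ex, norm_ex]
    norm_num

theorem norm_sum_le_card (s : Finset ℤ) (y : ℝ) (M : ℕ) (h : s.card ≤ M) :
    ‖∑ m ∈ s, ex ((m : ℝ) * y)‖ ≤ M := by
  refine (norm_sum_le _ _).trans ?_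
  simp only [norm_ex, sum_const, nsmul_eq_mul, mul_one]
  exact_mod_cast h

theorem norm_sum_le_DN (a b : ℤ) (y : ℝ) (M : ℕ) (hM : 1 ≤ M) (h : b - a ≤ M) :
    ‖∑ m ∈ Finset.Ico a b, ex ((m : ℝ) * y)‖ ≤ DN M y := by
  have hM' : (1 : ℝ) ≤ M := by exact_mod_cast hM
  have h1 : ‖∑ m ∈ Finset.Ico a b, ex ((m : ℝ) * y)‖ ≤ M := by
    apply norm_sum_le_card
    rw [Int.card_Ico]
    omega
  have h2 := geom a b y
  have h3 := four_nd_le y
  unfold DN
  rw [inv_eq_one_div, le_div_iff₀ (DN_pos hM' y)]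
  rcases max_choice ((M : ℝ)⁻¹) (nd y) with h4 | h4
  · rw [h4]
    calc ‖∑ m ∈ Finset.Ico a b, ex ((m : ℝ) * y)‖ * (M : ℝ)⁻¹ ≤ M * (M : ℝ)⁻¹ :=
          mul_le_mul_of_nonneg_right h1 (by positivity)
      _ = 1 := mul_inv_cancel₀ (by positivity)
  · rw [h4]
    have h5 : ‖∑ m ∈ Finset.Ico a b, ex ((m : ℝ) * y)‖ * (4 * nd y) ≤ 2 :=
      (mul_le_mul_of_nonneg_left h3 (norm_nonneg _)).trans h2
    linarith

theorem s_box : S_BOX := by
  classical
  intro r d τ hτ A M h a w g hM hg hgc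
  have hM' : (1 : ℝ) ≤ M := by exact_mod_cast hM
  set I : Fin r → Finset ℤ := fun j => Finset.Ico (max (A j) (A j - ext τ h j))
    (min (A j + M) (A j + M - ext τ h j)) with hI
  have hQ : (box A M).filter (fun m => m + ext τ h ∈ box A M) = Fintype.piFinset I := by
    ext m
    simp only [box, mem_filter, Fintype.mem_piFinset, Pi.add_apply, hI, mem_Ico, ← forall_and]
    refine forall_congr' fun j => ?_
    rw [max_le_iff, lt_min_iff]
    constructor
    · rintro ⟨⟨h1, h2⟩, h3, h4⟩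
      refine ⟨⟨h1, by linarith⟩, h2, by linarith⟩
    · rintro ⟨⟨h1, h2⟩, h3, h4⟩
      refine ⟨⟨h1, h3⟩, by linarith, by linarith⟩
  have hIle : ∀ j, min (A j + M) (A j + M - ext τ h j) - max (A j) (A j - ext τ h j) ≤ M := by
    intro j
    have h1 := min_le_left (A j + M) (A j + M - ext τ h j)
    have h2 := le_max_left (A j) (A j - ext τ h j)
    linarith
  -- the pointwise bound
  have hpt : ∀ ξ : ℝ, ‖∑ m ∈ Fintype.piFinset I, ex ((a + ∑ j, (m j : ℝ) * w j) * ξ)‖ ≤
      (M : ℝ) ^ (r - d) * ∏ i, DN M (w (τ i) * ξ) := by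
    intro ξ
    have h1 : ∑ m ∈ Fintype.piFinset I, ex ((a + ∑ j, (m j : ℝ) * w j) * ξ) =
        ex (a * ξ) * ∏ j, ∑ m ∈ I j, ex ((m : ℝ) * (w j * ξ)) := by
      rw [Finset.prod_univ_sum, mul_sum]
      refine sum_congr rfl fun m _ => ?_
      rw [← ex_sum, ← ex_add, add_mul, sum_mul]
      congr 2
      exact sum_congr rfl fun j _ => mul_assoc _ _ _
    rw [h1, norm_mul, norm_ex, one_mul, norm_prod]
    have h2 : ∀ j ∈ (univ : Finset (Fin r)), ‖∑ m ∈ I j, ex ((m : ℝ) * (w j * ξ))‖ ≤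
        if j ∈ univ.image τ then DN M (w j * ξ) else (M : ℝ) := by
      intro j _
      split_ifs
      · exact norm_sum_le_DN _ _ _ _ hM (hIle j)
      · apply norm_sum_le_card
        rw [hI, Int.card_Ico]
        have := hIle j
        omega
    refine (prod_le_prod (fun _ _ => norm_nonneg _) h2).trans (le_of_eq ?_)
    have e1 : (univ.filter fun j : Fin r => j ∈ univ.image τ) = univ.image τ := by
      ext j
      simp
    have e2 : (univ.filter fun j : Fin r => j ∉ univ.image τ).card = r - d := by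
      have h3 := card_filter_add_card_filter_not (s := (univ : Finset (Fin r)))
        (fun j => j ∈ univ.image τ)
      rw [e1, card_image_of_injective _ hτ, card_univ, card_univ, Fintype.card_fin,
        Fintype.card_fin] at h3
      omega
    rw [prod_ite, prod_const, e1, e2, prod_image (fun a _ b _ h => hτ h), mul_comm]
  -- exchange of sum and integral
  have hint : ∀ m : Fin r → ℤ, Integrable fun ξ => g ξ * ex ((a + ∑ j, (m j : ℝ) * w j) * ξ) := by
    intro m
    refine Integrable.mono' hg.norm ?_ (Filter.Eventually.of_forall fun ξ => ?_)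
    · exact (hgc.mul (continuous_ex.comp (continuous_const.mul continuous_id))).aestronglyMeasurable
    · rw [norm_mul, norm_ex, mul_one]
  rw [hQ, ← integral_finsetSum _ fun m _ => hint m]
  refine (norm_integral_le_integral_norm _).trans ?_
  rw [← integral_const_mul]
  have hmeas : Measurable fun ξ : ℝ => ∏ i, DN M (w (τ i) * ξ) :=
    Finset.measurable_prod _ fun i _ => (measurable_DN _).comp (measurable_const.mul measurable_id)
  have hDN : ∀ ξ : ℝ, ∏ i, DN M (w (τ i) * ξ) ≤ (M : ℝ) ^ d := by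
    intro ξ
    refine (prod_le_prod (fun _ _ => DN_nonneg hM' _) fun _ _ => DN_le hM' _).trans ?_
    simp
  have hDN0 : ∀ ξ : ℝ, 0 ≤ ∏ i, DN M (w (τ i) * ξ) := fun ξ =>
    prod_nonneg fun _ _ => DN_nonneg hM' _
  refine integral_mono ?_ ?_ fun ξ => ?_
  · exact (integrable_finsetSum _ fun m _ => hint m).norm
  · refine Integrable.const_mul ?_ _
    refine Integrable.mono' (hg.norm.mul_const ((M : ℝ) ^ d)) ?_
      (Filter.Eventually.of_forall fun ξ => ?_)
    · exact (hgc.norm.measurable.mul hmeas).aestronglyMeasurable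
    · rw [Real.norm_of_nonneg (mul_nonneg (norm_nonneg _) (hDN0 ξ))]
      exact mul_le_mul_of_nonneg_left (hDN ξ) (norm_nonneg _)
  · show ‖∑ m ∈ Fintype.piFinset I, g ξ * ex ((a + ∑ j, (m j : ℝ) * w j) * ξ)‖ ≤
      (M : ℝ) ^ (r - d) * (‖g ξ‖ * ∏ i, DN M (w (τ i) * ξ))
    rw [← mul_sum, norm_mul]
    calc ‖g ξ‖ * ‖∑ m ∈ Fintype.piFinset I, ex ((a + ∑ j, (m j : ℝ) * w j) * ξ)‖
        ≤ ‖g ξ‖ * ((M : ℝ) ^ (r - d) * ∏ i, DN M (w (τ i) * ξ)) :=
          mul_le_mul_of_nonneg_left (hpt ξ) (norm_nonneg _)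
      _ = _ := by ring

end Pool.Agent.Helper73.SC.BOX
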