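import Pool.Agent.Helper73.SC.Vc

set_option autoImplicit false

/-!
# Module FT: the differenced function as a Fourier integral (helper37)
-/



namespace Pool.Agent.Helper73.SC.FT

open MeasureTheory Set
open scoped FourierTransform ContDiff

/-- scaling of the inversion formula -/
theorem scale (N : ℝ) (hN : 0 < N) (F : ℝ → ℂ) (hF : ContDiff ℝ ∞ F) (hs : HasCompactSupport F) :
    Integrable (fun ξ : ℝ => (N : ℂ) * 𝓕 F (N * ξ)) ∧ Continuous (fun ξ : ℝ => (N : ℂ) * 𝓕 F (N * ξ)) ∧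
      ∀ x : ℝ, F (x / N) = ∫ ξ : ℝ, ((N : ℂ) * 𝓕 F (N * ξ)) * ex (x * ξ) := by
  set S : SchwartzMap ℝ ℂ := hs.toSchwartzMap hF with hS
  have e : ((𝓕 S : SchwartzMap ℝ ℂ) : ℝ → ℂ) = 𝓕 F := by
    rw [SchwartzMap.fourier_coe]
    rfl
  have hc : Continuous (𝓕 F) := by rw [← e]; exact (𝓕 S : SchwartzMap ℝ ℂ).continuous
  have hi : Integrable (𝓕 F) := by rw [← e]; exact (𝓕 S : SchwartzMap ℝ ℂ).integrable
  refine ⟨(hi.comp_mul_left' hN.ne').const_mul _, ?_, fun x => ?_⟩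
  · exact continuous_const.mul (hc.comp (continuous_const.mul continuous_id))
  · have h1 : 𝓕⁻ (𝓕 F) (x / N) = F (x / N) := by
      rw [hF.continuous.fourierInv_fourier_eq (hF.continuous.integrable_of_hasCompactSupport hs) hi]
    rw [← h1, Real.fourierInv_eq']
    have h2 := Measure.integral_comp_mul_left
      (fun ξ : ℝ => Complex.exp ((2 * Real.pi * (ξ * (x / N)) : ℝ) * Complex.I) • 𝓕 F ξ) N
    have h3 : ∫ ξ : ℝ, ((N : ℂ) * 𝓕 F (N * ξ)) * ex (x * ξ) =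
        (N : ℂ) * ∫ ξ : ℝ, Complex.exp ((2 * Real.pi * (N * ξ * (x / N)) : ℝ) * Complex.I) • 𝓕 F (N * ξ) := by
      rw [← integral_const_mul]
      refine integral_congr_ae (Filter.Eventually.of_forall fun ξ => ?_)
      simp only [ex, smul_eq_mul]
      have : (2 * Real.pi * (N * ξ * (x / N)) : ℝ) = 2 * Real.pi * (x * ξ) := by
        field_simp
      rw [this]
      push_cast
      have e2 : 2 * (Real.pi : ℂ) * Complex.I * (x * ξ) = 2 * Real.pi * (x * ξ) * Complex.I := by ring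
      rw [e2]
      ring
    rw [h3, h2, abs_inv, abs_of_pos hN]
    have h4 : (N : ℂ) * (N⁻¹ • ∫ y : ℝ, Complex.exp ((2 * Real.pi * (y * (x / N)) : ℝ) * Complex.I) • 𝓕 F y) =
        ∫ y : ℝ, Complex.exp ((2 * Real.pi * (y * (x / N)) : ℝ) * Complex.I) • 𝓕 F y := by
      rw [Complex.real_smul, ← mul_assoc]
      push_cast
      rw [mul_inv_cancel₀ (by exact_mod_cast hN.ne'), one_mul]
    rw [h4]
    refine integral_congr_ae (Filter.Eventually.of_forall fun y => ?_)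
    have e5 : inner ℝ y (x / N) = y * (x / N) := by
      simp [mul_comm]
    simp only [e5]

end Pool.Agent.Helper73.SC.FT



namespace Pool.Agent.Helper73.SC.FT

open MeasureTheory Set
open scoped FourierTransform ContDiff

/-- the cut-off function -/
noncomputable def chi (c₁ c₂ y : ℝ) : ℝ :=
  Real.smoothTransition ((y - 3 * c₁ / 4) * (4 / c₁)) * Real.smoothTransition ((2 * c₂ - y) * (1 / c₂))

theorem chi_smooth (c₁ c₂ : ℝ) : ContDiff ℝ ∞ (chi c₁ c₂) := by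
  unfold chi
  refine ContDiff.mul ?_ ?_
  · exact Real.smoothTransition.contDiff.comp ((contDiff_id.sub contDiff_const).mul contDiff_const)
  · exact Real.smoothTransition.contDiff.comp ((contDiff_const.sub contDiff_id).mul contDiff_const)

theorem chi_one {c₁ c₂ y : ℝ} (h1 : 0 < c₁) (h12 : c₁ < c₂) (ha : c₁ ≤ y) (hb : y ≤ c₂) :
    chi c₁ c₂ y = 1 := by
  have h2 : 0 < c₂ := h1.trans h12
  unfold chi
  rw [Real.smoothTransition.one_of_one_le, Real.smoothTransition.one_of_one_le, one_mul]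
  · rw [mul_one_div, le_div_iff₀ h2]
    linarith
  · rw [mul_div_assoc', le_div_iff₀ h1]
    linarith

theorem chi_zero_left {c₁ c₂ y : ℝ} (h1 : 0 < c₁) (ha : y ≤ 3 * c₁ / 4) : chi c₁ c₂ y = 0 := by
  unfold chi
  rw [Real.smoothTransition.zero_of_nonpos, zero_mul]
  exact mul_nonpos_of_nonpos_of_nonneg (by linarith) (by positivity)

theorem chi_zero_right {c₁ c₂ y : ℝ} (h2 : 0 < c₂) (ha : 2 * c₂ ≤ y) : chi c₁ c₂ y = 0 := by
  unfold chi
  rw [Real.smoothTransition.zero_of_nonpos (x := (2 * c₂ - y) * (1 / c₂)), mul_zero]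
  exact mul_nonpos_of_nonpos_of_nonneg (by linarith) (by positivity)

/-- the function `χ(y) (y (y + β))^(-σ) e^(i t (log y - log (y + β)))` -/
noncomputable def FF (c₁ c₂ β σ t y : ℝ) : ℂ :=
  (chi c₁ c₂ y * Real.exp (-(σ * (Real.log (y + β) + Real.log y))) : ℝ) *
    Complex.exp (Complex.I * ((t * (Real.log y - Real.log (y + β)) : ℝ) : ℂ))

theorem FF_zero {c₁ c₂ β σ t y : ℝ} (h : chi c₁ c₂ y = 0) : FF c₁ c₂ β σ t y = 0 := by
  unfold FF
  rw [h]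
  simp

theorem FF_smooth {c₁ c₂ β : ℝ} (σ t : ℝ) (h1 : 0 < c₁) (hβ : |β| ≤ c₁ / 2) :
    ContDiff ℝ ∞ (FF c₁ c₂ β σ t) := by
  rw [contDiff_iff_contDiffAt]
  intro y
  rcases lt_or_ge y (3 * c₁ / 4) with h | h
  · have : FF c₁ c₂ β σ t =ᶠ[nhds y] fun _ => (0 : ℂ) := by
      filter_upwards [Iio_mem_nhds h] with z hz
      exact FF_zero (chi_zero_left h1 (le_of_lt hz))
    exact contDiffAt_const.congr_of_eventuallyEq this
  · have hβ' := abs_le.mp hβ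
    have hy : y ≠ 0 := by linarith
    have hyβ : y + β ≠ 0 := by have := hβ'.1; intro h0; linarith
    have hl1 : ContDiffAt ℝ ∞ (fun y : ℝ => Real.log y) y := contDiffAt_id.log hy
    have hl2 : ContDiffAt ℝ ∞ (fun y : ℝ => Real.log (y + β)) y :=
      (contDiffAt_id.add contDiffAt_const).log hyβ
    have hA : ContDiffAt ℝ ∞
        (fun y : ℝ => chi c₁ c₂ y * Real.exp (-(σ * (Real.log (y + β) + Real.log y)))) y :=
      (chi_smooth c₁ c₂).contDiffAt.mul (contDiffAt_const.mul (hl2.add hl1)).neg.exp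
    have hB : ContDiffAt ℝ ∞ (fun y : ℝ => t * (Real.log y - Real.log (y + β))) y :=
      contDiffAt_const.mul (hl1.sub hl2)
    unfold FF
    refine ContDiffAt.mul ?_ ?_
    · exact Complex.ofRealCLM.contDiff.contDiffAt.comp y hA
    · exact (contDiffAt_const.mul (Complex.ofRealCLM.contDiff.contDiffAt.comp y hB)).cexp

theorem FF_supp {c₁ c₂ β : ℝ} (σ t : ℝ) (h1 : 0 < c₁) (h12 : c₁ < c₂) :
    HasCompactSupport (FF c₁ c₂ β σ t) := by
  refine HasCompactSupport.intro (isCompact_Icc (a := 3 * c₁ / 4) (b := 2 * c₂)) fun y hy => ?_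
  refine FF_zero ?_
  by_cases h : y < 3 * c₁ / 4
  · exact chi_zero_left h1 h.le
  · refine chi_zero_right (h1.trans h12) ?_
    by_contra h'
    exact hy ⟨not_lt.mp h, (not_le.mp h').le⟩

/-- the value -/
theorem FF_eq {c₁ c₂ β : ℝ} (s : ℂ) (y : ℝ) (h1 : 0 < c₁) (h12 : c₁ < c₂) (hβ : |β| ≤ c₁ / 2)
    (ha : c₁ ≤ y) (hb : y ≤ c₂) :
    FF c₁ c₂ β s.re s.im y = ((y + β : ℝ) : ℂ) ^ (-s) * ((y : ℝ) : ℂ) ^ (-(starRingEnd ℂ) s) := by
  have hβ' := abs_le.mp hβ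
  have hy : 0 < y := by linarith
  have hyβ : 0 < y + β := by have := hβ'.1; linarith
  unfold FF
  rw [chi_one h1 h12 ha hb, one_mul,
    Complex.cpow_def_of_ne_zero (by exact_mod_cast hyβ.ne' : ((y + β : ℝ) : ℂ) ≠ 0),
    Complex.cpow_def_of_ne_zero (by exact_mod_cast hy.ne'), ← Complex.exp_add,
    ← Complex.ofReal_log hyβ.le, ← Complex.ofReal_log hy.le, Complex.ofReal_exp, ← Complex.exp_add]
  congr 1
  have e : s = s.re + s.im * Complex.I := (Complex.re_add_im s).symm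
  have e' : (starRingEnd ℂ) s = s.re - s.im * Complex.I :=
    Complex.ext (by simp) (by simp)
  rw [e']
  conv_rhs => rw [show -s = -(s.re + s.im * Complex.I : ℂ) by rw [← e]]
  push_cast
  ring

end Pool.Agent.Helper73.SC.FT



/-!
# Derivatives and uniform bounds
-/

namespace Pool.Agent.Helper73.SC.FT

open MeasureTheory Set
open scoped FourierTransform ContDiff

/-- a cut-off function with two derivatives -/
structure Bump (c₁ c₂ : ℝ) (X X1 X2 : ℝ → ℝ) : Prop where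
  d1 : ∀ y, HasDerivAt X (X1 y) y
  d2 : ∀ y, HasDerivAt X1 (X2 y) y
  c0 : Continuous X
  c1 : Continuous X1
  c2 : Continuous X2
  z1 : X (5 * c₁ / 8) = 0 ∧ X1 (5 * c₁ / 8) = 0
  z2 : X (3 * c₂) = 0 ∧ X1 (3 * c₂) = 0

theorem bump {c₁ c₂ : ℝ} (h1 : 0 < c₁) (h2 : 0 < c₂) :
    ∃ X1 X2 : ℝ → ℝ, Bump c₁ c₂ (chi c₁ c₂) X1 X2 := by
  have hs := chi_smooth c₁ c₂
  have hs1 : ContDiff ℝ ∞ (deriv (chi c₁ c₂)) := by
    have : ContDiff ℝ (∞ + 1) (chi c₁ c₂) := by simpa using hs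
    exact (contDiff_succ_iff_deriv.mp this).2.2
  have hs2 : ContDiff ℝ ∞ (deriv (deriv (chi c₁ c₂))) := by
    have : ContDiff ℝ (∞ + 1) (deriv (chi c₁ c₂)) := by simpa using hs1
    exact (contDiff_succ_iff_deriv.mp this).2.2
  refine ⟨deriv (chi c₁ c₂), deriv (deriv (chi c₁ c₂)), ?_, ?_, hs.continuous, hs1.continuous,
    hs2.continuous, ⟨chi_zero_left h1 (by linarith), ?_⟩, ⟨chi_zero_right h2 (by linarith), ?_⟩⟩
  · exact fun y => (hs.differentiable (by simp) y).hasDerivAt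
  · exact fun y => (hs1.differentiable (by simp) y).hasDerivAt
  · have : chi c₁ c₂ =ᶠ[nhds (5 * c₁ / 8)] fun _ => (0 : ℝ) := by
      filter_upwards [Iio_mem_nhds (by linarith : 5 * c₁ / 8 < 3 * c₁ / 4)] with z hz
      exact chi_zero_left h1 (le_of_lt hz)
    rw [this.deriv_eq]
    simp
  · have : chi c₁ c₂ =ᶠ[nhds (3 * c₂)] fun _ => (0 : ℝ) := by
      filter_upwards [Ioi_mem_nhds (by linarith : 2 * c₂ < 3 * c₂)] with z hz
      exact chi_zero_right h2 (le_of_lt hz)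
    rw [this.deriv_eq]
    simp

noncomputable def L1 (β y : ℝ) : ℝ := (y + β)⁻¹ + y⁻¹
noncomputable def L2 (β y : ℝ) : ℝ := -((y + β)⁻¹ ^ 2) - y⁻¹ ^ 2
noncomputable def kk (β y : ℝ) : ℝ := (y + β)⁻¹ * y⁻¹
noncomputable def kk1 (β y : ℝ) : ℝ := -(L1 β y * kk β y)
noncomputable def kk2 (β y : ℝ) : ℝ := (L1 β y ^ 2 - L2 β y) * kk β y
noncomputable def E0 (β σ y : ℝ) : ℝ := Real.exp (-(σ * (Real.log (y + β) + Real.log y)))
noncomputable def ww (β τ y : ℝ) : ℝ := 1 - τ * kk β y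

section
variable (X X1 X2 : ℝ → ℝ)
noncomputable def Am (β σ y : ℝ) : ℝ := X y * E0 β σ y
noncomputable def Am1 (β σ y : ℝ) : ℝ := (X1 y - σ * X y * L1 β y) * E0 β σ y
noncomputable def Am2 (β σ y : ℝ) : ℝ :=
  (X2 y - 2 * σ * X1 y * L1 β y - σ * X y * L2 β y + σ ^ 2 * X y * L1 β y ^ 2) * E0 β σ y
noncomputable def P0 (β σ τ y : ℝ) : ℝ := Am X β σ y / ww β τ y
noncomputable def P1 (β σ τ y : ℝ) : ℝ :=
  (Am1 X X1 β σ y * ww β τ y + Am X β σ y * (τ * kk1 β y)) / ww β τ y ^ 2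
noncomputable def P2 (β σ τ y : ℝ) : ℝ :=
  (Am2 X X1 X2 β σ y * ww β τ y + Am X β σ y * (τ * kk2 β y)) / ww β τ y ^ 2 +
    2 * (Am1 X X1 β σ y * ww β τ y + Am X β σ y * (τ * kk1 β y)) * (τ * kk1 β y) / ww β τ y ^ 3
noncomputable def Q0 (β σ τ y : ℝ) : ℝ := P1 X X1 β σ τ y / ww β τ y
noncomputable def Q1 (β σ τ y : ℝ) : ℝ :=
  (P2 X X1 X2 β σ τ y * ww β τ y + P1 X X1 β σ τ y * (τ * kk1 β y)) / ww β τ y ^ 2
end

section derivs
variable {X X1 X2 : ℝ → ℝ} {c₁ c₂ β σ τ y : ℝ}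

theorem dinv1 (h : y + β ≠ 0) : HasDerivAt (fun y => (y + β)⁻¹) (-((y + β)⁻¹ ^ 2)) y := by
  have h1 : HasDerivAt (fun y => y + β) 1 y := (hasDerivAt_id y).add_const β
  refine (h1.fun_inv h).congr_deriv ?_
  field_simp

theorem dinv0 (h : y ≠ 0) : HasDerivAt (fun y : ℝ => y⁻¹) (-(y⁻¹ ^ 2)) y := by
  refine (hasDerivAt_inv h).congr_deriv ?_
  field_simp

theorem dL1 (h : y + β ≠ 0) (h0 : y ≠ 0) : HasDerivAt (L1 β) (L2 β y) y := by
  refine HasDerivAt.congr_deriv (f := L1 β) (HasDerivAt.fun_add (dinv1 h) (dinv0 h0)) ?_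
  unfold L2
  ring

theorem dkk (h : y + β ≠ 0) (h0 : y ≠ 0) : HasDerivAt (kk β) (kk1 β y) y := by
  refine HasDerivAt.congr_deriv (f := kk β) (HasDerivAt.fun_mul (dinv1 h) (dinv0 h0)) ?_
  unfold kk1 L1 kk
  ring

theorem dkk1 (h : y + β ≠ 0) (h0 : y ≠ 0) : HasDerivAt (kk1 β) (kk2 β y) y := by
  refine HasDerivAt.congr_deriv (f := kk1 β) (((dL1 h h0).fun_mul (dkk h h0)).fun_neg) ?_
  unfold kk2 kk1
  ring

theorem dE0 (h : y + β ≠ 0) (h0 : y ≠ 0) : HasDerivAt (E0 β σ) (-(σ * L1 β y) * E0 β σ y) y := by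
  have h1 : HasDerivAt (fun y : ℝ => Real.log (y + β)) (y + β)⁻¹ y := by
    have := ((hasDerivAt_id y).add_const β).log h
    simpa using this
  have h2 := Real.hasDerivAt_log h0
  refine HasDerivAt.congr_deriv (f := E0 β σ) ((((h1.fun_add h2).const_mul σ).fun_neg).exp) ?_
  unfold E0 L1
  ring

theorem dAm (hb : Bump c₁ c₂ X X1 X2) (h : y + β ≠ 0) (h0 : y ≠ 0) :
    HasDerivAt (Am X β σ) (Am1 X X1 β σ y) y := by
  refine HasDerivAt.congr_deriv (f := Am X β σ) ((hb.d1 y).fun_mul (dE0 (σ := σ) h h0)) ?_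
  unfold Am1
  ring

theorem dAm1 (hb : Bump c₁ c₂ X X1 X2) (h : y + β ≠ 0) (h0 : y ≠ 0) :
    HasDerivAt (Am1 X X1 β σ) (Am2 X X1 X2 β σ y) y := by
  refine HasDerivAt.congr_deriv (f := Am1 X X1 β σ)
    (((hb.d2 y).fun_sub (((hb.d1 y).const_mul σ).fun_mul (dL1 h h0))).fun_mul
      (dE0 (σ := σ) h h0)) ?_
  unfold Am2
  ring

theorem dww (h : y + β ≠ 0) (h0 : y ≠ 0) : HasDerivAt (ww β τ) (-(τ * kk1 β y)) y := by
  exact ((dkk h h0).const_mul τ).const_sub 1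

theorem dP0 (hb : Bump c₁ c₂ X X1 X2) (h : y + β ≠ 0) (h0 : y ≠ 0) (hw : ww β τ y ≠ 0) :
    HasDerivAt (P0 X β σ τ) (P1 X X1 β σ τ y) y := by
  refine HasDerivAt.congr_deriv (f := P0 X β σ τ)
    ((dAm (σ := σ) hb h h0).fun_div (dww (τ := τ) h h0) hw) ?_
  unfold P1
  ring

theorem dP1 (hb : Bump c₁ c₂ X X1 X2) (h : y + β ≠ 0) (h0 : y ≠ 0) (hw : ww β τ y ≠ 0) :
    HasDerivAt (P1 X X1 β σ τ) (P2 X X1 X2 β σ τ y) y := by
  have hn := ((dAm1 (σ := σ) hb h h0).fun_mul (dww (τ := τ) h h0)).fun_add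
    ((dAm (σ := σ) hb h h0).fun_mul ((dkk1 h h0).const_mul τ))
  refine HasDerivAt.congr_deriv (f := P1 X X1 β σ τ)
    (hn.fun_div ((dww (τ := τ) h h0).fun_pow 2) (pow_ne_zero 2 hw)) ?_
  unfold P2
  field_simp
  ring

theorem dQ0 (hb : Bump c₁ c₂ X X1 X2) (h : y + β ≠ 0) (h0 : y ≠ 0) (hw : ww β τ y ≠ 0) :
    HasDerivAt (Q0 X X1 β σ τ) (Q1 X X1 X2 β σ τ y) y := by
  refine HasDerivAt.congr_deriv (f := Q0 X X1 β σ τ)
    ((dP1 (σ := σ) hb h h0 hw).fun_div (dww (τ := τ) h h0) hw) ?_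
  unfold Q1
  ring

end derivs

end Pool.Agent.Helper73.SC.FT



/-!
# Uniform bounds, and integration by parts
-/

namespace Pool.Agent.Helper73.SC.FT

open MeasureTheory Set
open scoped FourierTransform ContDiff

/-- the parameter set -/
def DD (c₁ c₂ H : ℝ) : Set (ℝ × ℝ × ℝ × ℝ) :=
  Icc (5 * c₁ / 8) (3 * c₂) ×ˢ (Icc (-(c₁ / 2)) (c₁ / 2) ×ˢ (Icc (-H) H ×ˢ
    Icc (-(c₁ ^ 2 / 32)) (c₁ ^ 2 / 32)))

theorem DD_compact (c₁ c₂ H : ℝ) : IsCompact (DD c₁ c₂ H) :=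
  isCompact_Icc.prod (isCompact_Icc.prod (isCompact_Icc.prod isCompact_Icc))

theorem ww_pos {c₁ β τ y : ℝ} (h1 : 0 < c₁) (hy : 5 * c₁ / 8 ≤ y) (hβ : -(c₁ / 2) ≤ β)
    (hτ : |τ| ≤ c₁ ^ 2 / 32) : 0 < ww β τ y := by
  have hy0 : 0 < y := by linarith
  have hyβ : c₁ / 8 ≤ y + β := by linarith
  have hyβ0 : 0 < y + β := by linarith
  have e1 : (y + β)⁻¹ ≤ 8 / c₁ := by
    rw [inv_le_comm₀ hyβ0 (by positivity), inv_div]
    exact hyβ
  have e2 : y⁻¹ ≤ 8 / (5 * c₁) := by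
    rw [inv_le_comm₀ hy0 (by positivity), inv_div]
    linarith
  have e3 : kk β y ≤ 8 / c₁ * (8 / (5 * c₁)) := by
    unfold kk
    exact mul_le_mul e1 e2 (by positivity) (by positivity)
  have e4 : 0 < kk β y := by unfold kk; positivity
  have e5 : τ * kk β y ≤ c₁ ^ 2 / 32 * (8 / c₁ * (8 / (5 * c₁))) := by
    calc τ * kk β y ≤ |τ| * kk β y := mul_le_mul_of_nonneg_right (le_abs_self _) e4.le
      _ ≤ _ := mul_le_mul hτ e3 e4.le (by positivity)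
  have e6 : c₁ ^ 2 / 32 * (8 / c₁ * (8 / (5 * c₁))) = 2 / 5 := by field_simp; norm_num
  unfold ww
  linarith

theorem bounds {c₁ c₂ : ℝ} {X X1 X2 : ℝ → ℝ} (hb : Bump c₁ c₂ X X1 X2) (h1 : 0 < c₁) (H : ℝ) :
    ∃ K : ℝ, 1 ≤ K ∧ ∀ y β σ τ : ℝ, y ∈ Icc (5 * c₁ / 8) (3 * c₂) → |β| ≤ c₁ / 2 → |σ| ≤ H →
      |τ| ≤ c₁ ^ 2 / 32 →
      |Am X β σ y| ≤ K ∧ |Am1 X X1 β σ y| ≤ K ∧ |Q1 X X1 X2 β σ τ y| ≤ K := by
  set D := DD c₁ c₂ H with hD
  have hy : ∀ p ∈ D, p.1 ≠ 0 := by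
    intro p hp
    have := hp.1.1
    intro h0
    rw [h0] at this
    linarith
  have hyβ : ∀ p ∈ D, p.1 + p.2.1 ≠ 0 := by
    intro p hp
    have a := hp.1.1
    have b := hp.2.1.1
    intro h0
    linarith
  have hw : ∀ p ∈ D, ww p.2.1 p.2.2.2 p.1 ≠ 0 := by
    intro p hp
    exact (ww_pos h1 hp.1.1 hp.2.1.1 (abs_le.mpr hp.2.2.2)).ne'
  have i0 : ContinuousOn (fun p : ℝ × ℝ × ℝ × ℝ => p.1⁻¹) D := continuousOn_fst.inv₀ hy
  have i1 : ContinuousOn (fun p : ℝ × ℝ × ℝ × ℝ => (p.1 + p.2.1)⁻¹) D :=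
    ContinuousOn.inv₀ (by fun_prop) hyβ
  have l0 : ContinuousOn (fun p : ℝ × ℝ × ℝ × ℝ => Real.log p.1) D := continuousOn_fst.log hy
  have l1 : ContinuousOn (fun p : ℝ × ℝ × ℝ × ℝ => Real.log (p.1 + p.2.1)) D :=
    ContinuousOn.log (by fun_prop) hyβ
  have cσ : ContinuousOn (fun p : ℝ × ℝ × ℝ × ℝ => p.2.2.1) D := by fun_prop
  have cτ : ContinuousOn (fun p : ℝ × ℝ × ℝ × ℝ => p.2.2.2) D := by fun_prop
  have cL1 : ContinuousOn (fun p : ℝ × ℝ × ℝ × ℝ => L1 p.2.1 p.1) D := i1.add i0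
  have cL2 : ContinuousOn (fun p : ℝ × ℝ × ℝ × ℝ => L2 p.2.1 p.1) D := (i1.pow 2).neg.sub (i0.pow 2)
  have ck : ContinuousOn (fun p : ℝ × ℝ × ℝ × ℝ => kk p.2.1 p.1) D := i1.mul i0
  have ck1 : ContinuousOn (fun p : ℝ × ℝ × ℝ × ℝ => kk1 p.2.1 p.1) D := (cL1.mul ck).neg
  have ck2 : ContinuousOn (fun p : ℝ × ℝ × ℝ × ℝ => kk2 p.2.1 p.1) D :=
    ((cL1.pow 2).sub cL2).mul ck
  have cE : ContinuousOn (fun p : ℝ × ℝ × ℝ × ℝ => E0 p.2.1 p.2.2.1 p.1) D :=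
    (Real.continuous_exp.comp_continuousOn (cσ.mul (l1.add l0)).neg)
  have cw : ContinuousOn (fun p : ℝ × ℝ × ℝ × ℝ => ww p.2.1 p.2.2.2 p.1) D :=
    continuousOn_const.sub (cτ.mul ck)
  have cX : ContinuousOn (fun p : ℝ × ℝ × ℝ × ℝ => X p.1) D := (hb.c0.comp continuous_fst).continuousOn
  have cX1 : ContinuousOn (fun p : ℝ × ℝ × ℝ × ℝ => X1 p.1) D := (hb.c1.comp continuous_fst).continuousOn
  have cX2 : ContinuousOn (fun p : ℝ × ℝ × ℝ × ℝ => X2 p.1) D := (hb.c2.comp continuous_fst).continuousOn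
  have cA : ContinuousOn (fun p : ℝ × ℝ × ℝ × ℝ => Am X p.2.1 p.2.2.1 p.1) D := cX.mul cE
  have cA1 : ContinuousOn (fun p : ℝ × ℝ × ℝ × ℝ => Am1 X X1 p.2.1 p.2.2.1 p.1) D :=
    (cX1.sub ((cσ.mul cX).mul cL1)).mul cE
  have cA2 : ContinuousOn (fun p : ℝ × ℝ × ℝ × ℝ => Am2 X X1 X2 p.2.1 p.2.2.1 p.1) D := by
    unfold Am2
    exact (((cX2.sub (((continuousOn_const.mul cσ).mul cX1).mul cL1)).sub
      ((cσ.mul cX).mul cL2)).add (((cσ.pow 2).mul cX).mul (cL1.pow 2))).mul cE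
  have cP1 : ContinuousOn (fun p : ℝ × ℝ × ℝ × ℝ => P1 X X1 p.2.1 p.2.2.1 p.2.2.2 p.1) D :=
    ((cA1.mul cw).add (cA.mul (cτ.mul ck1))).div (cw.pow 2) fun p hp => pow_ne_zero 2 (hw p hp)
  have cP2 : ContinuousOn (fun p : ℝ × ℝ × ℝ × ℝ => P2 X X1 X2 p.2.1 p.2.2.1 p.2.2.2 p.1) D := by
    unfold P2
    refine ContinuousOn.add ?_ ?_
    · exact ((cA2.mul cw).add (cA.mul (cτ.mul ck2))).div (cw.pow 2)
        fun p hp => pow_ne_zero 2 (hw p hp)
    · exact ((continuousOn_const.mul ((cA1.mul cw).add (cA.mul (cτ.mul ck1)))).mul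
        (cτ.mul ck1)).div (cw.pow 3) fun p hp => pow_ne_zero 3 (hw p hp)
  have cQ1 : ContinuousOn (fun p : ℝ × ℝ × ℝ × ℝ => Q1 X X1 X2 p.2.1 p.2.2.1 p.2.2.2 p.1) D :=
    ((cP2.mul cw).add (cP1.mul (cτ.mul ck1))).div (cw.pow 2) fun p hp => pow_ne_zero 2 (hw p hp)
  obtain ⟨K1, hK1⟩ := (DD_compact c₁ c₂ H).exists_bound_of_continuousOn cA
  obtain ⟨K2, hK2⟩ := (DD_compact c₁ c₂ H).exists_bound_of_continuousOn cA1
  obtain ⟨K3, hK3⟩ := (DD_compact c₁ c₂ H).exists_bound_of_continuousOn cQ1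
  refine ⟨max 1 (max K1 (max K2 K3)), le_max_left _ _, ?_⟩
  intro y β σ τ h2 h3 h4 h5
  have hp : ((y, β, σ, τ) : ℝ × ℝ × ℝ × ℝ) ∈ DD c₁ c₂ H :=
    ⟨h2, abs_le.mp h3, abs_le.mp h4, abs_le.mp h5⟩
  have a1 := hK1 _ hp
  have a2 := hK2 _ hp
  have a3 := hK3 _ hp
  simp only [Real.norm_eq_abs] at a1 a2 a3
  exact ⟨a1.trans ((le_max_left _ _).trans (le_max_right _ _)),
    a2.trans (((le_max_left _ _).trans (le_max_right _ _)).trans (le_max_right _ _)),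
    a3.trans (((le_max_right _ _).trans (le_max_right _ _)).trans (le_max_right _ _))⟩

/-- the phase -/
noncomputable def ph (β t η y : ℝ) : ℝ := t * (Real.log y - Real.log (y + β)) - 2 * Real.pi * η * y

theorem dph {β t η y : ℝ} (h : y + β ≠ 0) (h0 : y ≠ 0) :
    HasDerivAt (ph β t η) (t * β * kk β y - 2 * Real.pi * η) y := by
  have h1 : HasDerivAt (fun y : ℝ => Real.log (y + β)) (y + β)⁻¹ y := by
    have := ((hasDerivAt_id y).add_const β).log h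
    simpa using this
  have h2 := Real.hasDerivAt_log h0
  refine HasDerivAt.congr_deriv (f := ph β t η)
    (((h2.fun_sub h1).const_mul t).fun_sub ((hasDerivAt_id y).const_mul (2 * Real.pi * η))) ?_
  unfold kk
  field_simp
  ring

theorem dexp {β t η y : ℝ} (h : y + β ≠ 0) (h0 : y ≠ 0) :
    HasDerivAt (fun y => Complex.exp (Complex.I * (ph β t η y : ℂ)))
      (Complex.exp (Complex.I * (ph β t η y : ℂ)) *
        (Complex.I * ((t * β * kk β y - 2 * Real.pi * η : ℝ) : ℂ))) y :=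
  ((dph h h0).ofReal_comp.const_mul Complex.I).cexp

/-- one integration by parts -/
theorem parts {c₁ c₂ β t η : ℝ} (h1 : 0 < c₁) (h12 : c₁ < c₂) (hβ : |β| ≤ c₁ / 2) (hη : η ≠ 0)
    (U V : ℝ → ℝ)
    (hU : ∀ y, 5 * c₁ / 8 ≤ y → HasDerivAt U (V y) y)
    (hV : ContinuousOn V (Icc (5 * c₁ / 8) (3 * c₂)))
    (z1 : U (5 * c₁ / 8) = 0) (z2 : U (3 * c₂) = 0) :
    ∫ y in (5 * c₁ / 8)..(3 * c₂), ((U y * ww β (t * β / (2 * Real.pi * η)) y : ℝ) : ℂ) *
        Complex.exp (Complex.I * (ph β t η y : ℂ)) =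
      (1 / (2 * Real.pi * η * Complex.I)) *
        ∫ y in (5 * c₁ / 8)..(3 * c₂), (V y : ℂ) * Complex.exp (Complex.I * (ph β t η y : ℂ)) := by
  set τ := t * β / (2 * Real.pi * η) with hτd
  have hle : 5 * c₁ / 8 ≤ 3 * c₂ := by linarith
  have hIcc : uIcc (5 * c₁ / 8) (3 * c₂) = Icc (5 * c₁ / 8) (3 * c₂) := uIcc_of_le hle
  have hβ' := abs_le.mp hβ
  have hy : ∀ y, 5 * c₁ / 8 ≤ y → y ≠ 0 := fun y hy => by linarith
  have hyβ : ∀ y, 5 * c₁ / 8 ≤ y → y + β ≠ 0 := fun y hy => by linarith [hβ'.1]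
  have hd : ∀ y, 5 * c₁ / 8 ≤ y → HasDerivAt
      (fun y => (U y : ℂ) * Complex.exp (Complex.I * (ph β t η y : ℂ)))
      ((V y : ℂ) * Complex.exp (Complex.I * (ph β t η y : ℂ)) -
        (2 * Real.pi * η * Complex.I) * (((U y * ww β τ y : ℝ) : ℂ) *
          Complex.exp (Complex.I * (ph β t η y : ℂ)))) y := by
    intro y h
    refine HasDerivAt.congr_deriv ((hU y h).ofReal_comp.fun_mul (dexp (hyβ y h) (hy y h))) ?_
    have e : (t * β * kk β y - 2 * Real.pi * η : ℝ) = -(2 * Real.pi * η) * ww β τ y := by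
      unfold ww
      rw [hτd]
      have := Real.pi_ne_zero
      field_simp
      ring
    rw [e]
    push_cast
    ring
  have hUc : ContinuousOn U (Icc (5 * c₁ / 8) (3 * c₂)) := fun y h =>
    (hU y h.1).continuousAt.continuousWithinAt
  have hEc : ContinuousOn (fun y => Complex.exp (Complex.I * (ph β t η y : ℂ)))
      (Icc (5 * c₁ / 8) (3 * c₂)) := fun y h =>
    (dexp (hyβ y h.1) (hy y h.1)).continuousAt.continuousWithinAt
  have hwc : ContinuousOn (ww β τ) (Icc (5 * c₁ / 8) (3 * c₂)) := fun y h =>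
    (dww (hyβ y h.1) (hy y h.1)).continuousAt.continuousWithinAt
  have hofr : ∀ {v : ℝ → ℝ}, ContinuousOn v (Icc (5 * c₁ / 8) (3 * c₂)) →
      ContinuousOn (fun x => (v x : ℂ)) (Icc (5 * c₁ / 8) (3 * c₂)) :=
    fun hv => Complex.continuous_ofReal.comp_continuousOn hv
  have c1 : ContinuousOn (fun y => (V y : ℂ) * Complex.exp (Complex.I * (ph β t η y : ℂ)))
      (uIcc (5 * c₁ / 8) (3 * c₂)) := by
    rw [hIcc]; exact (hofr hV).mul hEc
  have c2 : ContinuousOn (fun y => (2 * Real.pi * η * Complex.I) * (((U y * ww β τ y : ℝ) : ℂ) *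
      Complex.exp (Complex.I * (ph β t η y : ℂ)))) (uIcc (5 * c₁ / 8) (3 * c₂)) := by
    rw [hIcc]; exact continuousOn_const.mul ((hofr (hUc.mul hwc)).mul hEc)
  have hFT := intervalIntegral.integral_eq_sub_of_hasDerivAt (a := 5 * c₁ / 8) (b := 3 * c₂)
    (fun y h => hd y (by rw [hIcc] at h; exact h.1)) (c1.sub c2).intervalIntegrable
  rw [z1, z2, intervalIntegral.integral_sub c1.intervalIntegrable c2.intervalIntegrable,
    intervalIntegral.integral_const_mul] at hFT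
  simp only [Complex.ofReal_zero, zero_mul, sub_zero] at hFT
  rw [sub_eq_zero] at hFT
  rw [hFT]
  have hne : (2 * (Real.pi : ℂ) * η * Complex.I) ≠ 0 := by
    have := Real.pi_ne_zero
    have h3 : (η : ℂ) ≠ 0 := by exact_mod_cast hη
    have h4 : (Real.pi : ℂ) ≠ 0 := by exact_mod_cast this
    simp [h3, h4]
  rw [← mul_assoc, one_div_mul_cancel hne, one_mul]

end Pool.Agent.Helper73.SC.FT



/-!
# The differenced function as a Fourier integral
-/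

namespace Pool.Agent.Helper73.SC.FT

open MeasureTheory Set
open scoped FourierTransform ContDiff

/-- the Fourier transform as an integral over the interval -/
theorem fourier_FF {c₁ c₂ β : ℝ} (σ t η : ℝ) (h1 : 0 < c₁) (h12 : c₁ < c₂) :
    𝓕 (FF c₁ c₂ β σ t) η = ∫ y in (5 * c₁ / 8)..(3 * c₂),
      ((Am (chi c₁ c₂) β σ y : ℝ) : ℂ) * Complex.exp (Complex.I * (ph β t η y : ℂ)) := by
  rw [Real.fourier_real_eq_integral_exp_smul]
  have hle : 5 * c₁ / 8 ≤ 3 * c₂ := by linarith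
  rw [← intervalIntegral.integral_eq_integral_of_support_subset (a := 5 * c₁ / 8) (b := 3 * c₂)]
  · refine intervalIntegral.integral_congr fun y _ => ?_
    simp only [FF, Am, E0, ph, smul_eq_mul]
    rw [mul_comm, mul_assoc, ← Complex.exp_add]
    congr 2
    push_cast
    ring
  · intro y hy
    rw [Function.mem_support] at hy
    constructor
    · by_contra h
      exact hy (by rw [FF_zero (chi_zero_left h1 (by linarith [not_lt.mp h])), smul_zero])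
    · by_contra h
      exact hy (by rw [FF_zero (chi_zero_right (h1.trans h12) (by linarith [not_le.mp h])), smul_zero])

theorem Am_eq {c₁ c₂ β : ℝ} (σ y : ℝ) :
    ((Am (chi c₁ c₂) β σ y : ℝ) : ℂ) = FF c₁ c₂ β σ 0 y := by
  unfold FF Am E0
  simp

/-- the second derivative bound -/
theorem bound1 {c₁ c₂ β σ t η K : ℝ} {X1 X2 : ℝ → ℝ} (hb : Bump c₁ c₂ (chi c₁ c₂) X1 X2)
    (h1 : 0 < c₁) (h12 : c₁ < c₂) (hβ : |β| ≤ c₁ / 2) (hβ0 : β ≠ 0) (ht : 0 < t) (hK : 0 ≤ K)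
    (hA : ∀ y ∈ Icc (5 * c₁ / 8) (3 * c₂), |Am (chi c₁ c₂) β σ y| ≤ K)
    (hA1 : ∀ y ∈ Icc (5 * c₁ / 8) (3 * c₂), |Am1 (chi c₁ c₂) X1 β σ y| ≤ K) :
    ‖𝓕 (FF c₁ c₂ β σ t) η‖ ≤ 8 * (K * (1 + 3 * c₂)) *
      (t * |β| * (1 / (32 * c₂ ^ 3))) ^ (-(1 / 2) : ℝ) := by
  have h2 : 0 < c₂ := h1.trans h12
  have hβ' := abs_le.mp hβ
  have hle : 5 * c₁ / 8 ≤ 3 * c₂ := by linarith
  have hy : ∀ y, 5 * c₁ / 8 ≤ y → y ≠ 0 := fun y hy => by linarith
  have hyβ : ∀ y, 5 * c₁ / 8 ≤ y → y + β ≠ 0 := fun y hy => by linarith [hβ'.1]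
  rw [fourier_FF σ t η h1 h12]
  have hder : ∀ y, 5 * c₁ / 8 ≤ y →
      HasDerivAt (fun y => ((Am (chi c₁ c₂) β σ y : ℝ) : ℂ)) (Am1 (chi c₁ c₂) X1 β σ y : ℂ) y :=
    fun y h => (dAm hb (hyβ y h) (hy y h)).ofReal_comp
  refine VC.s_vc' (5 * c₁ / 8) (3 * c₂) (t * |β| * (1 / (32 * c₂ ^ 3))) (K * (1 + 3 * c₂))
    (fun y => ((Am (chi c₁ c₂) β σ y : ℝ) : ℂ)) (ph β t η)
    (fun y => t * β * kk β y - 2 * Real.pi * η) (fun y => t * β * kk1 β y) hle
    (by have := abs_pos.mpr hβ0; positivity) ?_ ?_ ?_ ?_ ?_ ?_ ?_ ?_ ?_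
  · have e : (fun y => ((Am (chi c₁ c₂) β σ y : ℝ) : ℂ)) = FF c₁ c₂ β σ 0 := funext fun y => Am_eq σ y
    rw [e]
    exact (FF_smooth σ 0 h1 hβ).of_le (by norm_cast)
  · exact fun y h => (dph (hyβ y h.1) (hy y h.1)).continuousAt.continuousWithinAt
  · intro y h
    exact (((dkk (hyβ y h.1) (hy y h.1)).continuousAt.const_mul (t * β)).sub
      continuousAt_const).continuousWithinAt
  · intro y h
    exact ((dkk1 (hyβ y h.1) (hy y h.1)).continuousAt.const_mul (t * β)).continuousWithinAt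
  · exact fun y h => dph (hyβ y h.1.le) (hy y h.1.le)
  · intro y h
    have := ((dkk (hyβ y h.1.le) (hy y h.1.le)).const_mul (t * β)).sub_const (2 * Real.pi * η)
    exact this
  · -- the sign of the second derivative
    have hk : ∀ y ∈ Icc (5 * c₁ / 8) (3 * c₂), 1 / (32 * c₂ ^ 3) ≤ L1 β y * kk β y := by
      intro y h
      have y0 : 0 < y := by linarith [h.1]
      have yβ0 : 0 < y + β := by linarith [h.1, hβ'.1]
      have e1 : 1 / (4 * c₂) ≤ (y + β)⁻¹ := by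
        rw [one_div]
        exact inv_anti₀ yβ0 (by linarith [h.2, hβ'.2])
      have e2 : 1 / (4 * c₂) ≤ y⁻¹ := by
        rw [one_div]
        exact inv_anti₀ y0 (by linarith [h.2])
      have e0 : 0 < 1 / (4 * c₂) := by positivity
      unfold L1 kk
      calc 1 / (32 * c₂ ^ 3) = (1 / (4 * c₂) + 1 / (4 * c₂)) * (1 / (4 * c₂) * (1 / (4 * c₂))) := by
            field_simp; norm_num
        _ ≤ _ := by gcongr
    rcases lt_or_gt_of_ne hβ0 with hs | hs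
    · left
      intro y h
      have e := hk y h
      rw [abs_of_neg hs]
      unfold kk1
      have : t * β * -(L1 β y * kk β y) = t * -β * (L1 β y * kk β y) := by ring
      rw [this]
      exact mul_le_mul_of_nonneg_left e (by nlinarith)
    · right
      intro y h
      have e := hk y h
      rw [abs_of_pos hs]
      unfold kk1
      have : t * β * -(L1 β y * kk β y) = -(t * β * (L1 β y * kk β y)) := by ring
      rw [this]
      exact neg_le_neg (mul_le_mul_of_nonneg_left e (by positivity))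
  · intro y h
    rw [Complex.norm_real, Real.norm_eq_abs]
    exact (hA y h).trans (by nlinarith)
  · have hb1 : ∫ y in (5 * c₁ / 8)..(3 * c₂),
        ‖deriv (fun y => ((Am (chi c₁ c₂) β σ y : ℝ) : ℂ)) y‖ ≤
        ∫ y in (5 * c₁ / 8)..(3 * c₂), K := by
      have hcd : ContDiff ℝ 1 (fun y => ((Am (chi c₁ c₂) β σ y : ℝ) : ℂ)) := by
        have e : (fun y => ((Am (chi c₁ c₂) β σ y : ℝ) : ℂ)) = FF c₁ c₂ β σ 0 :=
          funext fun y => Am_eq σ y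
        rw [e]
        exact (FF_smooth σ 0 h1 hβ).of_le (by norm_cast)
      refine intervalIntegral.integral_mono_on hle
        ((hcd.continuous_deriv le_rfl).norm.intervalIntegrable _ _) (by simp) ?_
      intro y h
      rw [(hder y h.1).deriv, Complex.norm_real, Real.norm_eq_abs]
      exact hA1 y h
    refine hb1.trans ?_
    rw [intervalIntegral.integral_const, smul_eq_mul]
    nlinarith

/-- the bound by two integrations by parts -/
theorem bound2 {c₁ c₂ β σ t η K : ℝ} {X1 X2 : ℝ → ℝ} (hb : Bump c₁ c₂ (chi c₁ c₂) X1 X2)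
    (h1 : 0 < c₁) (h12 : c₁ < c₂) (hβ : |β| ≤ c₁ / 2) (hη : η ≠ 0)
    (hτ : |t * β / (2 * Real.pi * η)| ≤ c₁ ^ 2 / 32)
    (hQ : ∀ y ∈ Icc (5 * c₁ / 8) (3 * c₂),
      |Q1 (chi c₁ c₂) X1 X2 β σ (t * β / (2 * Real.pi * η)) y| ≤ K) :
    ‖𝓕 (FF c₁ c₂ β σ t) η‖ ≤ K * (3 * c₂) / (2 * Real.pi * η) ^ 2 := by
  set τ := t * β / (2 * Real.pi * η) with hτd
  have h2 : 0 < c₂ := h1.trans h12
  have hβ' := abs_le.mp hβ
  have hle : 5 * c₁ / 8 ≤ 3 * c₂ := by linarith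
  have hy : ∀ y, 5 * c₁ / 8 ≤ y → y ≠ 0 := fun y hy => by linarith
  have hyβ : ∀ y, 5 * c₁ / 8 ≤ y → y + β ≠ 0 := fun y hy => by linarith [hβ'.1]
  have hw : ∀ y, 5 * c₁ / 8 ≤ y → ww β τ y ≠ 0 := fun y h => (ww_pos h1 h hβ'.1 hτ).ne'
  have hIcc : uIcc (5 * c₁ / 8) (3 * c₂) = Icc (5 * c₁ / 8) (3 * c₂) := uIcc_of_le hle
  have p1 := parts (t := t) h1 h12 hβ hη (P0 (chi c₁ c₂) β σ τ) (P1 (chi c₁ c₂) X1 β σ τ)
    (fun y h => dP0 hb (hyβ y h) (hy y h) (hw y h))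
    (fun y h => (dP1 hb (hyβ y h.1) (hy y h.1) (hw y h.1)).continuousAt.continuousWithinAt)
    (by unfold P0 Am; rw [hb.z1.1]; simp) (by unfold P0 Am; rw [hb.z2.1]; simp)
  have cQ : ContinuousOn (Q1 (chi c₁ c₂) X1 X2 β σ τ) (Icc (5 * c₁ / 8) (3 * c₂)) := by
    have a1 : ContinuousOn (kk1 β) (Icc (5 * c₁ / 8) (3 * c₂)) := fun y h =>
      (dkk1 (hyβ y h.1) (hy y h.1)).continuousAt.continuousWithinAt
    have a2 : ContinuousOn (ww β τ) (Icc (5 * c₁ / 8) (3 * c₂)) := fun y h =>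
      (dww (hyβ y h.1) (hy y h.1)).continuousAt.continuousWithinAt
    have a3 : ContinuousOn (P1 (chi c₁ c₂) X1 β σ τ) (Icc (5 * c₁ / 8) (3 * c₂)) := fun y h =>
      (dP1 hb (hyβ y h.1) (hy y h.1) (hw y h.1)).continuousAt.continuousWithinAt
    have i0 : ContinuousOn (fun y : ℝ => y⁻¹) (Icc (5 * c₁ / 8) (3 * c₂)) :=
      continuousOn_id.inv₀ fun y h => hy y h.1
    have i1 : ContinuousOn (fun y : ℝ => (y + β)⁻¹) (Icc (5 * c₁ / 8) (3 * c₂)) :=
      ContinuousOn.inv₀ (by fun_prop) fun y h => hyβ y h.1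
    have l0 : ContinuousOn (fun y : ℝ => Real.log y) (Icc (5 * c₁ / 8) (3 * c₂)) :=
      ContinuousOn.log continuousOn_id fun y h => hy y h.1
    have l1 : ContinuousOn (fun y : ℝ => Real.log (y + β)) (Icc (5 * c₁ / 8) (3 * c₂)) :=
      ContinuousOn.log (by fun_prop) fun y h => hyβ y h.1
    have cL1 : ContinuousOn (L1 β) (Icc (5 * c₁ / 8) (3 * c₂)) := i1.add i0
    have cL2 : ContinuousOn (L2 β) (Icc (5 * c₁ / 8) (3 * c₂)) := (i1.pow 2).neg.sub (i0.pow 2)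
    have ck : ContinuousOn (kk β) (Icc (5 * c₁ / 8) (3 * c₂)) := i1.mul i0
    have ck2 : ContinuousOn (kk2 β) (Icc (5 * c₁ / 8) (3 * c₂)) := ((cL1.pow 2).sub cL2).mul ck
    have cE : ContinuousOn (E0 β σ) (Icc (5 * c₁ / 8) (3 * c₂)) :=
      Real.continuous_exp.comp_continuousOn (continuousOn_const.mul (l1.add l0)).neg
    have cX : ContinuousOn (chi c₁ c₂) (Icc (5 * c₁ / 8) (3 * c₂)) := hb.c0.continuousOn
    have cX1 : ContinuousOn X1 (Icc (5 * c₁ / 8) (3 * c₂)) := hb.c1.continuousOn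
    have cX2 : ContinuousOn X2 (Icc (5 * c₁ / 8) (3 * c₂)) := hb.c2.continuousOn
    have cA : ContinuousOn (Am (chi c₁ c₂) β σ) (Icc (5 * c₁ / 8) (3 * c₂)) := cX.mul cE
    have cA1 : ContinuousOn (Am1 (chi c₁ c₂) X1 β σ) (Icc (5 * c₁ / 8) (3 * c₂)) :=
      (cX1.sub ((continuousOn_const.mul cX).mul cL1)).mul cE
    have cA2 : ContinuousOn (Am2 (chi c₁ c₂) X1 X2 β σ) (Icc (5 * c₁ / 8) (3 * c₂)) :=
      (((cX2.sub ((continuousOn_const.mul cX1).mul cL1)).sub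
        ((continuousOn_const.mul cX).mul cL2)).add ((continuousOn_const.mul cX).mul (cL1.pow 2))).mul cE
    have cP2 : ContinuousOn (P2 (chi c₁ c₂) X1 X2 β σ τ) (Icc (5 * c₁ / 8) (3 * c₂)) := by
      refine ContinuousOn.add ?_ ?_
      · exact ((cA2.mul a2).add (cA.mul (continuousOn_const.mul ck2))).div (a2.pow 2)
          fun y h => pow_ne_zero 2 (hw y h.1)
      · exact ((continuousOn_const.mul ((cA1.mul a2).add (cA.mul (continuousOn_const.mul a1)))).mul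
          (continuousOn_const.mul a1)).div (a2.pow 3) fun y h => pow_ne_zero 3 (hw y h.1)
    exact ((cP2.mul a2).add (a3.mul (continuousOn_const.mul a1))).div (a2.pow 2)
      fun y h => pow_ne_zero 2 (hw y h.1)
  have p2 := parts (t := t) h1 h12 hβ hη (Q0 (chi c₁ c₂) X1 β σ τ) (Q1 (chi c₁ c₂) X1 X2 β σ τ)
    (fun y h => dQ0 hb (hyβ y h) (hy y h) (hw y h)) cQ
    (by unfold Q0 P1 Am Am1; rw [hb.z1.1, hb.z1.2]; simp)
    (by unfold Q0 P1 Am Am1; rw [hb.z2.1, hb.z2.2]; simp)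
  rw [fourier_FF σ t η h1 h12]
  have e1 : ∫ y in (5 * c₁ / 8)..(3 * c₂), ((Am (chi c₁ c₂) β σ y : ℝ) : ℂ) *
      Complex.exp (Complex.I * (ph β t η y : ℂ)) =
      ∫ y in (5 * c₁ / 8)..(3 * c₂), ((P0 (chi c₁ c₂) β σ τ y * ww β τ y : ℝ) : ℂ) *
        Complex.exp (Complex.I * (ph β t η y : ℂ)) := by
    refine intervalIntegral.integral_congr fun y h => ?_
    rw [hIcc] at h
    have : P0 (chi c₁ c₂) β σ τ y * ww β τ y = Am (chi c₁ c₂) β σ y := by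
      unfold P0
      exact div_mul_cancel₀ _ (hw y h.1)
    simp only [this]
  have e2 : ∫ y in (5 * c₁ / 8)..(3 * c₂), ((P1 (chi c₁ c₂) X1 β σ τ y : ℝ) : ℂ) *
      Complex.exp (Complex.I * (ph β t η y : ℂ)) =
      ∫ y in (5 * c₁ / 8)..(3 * c₂), ((Q0 (chi c₁ c₂) X1 β σ τ y * ww β τ y : ℝ) : ℂ) *
        Complex.exp (Complex.I * (ph β t η y : ℂ)) := by
    refine intervalIntegral.integral_congr fun y h => ?_
    rw [hIcc] at h
    have : Q0 (chi c₁ c₂) X1 β σ τ y * ww β τ y = P1 (chi c₁ c₂) X1 β σ τ y := by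
      unfold Q0
      exact div_mul_cancel₀ _ (hw y h.1)
    simp only [this]
  rw [e1, p1, e2, p2, ← mul_assoc, norm_mul]
  have hn : ‖1 / (2 * (Real.pi : ℂ) * η * Complex.I) * (1 / (2 * Real.pi * η * Complex.I))‖ =
      1 / (2 * Real.pi * η) ^ 2 := by
    have e5 : 1 / (2 * (Real.pi : ℂ) * η * Complex.I) * (1 / (2 * Real.pi * η * Complex.I)) =
        -((1 / (2 * Real.pi * η) ^ 2 : ℝ) : ℂ) := by
      have h3 : (η : ℂ) ≠ 0 := by exact_mod_cast hη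
      have h4 : (Real.pi : ℂ) ≠ 0 := by exact_mod_cast Real.pi_ne_zero
      push_cast
      field_simp
      rw [Complex.I_sq]
      norm_num
    rw [e5, norm_neg, Complex.norm_real, Real.norm_eq_abs, abs_of_nonneg (by positivity)]
  rw [hn]
  have hI : ‖∫ y in (5 * c₁ / 8)..(3 * c₂), ((Q1 (chi c₁ c₂) X1 X2 β σ τ y : ℝ) : ℂ) *
      Complex.exp (Complex.I * (ph β t η y : ℂ))‖ ≤ K * |3 * c₂ - 5 * c₁ / 8| := by
    refine intervalIntegral.norm_integral_le_of_norm_le_const fun y h => ?_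
    rw [uIoc_of_le hle] at h
    rw [norm_mul, Complex.norm_real, Real.norm_eq_abs, mul_comm Complex.I,
      Complex.norm_exp_ofReal_mul_I, mul_one]
    exact hQ y ⟨h.1.le, h.2⟩
  have hK : 0 ≤ K := (abs_nonneg _).trans (hQ (3 * c₂) ⟨hle, le_rfl⟩)
  calc 1 / (2 * Real.pi * η) ^ 2 * _ ≤ 1 / (2 * Real.pi * η) ^ 2 * (K * |3 * c₂ - 5 * c₁ / 8|) :=
        mul_le_mul_of_nonneg_left hI (by positivity)
    _ ≤ 1 / (2 * Real.pi * η) ^ 2 * (K * (3 * c₂)) := by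
        refine mul_le_mul_of_nonneg_left (mul_le_mul_of_nonneg_left ?_ hK) (by positivity)
        rw [abs_of_nonneg (by linarith)]
        linarith
    _ = _ := by ring

end Pool.Agent.Helper73.SC.FT

namespace Pool.Agent.Helper73.SC

open MeasureTheory Set FT
open scoped FourierTransform ContDiff

/-- **module FT** -/
theorem s_ft : S_FT := by
  intro c₁ c₂ H h1 h12 hH
  have h2 : 0 < c₂ := h1.trans h12
  obtain ⟨X1, X2, hb⟩ := bump (c₁ := c₁) (c₂ := c₂) h1 h2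
  obtain ⟨K, hK1, hK⟩ := bounds hb h1 H
  have hpi := Real.pi_pos
  have hK0 : 0 ≤ K := by linarith
  set κ : ℝ := 1 / (32 * c₂ ^ 3) with hκ
  have hκ0 : 0 < κ := by positivity
  set C1 : ℝ := 8 * (K * (1 + 3 * c₂)) * κ ^ (-(1 / 2) : ℝ) with hC1
  set C2 : ℝ := K * (3 * c₂) / (2 * Real.pi) ^ 2 with hC2
  set C3 : ℝ := 1 / (2 * Real.pi * (c₁ ^ 2 / 32)) with hC3
  have hC10 : 0 ≤ C1 := by positivity
  have hC20 : 0 ≤ C2 := by positivity
  have hC30 : 0 < C3 := by positivity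
  refine ⟨1 + C1 + C2 + C3, by linarith, ?_⟩
  intro N b s hN hb0 hbN hre him
  have hN0 : 0 < N := by linarith
  set β : ℝ := b / N with hβd
  have hβ : |β| ≤ c₁ / 2 := by
    rw [hβd, abs_div, abs_of_pos hN0, div_le_iff₀ hN0]
    linarith
  have hβ0 : β ≠ 0 := div_ne_zero hb0 hN0.ne'
  have htb : s.im * |b| / N = s.im * |β| := by
    rw [hβd, abs_div, abs_of_pos hN0, mul_div_assoc]
  have ht : 0 < s.im := by linarith
  obtain ⟨g1, g2, g3⟩ := scale N hN0 (FF c₁ c₂ β s.re s.im) (FF_smooth s.re s.im h1 hβ)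
    (FF_supp s.re s.im h1 h12)
  have hβabs : 0 < |β| := abs_pos.mpr hβ0
  refine ⟨fun ξ : ℝ => (N : ℂ) * 𝓕 (FF c₁ c₂ β s.re s.im) (N * ξ), g1, g2, ?_, ?_, ?_⟩
  · intro x hx1 hx2
    rw [← g3 x, FF_eq s (x / N) h1 h12 hβ (by rw [le_div_iff₀ hN0]; exact hx1)
      (by rw [div_le_iff₀ hN0]; exact hx2), hβd, ← add_div]
  · intro ξ
    rw [htb, norm_mul, Complex.norm_real, Real.norm_eq_abs, abs_of_pos hN0]
    have hbd := bound1 (σ := s.re) (t := s.im) (η := N * ξ) hb h1 h12 hβ hβ0 ht hK0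
      (fun y hy => (hK y β s.re 0 hy hβ hre (by rw [abs_zero]; positivity)).1)
      (fun y hy => (hK y β s.re 0 hy hβ hre (by rw [abs_zero]; positivity)).2.1)
    rw [Real.mul_rpow (by positivity) hκ0.le] at hbd
    have h5 : 0 ≤ (s.im * |β|) ^ (-(1 / 2) : ℝ) := by positivity
    calc N * ‖𝓕 (FF c₁ c₂ β s.re s.im) (N * ξ)‖ ≤
          N * (8 * (K * (1 + 3 * c₂)) * ((s.im * |β|) ^ (-(1 / 2) : ℝ) * κ ^ (-(1 / 2) : ℝ))) :=
          mul_le_mul_of_nonneg_left hbd hN0.le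
      _ = C1 * N * (s.im * |β|) ^ (-(1 / 2) : ℝ) := by rw [hC1]; ring
      _ ≤ (1 + C1 + C2 + C3) * N * (s.im * |β|) ^ (-(1 / 2) : ℝ) := by
          gcongr
          linarith
  · intro ξ hξ1 hξ2
    rw [htb] at hξ1
    have hξ0 : ξ ≠ 0 := by
      intro h
      rw [h, abs_zero, mul_zero] at hξ2
      linarith
    have hη : N * ξ ≠ 0 := mul_ne_zero hN0.ne' hξ0
    have hηa : |N * ξ| = N * |ξ| := by rw [abs_mul, abs_of_pos hN0]
    have hτ : |s.im * β / (2 * Real.pi * (N * ξ))| ≤ c₁ ^ 2 / 32 := by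
      rw [abs_div, abs_mul, abs_of_pos ht, abs_mul, hηa, abs_of_pos (by positivity : 0 < 2 * Real.pi),
        div_le_iff₀ (by have := abs_pos.mpr hξ0; positivity)]
      have h6 : C3 * (s.im * |β|) ≤ N * |ξ| := by
        refine le_trans ?_ hξ1
        have : 0 ≤ s.im * |β| := by positivity
        nlinarith
      calc s.im * |β| = c₁ ^ 2 / 32 * (2 * Real.pi * (C3 * (s.im * |β|))) := by
            rw [hC3]; field_simp
        _ ≤ c₁ ^ 2 / 32 * (2 * Real.pi * (N * |ξ|)) := by gcongr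
    have hbd := bound2 (σ := s.re) (t := s.im) (η := N * ξ) hb h1 h12 hβ hη hτ
      (fun y hy => (hK y β s.re _ hy hβ hre hτ).2.2)
    rw [norm_mul, Complex.norm_real, Real.norm_eq_abs, abs_of_pos hN0]
    calc N * ‖𝓕 (FF c₁ c₂ β s.re s.im) (N * ξ)‖ ≤ N * (K * (3 * c₂) / (2 * Real.pi * (N * ξ)) ^ 2) :=
          mul_le_mul_of_nonneg_left hbd hN0.le
      _ = C2 / (N * ξ ^ 2) := by
          rw [hC2]; field_simp
      _ ≤ (1 + C1 + C2 + C3) / (N * ξ ^ 2) := by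
          have : 0 < N * ξ ^ 2 := by positivity
          gcongr
          linarith

end Pool.Agent.Helper73.SC

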