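import Pool.Agent.Helper73.SC.Stm

set_option autoImplicit false

/-!
# Module WEYL of project SC: the inequality of Weyl and van der Corput (helper80)
-/

namespace Pool.Agent.Helper73.SC.WEYL

open Finset

/-- the inequality of van der Corput in a commutative group -/
theorem vdc {G : Type} [AddCommGroup G] [DecidableEq G] (Q W P : Finset G) (f : G → ℂ)
    (hW : ∀ m ∈ Q, ∀ p ∈ P, m - p ∈ W) :
    (P.card : ℝ) ^ 2 * ‖∑ m ∈ Q, f m‖ ^ 2 ≤ W.card * (P.card *
      ∑ k ∈ (P ×ˢ P).image (fun x => x.1 - x.2),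
        ‖∑ m ∈ Q.filter (fun m => m + k ∈ Q), f (m + k) * (starRingEnd ℂ) (f m)‖) := by
  classical
  set F : G → ℂ := fun n => if n ∈ Q then f n else 0 with hF
  set T : G → ℂ := fun k => ∑ m ∈ Q.filter (fun m => m + k ∈ Q), f (m + k) * (starRingEnd ℂ) (f m)
    with hT
  -- shifts of the sum
  have h1 : ∀ p ∈ P, ∑ n ∈ W, F (n + p) = ∑ m ∈ Q, f m := by
    intro p hp
    have e : ∑ n ∈ W, F (n + p) = ∑ n ∈ W.filter (fun n => n + p ∈ Q), f (n + p) := by
      rw [sum_filter]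
    rw [e]
    refine sum_bij' (fun n _ => n + p) (fun m _ => m - p) ?_ ?_ ?_ ?_ ?_
    · intro n hn
      exact (mem_filter.1 hn).2
    · intro m hm
      rw [mem_filter, sub_add_cancel]
      exact ⟨hW m hm p hp, hm⟩
    · intro n _
      exact add_sub_cancel_right _ _
    · intro m _
      exact sub_add_cancel _ _
    · intro n _
      rfl
  have h2 : (P.card : ℂ) * ∑ m ∈ Q, f m = ∑ n ∈ W, ∑ p ∈ P, F (n + p) := by
    rw [sum_comm, sum_congr rfl h1, sum_const, nsmul_eq_mul]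
  -- correlations
  have h3 : ∀ p ∈ P, ∀ q ∈ P, ∑ n ∈ W, F (n + p) * (starRingEnd ℂ) (F (n + q)) = T (p - q) := by
    intro p _ q hq
    have e : ∑ n ∈ W, F (n + p) * (starRingEnd ℂ) (F (n + q)) =
        ∑ n ∈ W.filter (fun n => n + q ∈ Q ∧ n + p ∈ Q),
          f (n + p) * (starRingEnd ℂ) (f (n + q)) := by
      rw [sum_filter]
      refine sum_congr rfl fun n _ => ?_
      rw [hF]
      by_cases ha : n + q ∈ Q
      · by_cases hb : n + p ∈ Q
        · simp [ha, hb]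
        · simp [ha, hb]
      · simp [ha]
    rw [e, hT]
    refine sum_bij' (fun n _ => n + q) (fun m _ => m - q) ?_ ?_ ?_ ?_ ?_
    · intro n hn
      have h := (mem_filter.1 hn).2
      rw [mem_filter]
      refine ⟨h.1, ?_⟩
      rw [add_assoc, add_sub_cancel]
      exact h.2
    · intro m hm
      have h := mem_filter.1 hm
      rw [mem_filter, sub_add_cancel]
      refine ⟨hW m h.1 q hq, h.1, ?_⟩
      have e2 : m - q + p = m + (p - q) := by abel
      rw [e2]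
      exact h.2
    · intro n _
      exact add_sub_cancel_right _ _
    · intro m _
      exact sub_add_cancel _ _
    · intro n _
      have e2 : n + q + (p - q) = n + p := by abel
      show f (n + p) * (starRingEnd ℂ) (f (n + q)) =
        f (n + q + (p - q)) * (starRingEnd ℂ) (f (n + q))
      rw [e2]
  have h4 : (P.card : ℝ) ^ 2 * ‖∑ m ∈ Q, f m‖ ^ 2 =
      ‖∑ n ∈ W, ∑ p ∈ P, F (n + p)‖ ^ 2 := by
    rw [← h2, norm_mul, mul_pow]
    simp
  have h5 : ‖∑ n ∈ W, ∑ p ∈ P, F (n + p)‖ ^ 2 ≤ W.card * ∑ n ∈ W, ‖∑ p ∈ P, F (n + p)‖ ^ 2 := by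
    have h6 : ‖∑ n ∈ W, ∑ p ∈ P, F (n + p)‖ ^ 2 ≤ (∑ n ∈ W, ‖∑ p ∈ P, F (n + p)‖) ^ 2 :=
      pow_le_pow_left₀ (norm_nonneg _) (norm_sum_le _ _) 2
    exact h6.trans (sq_sum_le_card_mul_sum_sq (s := W) (f := fun n => ‖∑ p ∈ P, F (n + p)‖))
  have h6 : ∑ n ∈ W, ‖∑ p ∈ P, F (n + p)‖ ^ 2 ≤ ∑ p ∈ P, ∑ q ∈ P, ‖T (p - q)‖ := by
    have h7 : ((∑ n ∈ W, ‖∑ p ∈ P, F (n + p)‖ ^ 2 : ℝ) : ℂ) = ∑ p ∈ P, ∑ q ∈ P, T (p - q) := by
      push_cast
      have h8 : ∀ n ∈ W, ((‖∑ p ∈ P, F (n + p)‖ : ℂ)) ^ 2 =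
          ∑ p ∈ P, ∑ q ∈ P, F (n + p) * (starRingEnd ℂ) (F (n + q)) := by
        intro n _
        rw [← Complex.mul_conj', map_sum, sum_mul_sum]
      rw [sum_congr rfl h8, sum_comm]
      refine sum_congr rfl fun p hp => ?_
      rw [sum_comm]
      exact sum_congr rfl fun q hq => h3 p hp q hq
    have h9 : ∑ n ∈ W, ‖∑ p ∈ P, F (n + p)‖ ^ 2 ≤ ‖∑ p ∈ P, ∑ q ∈ P, T (p - q)‖ := by
      rw [← h7, Complex.norm_real]
      exact le_abs_self _
    refine h9.trans ((norm_sum_le _ _).trans (sum_le_sum fun p _ => norm_sum_le _ _))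
  have h7 : ∑ p ∈ P, ∑ q ∈ P, ‖T (p - q)‖ ≤
      P.card * ∑ k ∈ (P ×ˢ P).image (fun x => x.1 - x.2), ‖T k‖ := by
    rw [sum_comm]
    have h8 : ∀ q ∈ P, ∑ p ∈ P, ‖T (p - q)‖ ≤
        ∑ k ∈ (P ×ˢ P).image (fun x => x.1 - x.2), ‖T k‖ := by
      intro q hq
      have e : ∑ p ∈ P, ‖T (p - q)‖ = ∑ k ∈ P.image (fun p => p - q), ‖T k‖ := by
        rw [sum_image]
        intro a _ b _ h
        exact sub_left_injective h
      rw [e]
      refine sum_le_sum_of_subset_of_nonneg ?_ fun _ _ _ => norm_nonneg _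
      intro k hk
      obtain ⟨p, hp, rfl⟩ := mem_image.1 hk
      exact mem_image.2 ⟨(p, q), mem_product.2 ⟨hp, hq⟩, rfl⟩
    refine (sum_le_sum h8).trans (le_of_eq ?_)
    rw [sum_const, nsmul_eq_mul]
  rw [h4]
  refine h5.trans (mul_le_mul_of_nonneg_left (h6.trans h7) (Nat.cast_nonneg _))

theorem ext_tau {r d : ℕ} {τ : Fin d → Fin r} (hτ : Function.Injective τ) (h : Fin d → ℤ)
    (i : Fin d) : ext τ h (τ i) = h i := by
  rw [ext, sum_eq_single i]
  · rw [if_pos rfl]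
  · intro b _ hb
    rw [if_neg]
    intro h'
    exact hb (hτ h')
  · intro h'; exact absurd (mem_univ _) h'

theorem ext_not {r d : ℕ} {τ : Fin d → Fin r} (h : Fin d → ℤ) {j : Fin r}
    (hj : ∀ i, τ i ≠ j) : ext τ h j = 0 := by
  rw [ext]
  exact sum_eq_zero fun i _ => if_neg (hj i)

theorem ext_inj {r d : ℕ} {τ : Fin d → Fin r} (hτ : Function.Injective τ) :
    Function.Injective (ext τ) := by
  intro h h' e
  funext i
  rw [← ext_tau hτ h i, ← ext_tau hτ h' i, e]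

theorem ext_sub {r d : ℕ} (τ : Fin d → Fin r) (h h' : Fin d → ℤ) :
    ext τ h - ext τ h' = ext τ (h - h') := by
  funext j
  rw [Pi.sub_apply, ext, ext, ext, ← sum_sub_distrib]
  refine sum_congr rfl fun i _ => ?_
  split_ifs
  · rfl
  · exact sub_zero _

theorem s_weyl : S_WEYL := by
  classical
  intro r d τ hτ A M H f hH hHM
  have hdr : d ≤ r := by
    have h := Fintype.card_le_of_injective τ hτ
    simpa using h
  set Q := box A M with hQ
  set P : Finset (Fin d → ℤ) := Fintype.piFinset (fun _ : Fin d => Finset.Ico (0 : ℤ) H) with hP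
  set W : Finset (Fin r → ℤ) := Fintype.piFinset (fun j : Fin r =>
    if j ∈ univ.image τ then Finset.Ico (A j - H) (A j + M) else Finset.Ico (A j) (A j + M))
    with hWd
  have hPc : P.card = H ^ d := by
    rw [hP, Fintype.card_piFinset]
    simp
  have hPi : (P.image (ext τ)).card = H ^ d := by
    rw [card_image_of_injective _ (ext_inj hτ), hPc]
  have hWc : W.card ≤ 2 ^ d * M ^ r := by
    rw [hWd, Fintype.card_piFinset]
    have h1 : ∀ j : Fin r, (if j ∈ univ.image τ then Finset.Ico (A j - H) (A j + M)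
        else Finset.Ico (A j) (A j + M) : Finset ℤ).card ≤
        (if j ∈ univ.image τ then 2 else 1) * M := by
      intro j
      split_ifs
      · rw [Int.card_Ico]
        have e : (A j + M - (A j - H)).toNat = M + H := by omega
        rw [e]
        omega
      · rw [Int.card_Ico]
        have e : (A j + M - A j).toNat = M := by omega
        rw [e]
        omega
    refine (prod_le_prod' fun j _ => h1 j).trans (le_of_eq ?_)
    rw [prod_mul_distrib, prod_const, card_univ, Fintype.card_fin, prod_ite, prod_const,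
      prod_const_one, mul_one]
    congr 2
    have e : (univ.filter fun j : Fin r => j ∈ univ.image τ) = univ.image τ := by
      ext j
      simp
    rw [e, card_image_of_injective _ hτ, card_univ, Fintype.card_fin]
  have hW : ∀ m ∈ Q, ∀ p ∈ P.image (ext τ), m - p ∈ W := by
    intro m hm p hp
    obtain ⟨h, hh, rfl⟩ := mem_image.1 hp
    rw [hQ, box, Fintype.mem_piFinset] at hm
    rw [hP, Fintype.mem_piFinset] at hh
    rw [hWd, Fintype.mem_piFinset]
    intro j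
    have hmj := mem_Ico.1 (hm j)
    by_cases hj : j ∈ univ.image τ
    · rw [if_pos hj, mem_Ico, Pi.sub_apply]
      obtain ⟨i, _, rfl⟩ := mem_image.1 hj
      rw [ext_tau hτ]
      have hhi := mem_Ico.1 (hh i)
      omega
    · rw [if_neg hj, mem_Ico, Pi.sub_apply, ext_not, sub_zero]
      · exact hmj
      · intro i hi
        exact hj (mem_image.2 ⟨i, mem_univ _, hi⟩)
  have h1 := vdc Q W (P.image (ext τ)) f hW
  rw [hPi] at h1
  set T : (Fin r → ℤ) → ℝ := fun k =>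
    ‖∑ m ∈ Q.filter (fun m => m + k ∈ Q), f (m + k) * (starRingEnd ℂ) (f m)‖ with hT
  have h2 : ∑ k ∈ ((P.image (ext τ)) ×ˢ (P.image (ext τ))).image (fun x => x.1 - x.2), T k ≤
      ∑ h ∈ Fintype.piFinset (fun _ : Fin d => Finset.Ioo (-(H : ℤ)) H), T (ext τ h) := by
    have e : ∑ h ∈ Fintype.piFinset (fun _ : Fin d => Finset.Ioo (-(H : ℤ)) H), T (ext τ h) =
        ∑ k ∈ (Fintype.piFinset (fun _ : Fin d => Finset.Ioo (-(H : ℤ)) H)).image (ext τ), T k := by
      rw [sum_image]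
      intro a _ b _ h
      exact ext_inj hτ h
    rw [e]
    refine sum_le_sum_of_subset_of_nonneg ?_ fun _ _ _ => norm_nonneg _
    intro k hk
    obtain ⟨⟨p, q⟩, hpq, rfl⟩ := mem_image.1 hk
    rw [mem_product] at hpq
    obtain ⟨h, hh, hp⟩ := mem_image.1 hpq.1
    obtain ⟨h', hh', hq⟩ := mem_image.1 hpq.2
    simp only at hp hq
    rw [mem_image]
    refine ⟨h - h', ?_, ?_⟩
    · rw [Fintype.mem_piFinset]
      intro i
      rw [hP, Fintype.mem_piFinset] at hh hh'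
      have h3 := mem_Ico.1 (hh i)
      have h4 := mem_Ico.1 (hh' i)
      rw [mem_Ioo, Pi.sub_apply]
      omega
    · rw [← ext_sub, hp, hq]
  have hH0 : (0 : ℝ) < (H : ℝ) ^ d := by
    have : (0 : ℝ) < H := by exact_mod_cast hH
    positivity
  set S2 : ℝ := ∑ h ∈ Fintype.piFinset (fun _ : Fin d => Finset.Ioo (-(H : ℤ)) H), T (ext τ h)
    with hS2
  have hS2n : 0 ≤ S2 := sum_nonneg fun _ _ => norm_nonneg _
  have h3 : ((H : ℝ) ^ d) ^ 2 * ‖∑ m ∈ Q, f m‖ ^ 2 ≤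
      (2 ^ d * (M : ℝ) ^ r) * ((H : ℝ) ^ d * S2) := by
    push_cast at h1
    refine h1.trans ?_
    have h4 : (W.card : ℝ) ≤ 2 ^ d * (M : ℝ) ^ r := by exact_mod_cast hWc
    have h5 : (0 : ℝ) ≤ (H : ℝ) ^ d * S2 := by positivity
    calc (W.card : ℝ) * ((H : ℝ) ^ d * ∑ k ∈ ((P.image (ext τ)) ×ˢ (P.image (ext τ))).image
          (fun x => x.1 - x.2), T k) ≤ (W.card : ℝ) * ((H : ℝ) ^ d * S2) :=
          mul_le_mul_of_nonneg_left (mul_le_mul_of_nonneg_left h2 hH0.le) (Nat.cast_nonneg _)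
      _ ≤ _ := mul_le_mul_of_nonneg_right h4 h5
  have h4 : ‖∑ m ∈ Q, f m‖ ^ 2 ≤ 2 ^ d * (M : ℝ) ^ r / (H : ℝ) ^ d * S2 := by
    rw [div_mul_eq_mul_div, le_div_iff₀ hH0]
    have h5 : (‖∑ m ∈ Q, f m‖ ^ 2 * (H : ℝ) ^ d) * (H : ℝ) ^ d ≤
        (2 ^ d * (M : ℝ) ^ r * S2) * (H : ℝ) ^ d := by
      calc (‖∑ m ∈ Q, f m‖ ^ 2 * (H : ℝ) ^ d) * (H : ℝ) ^ d =
            ((H : ℝ) ^ d) ^ 2 * ‖∑ m ∈ Q, f m‖ ^ 2 := by ring
        _ ≤ _ := h3
        _ = _ := by ring
    exact le_of_mul_le_mul_right h5 hH0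
  exact h4

end Pool.Agent.Helper73.SC.WEYL
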