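import Pool.Agent.Helper73.SC.A4
import Pool.Agent.Helper73.SC.Ft
import Pool.Agent.Helper73.SC.AE
import Pool.Agent.Helper73.SC.AE2
import Pool.Agent.Helper73.SC.BOX
import Pool.Agent.Helper73.SC.WEYL
import Pool.Agent.Helper73.BL.G3

set_option autoImplicit false

/-!
# Subconvexity for Barnes zeta functions: assembly
-/

namespace Pool.Agent.Helper73.SC

open MeasureTheory Metric Finset

open Pool.Agent.H131R5.BZ Pool.Agent.Y930.Bz in
/-- the bound for all weights spanning the same space as `v` and all `a`, for almost every `v` -/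
def S_SFIN : Prop :=
  ∀ d : ℕ, 1 ≤ d → ∀ᵐ v : Fin d → ℝ, LinearIndependent ℚ v ∧
    ∀ (r : ℕ) (w : Fin r → ℝ) (a : ℝ), (∀ j, 0 < w j) → 0 < a →
      Submodule.span ℚ (Set.range w) = Submodule.span ℚ (Set.range v) →
      ∀ c : ℕ → ℂ, Tay a w c → ∀ ε : ℝ, 0 < ε → ∀ σ₁ : ℝ, ∃ C : ℝ, 0 ≤ C ∧ ∀ σ t : ℝ,
        (r : ℝ) - d / 2 ≤ σ → σ ≤ σ₁ → 2 ≤ t →
        ‖FF a w c ((σ : ℂ) + t * Complex.I)‖ ≤ C * t ^ ((d : ℝ) / (2 * (2 * d + 1)) + ε)

/-- an almost everywhere property holds at `B v` for almost every `v` -/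
lemma ae_mulVec {d : ℕ} {P : (Fin d → ℝ) → Prop} (hP : ∀ᵐ u : Fin d → ℝ, P u)
    (B : Matrix (Fin d) (Fin d) ℝ) (hB : B.det ≠ 0) : ∀ᵐ v : Fin d → ℝ, P (B.mulVec v) := by
  have h1 := MeasureTheory.Measure.LinearMap.quasiMeasurePreserving (volume : Measure (Fin d → ℝ)) (Matrix.toLin' B)
    (by rwa [LinearMap.det_toLin'])
  have h2 := h1.ae hP
  simpa only [Matrix.toLin'_apply] using h2

theorem s_sfin (hS : S_SC) (hG : BL.S_G3) : S_SFIN := by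
  intro d hd
  have hd0 : (0 : ℝ) < d := by exact_mod_cast hd
  have hd1 : (1 : ℝ) ≤ d := by exact_mod_cast hd
  have hae : ∀ᵐ v : Fin d → ℝ, ∀ B : Fin d → Fin d → ℚ, (Pool.Agent.Y616.BM.rm B).det ≠ 0 →
      ((∀ j, 0 < (Pool.Agent.Y616.BM.rm B).mulVec v j) →
      ∀ (r : ℕ) (τ : Fin d → Fin r) (w : Fin r → ℝ) (a : ℝ), Function.Injective τ → 0 < a →
      (∀ j, 0 < w j) → (∀ i, w (τ i) = (Pool.Agent.Y616.BM.rm B).mulVec v i) →
      ∀ η : ℝ, (d : ℝ) / (2 * (2 * d + 1)) < η →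
      ∃ C : ℝ, 0 ≤ C ∧ ∀ (i : ℕ) (σ t : ℝ), (2 : ℝ) ^ i ≤ t ^ (2 / (2 * (d : ℝ) + 1)) → 0 ≤ σ →
        σ ≤ r + 1 → 1 ≤ t →
        ‖BL.boxSum r a w i ((σ : ℂ) + t * Complex.I)‖ ≤
          C * t ^ η * ((2 : ℝ) ^ i) ^ (max 0 ((r : ℝ) - d / 2 - σ))) := by
    rw [ae_all_iff]
    intro B
    by_cases hB : (Pool.Agent.Y616.BM.rm B).det ≠ 0
    · filter_upwards [ae_mulVec (hS d hd) (Pool.Agent.Y616.BM.rm B) hB] with v hv
      exact fun _ => hv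
    · exact Filter.Eventually.of_forall fun v h => absurd h hB
  filter_upwards [hae, Pool.Agent.Y616.BM.ae_goo d, Pool.Agent.Y616.BM.ae_indep d] with v hE hGoo hv
  refine ⟨hv, fun r w a hw ha hspan c hc ε hε σ₁ => ?_⟩
  obtain ⟨B, e, he, hdet, hwB⟩ := Pool.Agent.Y616.BM.lin hv hspan
  have hdr : d ≤ r := by simpa using Fintype.card_le_of_injective e he
  have hdr' : (d : ℝ) ≤ r := Nat.cast_le.2 hdr
  have hrm : (Pool.Agent.Y616.BM.rm B).submatrix e id =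
      Pool.Agent.Y616.BM.rm (fun i => B (e i)) := by
    ext i j
    simp [Pool.Agent.Y616.BM.rm]
  rw [hrm] at hdet
  have hwe : ∀ i, w (e i) = (Pool.Agent.Y616.BM.rm (fun i => B (e i))).mulVec v i := by
    intro i
    rw [hwB, ← hrm]
    rfl
  obtain ⟨C, hC, hbox⟩ := hE (fun i => B (e i)) hdet (fun i => by rw [← hwe]; exact hw _) r e w a he
    ha hw hwe ((d : ℝ) / (2 * (2 * d + 1)) + ε / 2) (by linarith)
  have hθ1 : 2 / (2 * (d : ℝ) + 1) ≤ 1 := by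
    rw [div_le_one (by positivity)]
    linarith
  have hβ : (1 - 2 / (2 * (d : ℝ) + 1) * d) / 2 ≤ (d : ℝ) / (2 * (2 * d + 1)) := by
    have h1 : (1 - 2 / (2 * (d : ℝ) + 1) * d) / 2 = 1 / (2 * (2 * d + 1)) := by
      field_simp
      ring
    rw [h1]
    apply div_le_div_of_nonneg_right hd1 (by positivity)
  refine hG r d a w c hd hdr ha hw hc (fun κ hκ _ => ?_) ((d : ℝ) / (2 * (2 * d + 1)) + ε / 2)
    (2 / (2 * (d : ℝ) + 1)) (by positivity) (by positivity) hθ1 ⟨C, hC, hbox⟩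
    ((d : ℝ) / (2 * (2 * d + 1)) + ε) (by linarith) (by linarith) σ₁
  exact Pool.Agent.Y616.BM.line_bound hv hGoo ha hw hspan hc (σ := (r : ℝ) - d + κ)
    (by linarith) (by linarith) hκ

theorem main_sub : S_SFIN :=
  s_sfin (s_sc AE.s_ae AE2.s_ae2 s_ft WEYL.s_weyl BOX.s_box) BL.s_g3

end Pool.Agent.Helper73.SC
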