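import Pool.Agent.Helper73.BL.St3

set_option autoImplicit false

/-!
# Subconvexity for Barnes zeta functions with almost all weights: definitions and statements
-/

namespace Pool.Agent.Helper73.SC

open MeasureTheory Metric Finset

/-- distance to the nearest integer -/
noncomputable def nd (y : ℝ) : ℝ := |y - round y|

/-- `min (N, 1 / ‖y‖)` -/
noncomputable def DN (N y : ℝ) : ℝ := (max N⁻¹ (nd y))⁻¹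

/-- the exponential `e(y)` -/
noncomputable def ex (y : ℝ) : ℂ := Complex.exp (2 * Real.pi * Complex.I * y)

/-- the box `∏ [A j, A j + M)` -/
noncomputable def box {r : ℕ} (A : Fin r → ℤ) (M : ℕ) : Finset (Fin r → ℤ) :=
  Fintype.piFinset fun j => Finset.Ico (A j) (A j + M)

/-- the extension of a vector by zero -/
def ext {r d : ℕ} (τ : Fin d → Fin r) (h : Fin d → ℤ) : Fin r → ℤ :=
  fun j => ∑ i, if τ i = j then h i else 0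

/-- module AE: the mean of the product of the kernels, for almost every `v` -/
def S_AE : Prop :=
  ∀ d : ℕ, 1 ≤ d → ∀ᵐ v : Fin d → ℝ, (∀ j, 0 < v j) → ∀ ε : ℝ, 0 < ε → ∃ C : ℝ, 0 ≤ C ∧
    ∀ X N : ℝ, 1 ≤ X → 1 ≤ N →
      ∫⁻ ξ in Set.Icc (-X) X, ENNReal.ofReal (∏ j, DN N (v j * ξ)) ≤
        ENNReal.ofReal (C * (X * N) ^ ε * (X + N ^ (d - 1)))

/-- module AE2: the mean of `|h · v|^(-1/2)`, for almost every `v` -/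
def S_AE2 : Prop :=
  ∀ d : ℕ, 1 ≤ d → ∀ᵐ v : Fin d → ℝ, (∀ h : Fin d → ℤ, h ≠ 0 → ∑ j, (h j : ℝ) * v j ≠ 0) ∧
    ∀ ε : ℝ, 0 < ε → ∃ C : ℝ, 0 ≤ C ∧ ∀ H : ℕ, 1 ≤ H →
      ∑ h ∈ Fintype.piFinset (fun _ : Fin d => Finset.Ioo (-(H : ℤ)) H),
        |∑ j, (h j : ℝ) * v j| ^ (-(1 / 2) : ℝ) ≤ C * (H : ℝ) ^ ((d : ℝ) - 1 / 2 + ε)

/-- module VC: the second derivative test -/
def S_VC : Prop :=
  ∃ C : ℝ, 0 < C ∧ ∀ (A B μ K : ℝ) (ψ : ℝ → ℂ) (f : ℝ → ℝ), A ≤ B → 0 < μ → ContDiff ℝ 1 ψ →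
    ContDiffOn ℝ 2 f (Set.Icc A B) →
    (∀ x ∈ Set.Icc A B, ‖ψ x‖ ≤ K) → (∫ x in A..B, ‖deriv ψ x‖) ≤ K →
    ((∀ x ∈ Set.Ioo A B, μ ≤ iteratedDeriv 2 f x) ∨ (∀ x ∈ Set.Ioo A B, iteratedDeriv 2 f x ≤ -μ)) →
    ‖∫ x in A..B, ψ x * Complex.exp (Complex.I * f x)‖ ≤ C * K * μ ^ (-(1 / 2) : ℝ)

/-- module FT: the differenced function as a Fourier integral -/
def S_FT : Prop :=
  ∀ c₁ c₂ H₀ : ℝ, 0 < c₁ → c₁ < c₂ → 0 ≤ H₀ → ∃ C : ℝ, 1 ≤ C ∧ ∀ (N b : ℝ) (s : ℂ), 1 ≤ N →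
    b ≠ 0 → |b| ≤ c₁ * N / 2 → |s.re| ≤ H₀ → 1 ≤ s.im → ∃ g : ℝ → ℂ, Integrable g ∧ Continuous g ∧
      (∀ x, c₁ * N ≤ x → x ≤ c₂ * N →
        (((x + b) / N : ℝ) : ℂ) ^ (-s) * ((x / N : ℝ) : ℂ) ^ (-(starRingEnd ℂ) s) =
          ∫ ξ, g ξ * ex (x * ξ)) ∧
      (∀ ξ, ‖g ξ‖ ≤ C * N * (s.im * |b| / N) ^ (-(1 / 2) : ℝ)) ∧
      (∀ ξ, C * (s.im * |b| / N) ≤ N * |ξ| → 1 ≤ N * |ξ| → ‖g ξ‖ ≤ C / (N * ξ ^ 2))

/-- module WEYL: the inequality of Weyl and van der Corput for shifts in the directions `τ` -/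
def S_WEYL : Prop :=
  ∀ (r d : ℕ) (τ : Fin d → Fin r), Function.Injective τ →
    ∀ (A : Fin r → ℤ) (M H : ℕ) (f : (Fin r → ℤ) → ℂ), 1 ≤ H → H ≤ M →
      ‖∑ m ∈ box A M, f m‖ ^ 2 ≤ 2 ^ d * (M : ℝ) ^ r / (H : ℝ) ^ d *
        ∑ h ∈ Fintype.piFinset (fun _ : Fin d => Finset.Ioo (-(H : ℤ)) H),
          ‖∑ m ∈ (box A M).filter (fun m => m + ext τ h ∈ box A M),
            f (m + ext τ h) * (starRingEnd ℂ) (f m)‖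

/-- module BOX: a sum over a box through the Fourier integral -/
def S_BOX : Prop :=
  ∀ (r d : ℕ) (τ : Fin d → Fin r), Function.Injective τ →
    ∀ (A : Fin r → ℤ) (M : ℕ) (h : Fin d → ℤ) (a : ℝ) (w : Fin r → ℝ) (g : ℝ → ℂ), 1 ≤ M →
      Integrable g → Continuous g →
      ‖∑ m ∈ (box A M).filter (fun m => m + ext τ h ∈ box A M),
        ∫ ξ, g ξ * ex ((a + ∑ j, (m j : ℝ) * w j) * ξ)‖ ≤
      (M : ℝ) ^ (r - d) * ∫ ξ, ‖g ξ‖ * ∏ i, DN M (w (τ i) * ξ)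

/-- module SC: the box sums for almost every `v` -/
def S_SC : Prop :=
  ∀ d : ℕ, 1 ≤ d → ∀ᵐ v : Fin d → ℝ, (∀ j, 0 < v j) →
    ∀ (r : ℕ) (τ : Fin d → Fin r) (w : Fin r → ℝ) (a : ℝ), Function.Injective τ → 0 < a →
      (∀ j, 0 < w j) → (∀ i, w (τ i) = v i) → ∀ η : ℝ, (d : ℝ) / (2 * (2 * d + 1)) < η →
      ∃ C : ℝ, 0 ≤ C ∧ ∀ (i : ℕ) (σ t : ℝ), (2 : ℝ) ^ i ≤ t ^ (2 / (2 * (d : ℝ) + 1)) → 0 ≤ σ →
        σ ≤ r + 1 → 1 ≤ t →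
        ‖BL.boxSum r a w i ((σ : ℂ) + t * Complex.I)‖ ≤
          C * t ^ η * ((2 : ℝ) ^ i) ^ (max 0 ((r : ℝ) - d / 2 - σ))

end Pool.Agent.Helper73.SC
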