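import Pool.Agent.Helper73.SC.Stm

set_option autoImplicit false

/-!
# The second derivative test of van der Corput with an amplitude
-/

namespace Pool.Agent.Helper73.SC.VC

open MeasureTheory Metric Finset Set intervalIntegral

/-- the case of an increasing derivative; `h = f'`, `h2 = f''` on the open interval -/
theorem core (A B μ K : ℝ) (ψ : ℝ → ℂ) (f h h2 : ℝ → ℝ) (hAB : A ≤ B) (hμ : 0 < μ)
    (hψ : ContDiff ℝ 1 ψ) (hf : ContinuousOn f (Icc A B)) (hh : ContinuousOn h (Icc A B))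
    (hh2 : ContinuousOn h2 (Icc A B)) (hd : ∀ x ∈ Ioo A B, HasDerivAt f (h x) x)
    (hd2 : ∀ x ∈ Ioo A B, HasDerivAt h (h2 x) x) (hpos : ∀ x ∈ Icc A B, μ ≤ h2 x)
    (hK : ∀ x ∈ Icc A B, ‖ψ x‖ ≤ K) (hV : (∫ x in A..B, ‖deriv ψ x‖) ≤ K) :
    ‖∫ x in A..B, ψ x * Complex.exp (Complex.I * f x)‖ ≤ 8 * K * μ ^ (-(1 / 2) : ℝ) := by
  set l : ℝ := Real.sqrt μ with hl
  have hl0 : 0 < l := Real.sqrt_pos.mpr hμ
  have hl2 : l ^ 2 = μ := Real.sq_sqrt hμ.le
  have hK0 : 0 ≤ K := le_trans (norm_nonneg _) (hK A ⟨le_rfl, hAB⟩)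
  have hIcc : uIcc A B = Icc A B := uIcc_of_le hAB
  -- the auxiliary functions
  set u : ℝ → ℝ := fun x => h x / (h x ^ 2 + l ^ 2) with hu
  set u' : ℝ → ℝ := fun x => h2 x * (l ^ 2 - h x ^ 2) / (h x ^ 2 + l ^ 2) ^ 2 with hu'
  have hden : ∀ x, 0 < h x ^ 2 + l ^ 2 := fun x => by positivity
  have hdenc : ContinuousOn (fun x => h x ^ 2 + l ^ 2) (Icc A B) := (hh.pow 2).add continuousOn_const
  have huc : ContinuousOn u (Icc A B) := hh.div hdenc fun x _ => (hden x).ne'
  have hu'c : ContinuousOn u' (Icc A B) :=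
    (hh2.mul (continuousOn_const.sub (hh.pow 2))).div (hdenc.pow 2) fun x _ => by
      have := hden x; positivity
  have hud : ∀ x ∈ Ioo A B, HasDerivAt u (u' x) x := by
    intro x hx
    have h1 := (hd2 x hx)
    have h3 : HasDerivAt (fun x => h x ^ 2 + l ^ 2) (2 * h x * h2 x) x := by
      have := (h1.pow 2).add_const (l ^ 2)
      simpa using this
    have h4 := h1.div h3 (hden x).ne'
    have e : u' x = (h2 x * (h x ^ 2 + l ^ 2) - h x * (2 * h x * h2 x)) / (h x ^ 2 + l ^ 2) ^ 2 := by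
      simp only [hu']; ring
    rw [e]
    exact h4
  have hub : ∀ x, |u x| ≤ 1 / (2 * l) := by
    intro x
    simp only [hu]
    rw [abs_div, abs_of_pos (hden x), div_le_div_iff₀ (hden x) (by positivity)]
    have := sq_nonneg (|h x| - l)
    rw [← sq_abs (h x)]
    nlinarith
  set E : ℝ → ℂ := fun x => Complex.exp (Complex.I * f x) with hE
  have hEc : ContinuousOn E (Icc A B) :=
    Complex.continuous_exp.comp_continuousOn
      (continuousOn_const.mul (Complex.continuous_ofReal.comp_continuousOn hf))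
  have hEn : ∀ x, ‖E x‖ = 1 := by
    intro x
    simp only [hE]
    rw [mul_comm]
    exact Complex.norm_exp_ofReal_mul_I _
  have hEd : ∀ x ∈ Ioo A B, HasDerivAt E (E x * (Complex.I * h x)) x := by
    intro x hx
    exact ((hd x hx).ofReal_comp.const_mul Complex.I).cexp
  have hψd : ∀ x, HasDerivAt ψ (deriv ψ x) x := fun x =>
    (hψ.differentiable one_ne_zero x).hasDerivAt
  have hψ'c : Continuous (deriv ψ) := hψ.continuous_deriv le_rfl
  have hψc : Continuous ψ := hψ.continuous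
  -- the primitive
  set G : ℝ → ℂ := fun x => ψ x * E x * (u x : ℂ) with hG
  set G' : ℝ → ℂ := fun x => (deriv ψ x * E x + ψ x * (E x * (Complex.I * h x))) * (u x : ℂ) +
    ψ x * E x * (u' x : ℂ) with hG'
  have hofr : ∀ {v : ℝ → ℝ}, ContinuousOn v (Icc A B) → ContinuousOn (fun x => (v x : ℂ)) (Icc A B) :=
    fun hv => Complex.continuous_ofReal.comp_continuousOn hv
  have hGc : ContinuousOn G (Icc A B) := (hψc.continuousOn.mul hEc).mul (hofr huc)
  have hG'c : ContinuousOn G' (Icc A B) := by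
    refine ContinuousOn.add (ContinuousOn.mul (ContinuousOn.add (hψ'c.continuousOn.mul hEc) ?_)
      (hofr huc)) ((hψc.continuousOn.mul hEc).mul (hofr hu'c))
    exact hψc.continuousOn.mul (hEc.mul (continuousOn_const.mul (hofr hh)))
  have hGd : ∀ x ∈ Ioo A B, HasDerivAt G (G' x) x := fun x hx =>
    ((hψd x).mul (hEd x hx)).mul (hud x hx).ofReal_comp
  have hFT : ∫ x in A..B, G' x = G B - G A := by
    refine intervalIntegral.integral_eq_sub_of_hasDerivAt_of_le hAB hGc hGd ?_
    exact (hG'c.mono (by rw [hIcc])).intervalIntegrable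
  -- the decomposition
  set R1 : ℝ → ℂ := fun x => deriv ψ x * E x * (u x : ℂ) with hR1
  set R2 : ℝ → ℂ := fun x => ψ x * E x * (u' x : ℂ) with hR2
  set R3 : ℝ → ℂ := fun x => ψ x * E x * ((l ^ 2 / (h x ^ 2 + l ^ 2) : ℝ) : ℂ) with hR3
  have hR1c : ContinuousOn R1 (Icc A B) := (hψ'c.continuousOn.mul hEc).mul (hofr huc)
  have hR2c : ContinuousOn R2 (Icc A B) := (hψc.continuousOn.mul hEc).mul (hofr hu'c)
  have hR3c : ContinuousOn R3 (Icc A B) := (hψc.continuousOn.mul hEc).mul
    (hofr (continuousOn_const.div hdenc fun x _ => (hden x).ne'))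
  have ii : ∀ {v : ℝ → ℂ}, ContinuousOn v (Icc A B) → IntervalIntegrable v volume A B :=
    fun hv => (hv.mono (by rw [hIcc])).intervalIntegrable
  have iir : ∀ {v : ℝ → ℝ}, ContinuousOn v (Icc A B) → IntervalIntegrable v volume A B :=
    fun hv => (hv.mono (by rw [hIcc])).intervalIntegrable
  have hdec : Complex.I * ∫ x in A..B, ψ x * E x =
      (G B - G A) - (∫ x in A..B, R1 x) - (∫ x in A..B, R2 x) + Complex.I * ∫ x in A..B, R3 x := by
    rw [← hFT, ← intervalIntegral.integral_sub (ii hG'c) (ii hR1c),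
      ← intervalIntegral.integral_sub ((ii hG'c).sub (ii hR1c)) (ii hR2c),
      ← intervalIntegral.integral_const_mul, ← intervalIntegral.integral_const_mul,
      ← intervalIntegral.integral_add (((ii hG'c).sub (ii hR1c)).sub (ii hR2c))
        ((ii hR3c).const_mul _)]
    refine intervalIntegral.integral_congr fun x _ => ?_
    simp only [hG', hR1, hR2, hR3, hu]
    have hne : ((h x : ℂ) ^ 2 + (l : ℂ) ^ 2) ≠ 0 := by
      have := (hden x).ne'
      exact_mod_cast this
    push_cast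
    field_simp
    ring
  have hbd : ‖G B - G A‖ ≤ K / l := by
    have hb : ∀ x ∈ Icc A B, ‖G x‖ ≤ K * (1 / (2 * l)) := by
      intro x hx
      simp only [hG]
      rw [norm_mul, norm_mul, hEn, mul_one, Complex.norm_real, Real.norm_eq_abs]
      exact mul_le_mul (hK x hx) (hub x) (abs_nonneg _) hK0
    calc ‖G B - G A‖ ≤ ‖G B‖ + ‖G A‖ := norm_sub_le _ _
      _ ≤ K * (1 / (2 * l)) + K * (1 / (2 * l)) :=
          add_le_add (hb B ⟨hAB, le_rfl⟩) (hb A ⟨le_rfl, hAB⟩)
      _ = K / l := by field_simp; ring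
  have hb1 : ‖∫ x in A..B, R1 x‖ ≤ K * (1 / (2 * l)) := by
    calc ‖∫ x in A..B, R1 x‖ ≤ ∫ x in A..B, ‖deriv ψ x‖ * (1 / (2 * l)) := by
          refine intervalIntegral.norm_integral_le_of_norm_le hAB ?_
            ((hψ'c.norm.mul continuous_const).intervalIntegrable _ _)
          refine Filter.Eventually.of_forall fun x _ => ?_
          simp only [hR1]
          rw [norm_mul, norm_mul, hEn, mul_one, Complex.norm_real, Real.norm_eq_abs]
          exact mul_le_mul_of_nonneg_left (hub x) (norm_nonneg _)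
      _ = (∫ x in A..B, ‖deriv ψ x‖) * (1 / (2 * l)) := by
          rw [intervalIntegral.integral_mul_const]
      _ ≤ _ := mul_le_mul_of_nonneg_right hV (by positivity)
  -- the arctangent
  set T : ℝ → ℝ := fun x => (1 / l) * Real.arctan (h x / l) with hT
  have hTc : ContinuousOn T (Icc A B) :=
    continuousOn_const.mul (Real.continuous_arctan.comp_continuousOn (hh.div_const l))
  have hTd : ∀ x ∈ Ioo A B, HasDerivAt T (h2 x / (h x ^ 2 + l ^ 2)) x := by
    intro x hx
    have h1 := ((hd2 x hx).div_const l).arctan.const_mul (1 / l)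
    have e : h2 x / (h x ^ 2 + l ^ 2) = 1 / l * (1 / (1 + (h x / l) ^ 2) * (h2 x / l)) := by
      have := hden x
      field_simp
      ring
    rw [e]
    exact h1
  have hTi : ∫ x in A..B, h2 x / (h x ^ 2 + l ^ 2) = T B - T A := by
    refine intervalIntegral.integral_eq_sub_of_hasDerivAt_of_le hAB hTc hTd ?_
    exact iir (hh2.div hdenc fun x _ => (hden x).ne')
  have hTb : T B - T A ≤ Real.pi / l := by
    have h1 := Real.arctan_lt_pi_div_two (h B / l)
    have h2 := Real.neg_pi_div_two_lt_arctan (h A / l)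
    simp only [hT]
    rw [← mul_sub, one_div, inv_mul_eq_div]
    exact div_le_div_of_nonneg_right (by linarith) hl0.le
  have hJ : ∫ x in A..B, K * (h2 x / (h x ^ 2 + l ^ 2)) ≤ K * (Real.pi / l) := by
    rw [intervalIntegral.integral_const_mul, hTi]
    exact mul_le_mul_of_nonneg_left hTb hK0
  have hJi : IntervalIntegrable (fun x => K * (h2 x / (h x ^ 2 + l ^ 2))) volume A B :=
    (iir (hh2.div hdenc fun x _ => (hden x).ne')).const_mul K
  have hb2 : ‖∫ x in A..B, R2 x‖ ≤ K * (Real.pi / l) := by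
    refine le_trans (intervalIntegral.norm_integral_le_of_norm_le hAB ?_ hJi) hJ
    refine Filter.Eventually.of_forall fun x hx => ?_
    have hx' : x ∈ Icc A B := ⟨hx.1.le, hx.2⟩
    simp only [hR2]
    rw [norm_mul, norm_mul, hEn, mul_one, Complex.norm_real, Real.norm_eq_abs]
    refine mul_le_mul (hK x hx') ?_ (abs_nonneg _) hK0
    simp only [hu']
    have h0 : 0 ≤ h2 x := hμ.le.trans (hpos x hx')
    rw [abs_div, abs_mul, abs_of_nonneg h0, abs_of_pos (by have := hden x; positivity :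
      0 < (h x ^ 2 + l ^ 2) ^ 2), div_le_div_iff₀ (by have := hden x; positivity) (hden x)]
    have h5 : |l ^ 2 - h x ^ 2| ≤ h x ^ 2 + l ^ 2 := by
      rw [abs_le]
      constructor <;> nlinarith [sq_nonneg (h x), sq_nonneg l]
    calc h2 x * |l ^ 2 - h x ^ 2| * (h x ^ 2 + l ^ 2) ≤
          h2 x * (h x ^ 2 + l ^ 2) * (h x ^ 2 + l ^ 2) := by
          have := hden x
          gcongr
      _ = h2 x * (h x ^ 2 + l ^ 2) ^ 2 := by ring
  have hb3 : ‖∫ x in A..B, R3 x‖ ≤ K * (Real.pi / l) := by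
    refine le_trans (intervalIntegral.norm_integral_le_of_norm_le hAB ?_ hJi) hJ
    refine Filter.Eventually.of_forall fun x hx => ?_
    have hx' : x ∈ Icc A B := ⟨hx.1.le, hx.2⟩
    simp only [hR3]
    rw [norm_mul, norm_mul, hEn, mul_one, Complex.norm_real, Real.norm_eq_abs]
    refine mul_le_mul (hK x hx') ?_ (abs_nonneg _) hK0
    rw [abs_of_nonneg (by have := hden x; positivity)]
    exact div_le_div_of_nonneg_right (by rw [hl2]; exact hpos x hx') (hden x).le
  have hfin : ‖∫ x in A..B, ψ x * E x‖ ≤ K / l + K * (1 / (2 * l)) + K * (Real.pi / l) +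
      K * (Real.pi / l) := by
    have e : ‖∫ x in A..B, ψ x * E x‖ = ‖Complex.I * ∫ x in A..B, ψ x * E x‖ := by
      rw [norm_mul, Complex.norm_I, one_mul]
    rw [e, hdec]
    refine le_trans (norm_add_le _ _) ?_
    rw [norm_mul, Complex.norm_I, one_mul]
    refine add_le_add (le_trans (norm_sub_le _ _) (add_le_add
      (le_trans (norm_sub_le _ _) (add_le_add hbd hb1)) hb2)) hb3
  have hlp : μ ^ (-(1 / 2) : ℝ) = 1 / l := by
    rw [Real.rpow_neg hμ.le, hl, Real.sqrt_eq_rpow]
    simp only [one_div]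
  rw [hlp]
  refine hfin.trans ?_
  have hpi := Real.pi_lt_d2
  have e2 : K / l + K * (1 / (2 * l)) + K * (Real.pi / l) + K * (Real.pi / l) =
      (3 / 2 + 2 * Real.pi) * K * (1 / l) := by field_simp; ring
  rw [e2]
  have : 0 ≤ K * (1 / l) := by positivity
  nlinarith

/-- both signs -/
theorem s_vc' (A B μ K : ℝ) (ψ : ℝ → ℂ) (f h h2 : ℝ → ℝ) (hAB : A ≤ B) (hμ : 0 < μ)
    (hψ : ContDiff ℝ 1 ψ) (hf : ContinuousOn f (Icc A B)) (hh : ContinuousOn h (Icc A B))
    (hh2 : ContinuousOn h2 (Icc A B)) (hd : ∀ x ∈ Ioo A B, HasDerivAt f (h x) x)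
    (hd2 : ∀ x ∈ Ioo A B, HasDerivAt h (h2 x) x)
    (hpos : (∀ x ∈ Icc A B, μ ≤ h2 x) ∨ (∀ x ∈ Icc A B, h2 x ≤ -μ))
    (hK : ∀ x ∈ Icc A B, ‖ψ x‖ ≤ K) (hV : (∫ x in A..B, ‖deriv ψ x‖) ≤ K) :
    ‖∫ x in A..B, ψ x * Complex.exp (Complex.I * f x)‖ ≤ 8 * K * μ ^ (-(1 / 2) : ℝ) := by
  rcases hpos with h0 | h0
  · exact core A B μ K ψ f h h2 hAB hμ hψ hf hh hh2 hd hd2 h0 hK hV
  · set ψ' : ℝ → ℂ := fun x => (starRingEnd ℂ) (ψ x) with hψ'
    have hd' : ∀ x, HasDerivAt ψ' ((starRingEnd ℂ) (deriv ψ x)) x := by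
      intro x
      have h1 := (hψ.differentiable one_ne_zero x).hasDerivAt
      exact h1.star
    have hder : deriv ψ' = fun x => (starRingEnd ℂ) (deriv ψ x) := funext fun x => (hd' x).deriv
    have hψ'c : ContDiff ℝ 1 ψ' := by
      rw [contDiff_one_iff_deriv]
      refine ⟨fun x => (hd' x).differentiableAt, ?_⟩
      rw [hder]
      exact Complex.continuous_conj.comp (hψ.continuous_deriv le_rfl)
    have hc := core A B μ K ψ' (fun x => -f x) (fun x => -h x) (fun x => -h2 x) hAB hμ hψ'c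
      hf.neg hh.neg hh2.neg (fun x hx => (hd x hx).neg) (fun x hx => (hd2 x hx).neg)
      (fun x hx => by have := h0 x hx; linarith)
      (fun x hx => by
        have := hK x hx
        simpa [hψ'] using this)
      (by
        rw [hder]
        simpa using hV)
    have e : ∫ x in A..B, ψ' x * Complex.exp (Complex.I * ((-f x : ℝ) : ℂ)) =
        (starRingEnd ℂ) (∫ x in A..B, ψ x * Complex.exp (Complex.I * f x)) := by
      rw [← intervalIntegral_conj]
      refine intervalIntegral.integral_congr fun x _ => ?_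
      simp only [hψ', map_mul, ← Complex.exp_conj, Complex.conj_I, Complex.conj_ofReal]
      congr 2
      push_cast
      ring
    rw [e] at hc
    simpa using hc

end Pool.Agent.Helper73.SC.VC

namespace Pool.Agent.Helper73.SC

open MeasureTheory Metric Finset Set

/-- the functions `f'` and `f''` of a function which is twice continuously differentiable on a
closed interval -/
theorem two_derivs (A B : ℝ) (hAB : A < B) (f : ℝ → ℝ) (hf : ContDiffOn ℝ 2 f (Icc A B)) :
    ∃ h h2 : ℝ → ℝ, ContinuousOn h (Icc A B) ∧ ContinuousOn h2 (Icc A B) ∧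
      (∀ x ∈ Ioo A B, HasDerivAt f (h x) x) ∧ (∀ x ∈ Ioo A B, HasDerivAt h (h2 x) x) ∧
      ∀ x ∈ Ioo A B, iteratedDeriv 2 f x = h2 x := by
  have hu : UniqueDiffOn ℝ (Icc A B) := uniqueDiffOn_Icc hAB
  have h1 : ContDiffOn ℝ 1 (derivWithin f (Icc A B)) (Icc A B) :=
    hf.derivWithin hu (by norm_num)
  refine ⟨derivWithin f (Icc A B), derivWithin (derivWithin f (Icc A B)) (Icc A B),
    h1.continuousOn, h1.continuousOn_derivWithin hu le_rfl, ?_, ?_, ?_⟩
  · intro x hx
    have hn : Icc A B ∈ nhds x := Icc_mem_nhds hx.1 hx.2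
    have := (hf.differentiableOn (by norm_num) x (Ioo_subset_Icc_self hx)).hasDerivWithinAt
    exact this.hasDerivAt hn
  · intro x hx
    have hn : Icc A B ∈ nhds x := Icc_mem_nhds hx.1 hx.2
    have := (h1.differentiableOn (by norm_num) x (Ioo_subset_Icc_self hx)).hasDerivWithinAt
    exact this.hasDerivAt hn
  · intro x hx
    have hn : Icc A B ∈ nhds x := Icc_mem_nhds hx.1 hx.2
    rw [iteratedDeriv_succ, iteratedDeriv_one]
    have he : deriv f =ᶠ[nhds x] derivWithin f (Icc A B) := by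
      filter_upwards [isOpen_Ioo.mem_nhds hx] with y hy
      exact (derivWithin_of_mem_nhds (Icc_mem_nhds hy.1 hy.2)).symm
    rw [he.deriv_eq, derivWithin_of_mem_nhds hn]

/-- **module VC** -/
theorem s_vc : S_VC := by
  refine ⟨8, by norm_num, ?_⟩
  intro A B μ K ψ f hAB hμ hψ hf hK hV hpos
  rcases hAB.eq_or_lt with h | h
  · subst h
    have hK0 : 0 ≤ K := le_trans (norm_nonneg _) (hK A ⟨le_rfl, le_rfl⟩)
    rw [intervalIntegral.integral_same, norm_zero]
    positivity
  obtain ⟨f1, f2, c1, c2, d1, d2, e2⟩ := two_derivs A B h f hf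
  refine VC.s_vc' A B μ K ψ f f1 f2 hAB hμ hψ hf.continuousOn c1 c2 d1 d2 ?_ hK hV
  have hcl : closure (Ioo A B) = Icc A B := closure_Ioo h.ne
  rcases hpos with hp | hp
  · left
    intro x hx
    have hx' : x ∈ closure (Ioo A B) := by rw [hcl]; exact hx
    have := closure_minimal (s := Ioo A B) (t := {y | y ∈ Icc A B ∧ μ ≤ f2 y})
      (fun y hy => ⟨Ioo_subset_Icc_self hy, by rw [← e2 y hy]; exact hp y hy⟩)
      (c2.preimage_isClosed_of_isClosed isClosed_Icc isClosed_Ici) hx'
    exact this.2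
  · right
    intro x hx
    have hx' : x ∈ closure (Ioo A B) := by rw [hcl]; exact hx
    have := closure_minimal (s := Ioo A B) (t := {y | y ∈ Icc A B ∧ f2 y ≤ -μ})
      (fun y hy => ⟨Ioo_subset_Icc_self hy, by rw [← e2 y hy]; exact hp y hy⟩)
      (c2.preimage_isClosed_of_isClosed isClosed_Icc isClosed_Iic) hx'
    exact this.2

end Pool.Agent.Helper73.SC

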